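import Mathlib

/-!
# An abstract Tauberian obstruction

If `b n ≥ 0` and the generating function of `b` satisfies `H1 - H k ≍ 2^{-k}` at points at distance
`≍ k 4^{-k}` from the radius of convergence, then `b n` is not asymptotic to `c n^{-d} ρ^{2 n}`.
-/

set_option autoImplicit false
set_option linter.unusedSectionVars false

open Filter Topology

namespace V11328RD

theorem rpow_mul_pow_tendsto (s : ℝ) {θ : ℝ} (h0 : 0 ≤ θ) (h1 : θ < 1) :
    Tendsto (fun n : ℕ => (n : ℝ) ^ s * θ ^ n) atTop (𝓝 0) := by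
  obtain ⟨m, hm⟩ := exists_nat_ge s
  refine squeeze_zero' (Eventually.of_forall fun n => by positivity) ?_
    (tendsto_pow_const_mul_const_pow_of_lt_one m h0 h1)
  filter_upwards [eventually_ge_atTop 1] with n hn
  have hn' : (1 : ℝ) ≤ n := by exact_mod_cast hn
  refine mul_le_mul_of_nonneg_right ?_ (by positivity)
  calc (n : ℝ) ^ s ≤ (n : ℝ) ^ (m : ℝ) := Real.rpow_le_rpow_of_exponent_le hn' hm
    _ = (n : ℝ) ^ m := Real.rpow_natCast _ _

/-- The sampled data. -/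
structure SData (b : ℕ → ℝ) (r H1 : ℝ) (z H : ℕ → ℝ) (c1 C1 c2 C2 : ℝ) (k0 : ℕ) : Prop where
  b_nonneg : ∀ n, 0 ≤ b n
  r_pos : 0 < r
  c1_pos : 0 < c1
  C1_pos : 0 < C1
  c2_pos : 0 < c2
  C2_pos : 0 < C2
  k0_pos : 1 ≤ k0
  z_pos : ∀ k, k0 ≤ k → 0 < z k
  lowH : ∀ k, k0 ≤ k → c1 * (1 / 2) ^ k ≤ H1 - H k
  uppH : ∀ k, k0 ≤ k → H1 - H k ≤ C1 * (1 / 2) ^ k
  lowz : ∀ k, k0 ≤ k → c2 * (k * (1 / 4) ^ k) ≤ r - z k
  uppz : ∀ k, k0 ≤ k → r - z k ≤ C2 * (k * (1 / 4) ^ k)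
  hasSum : ∀ k, k0 ≤ k → HasSum (fun n : ℕ => b n * z k ^ (2 * n)) (H k)

namespace SData

variable {b : ℕ → ℝ} {r H1 : ℝ} {z H : ℕ → ℝ} {c1 C1 c2 C2 : ℝ} {k0 : ℕ}

theorem z_lt (D : SData b r H1 z H c1 C1 c2 C2 k0) {k : ℕ} (hk : k0 ≤ k) : z k < r := by
  have h := D.lowz k hk
  have hk1 : 1 ≤ k := D.k0_pos.trans hk
  have hkR : (0 : ℝ) < k := by exact_mod_cast hk1
  have := D.c2_pos
  have : 0 < c2 * (k * (1 / 4) ^ k) := by positivity
  linarith

theorem tendsto_z (D : SData b r H1 z H c1 C1 c2 C2 k0) : Tendsto z atTop (𝓝 r) := by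
  have hlim : Tendsto (fun n : ℕ => r - C2 * ((n : ℝ) * (1 / 4) ^ n)) atTop (𝓝 (r - C2 * 0)) :=
    tendsto_const_nhds.sub
      ((tendsto_self_mul_const_pow_of_lt_one (by norm_num) (by norm_num)).const_mul C2)
  rw [mul_zero, sub_zero] at hlim
  refine tendsto_of_tendsto_of_tendsto_of_le_of_le' hlim tendsto_const_nhds ?_ ?_
  · filter_upwards [eventually_ge_atTop k0] with k hk
    have := D.uppz k hk
    linarith
  · filter_upwards [eventually_ge_atTop k0] with k hk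
    exact (D.z_lt hk).le

theorem tendsto_H (D : SData b r H1 z H c1 C1 c2 C2 k0) : Tendsto H atTop (𝓝 H1) := by
  have hlim : Tendsto (fun n : ℕ => H1 - C1 * (1 / 2 : ℝ) ^ n) atTop (𝓝 (H1 - C1 * 0)) :=
    tendsto_const_nhds.sub
      ((tendsto_pow_atTop_nhds_zero_of_lt_one (by norm_num) (by norm_num)).const_mul C1)
  rw [mul_zero, sub_zero] at hlim
  refine tendsto_of_tendsto_of_tendsto_of_le_of_le' hlim tendsto_const_nhds ?_ ?_
  · filter_upwards [eventually_ge_atTop k0] with k hk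
    have := D.uppH k hk
    linarith
  · filter_upwards [eventually_ge_atTop k0] with k hk
    have := D.lowH k hk
    have := D.c1_pos
    have : 0 < c1 * (1 / 2) ^ k := by positivity
    linarith

theorem a_nonneg (D : SData b r H1 z H c1 C1 c2 C2 k0) (n : ℕ) : 0 ≤ b n * r ^ (2 * n) := by
  have := D.b_nonneg n
  have := D.r_pos
  positivity

theorem hasSum_a (D : SData b r H1 z H c1 C1 c2 C2 k0) :
    HasSum (fun n : ℕ => b n * r ^ (2 * n)) H1 := by
  have hpart : ∀ N : ℕ, ∑ n ∈ Finset.range N, b n * r ^ (2 * n) ≤ H1 := by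
    intro N
    have ht : Tendsto (fun k => ∑ n ∈ Finset.range N, b n * z k ^ (2 * n)) atTop
        (𝓝 (∑ n ∈ Finset.range N, b n * r ^ (2 * n))) :=
      tendsto_finsetSum _ fun n _ => (D.tendsto_z.pow _).const_mul _
    refine le_of_tendsto ht ?_
    filter_upwards [eventually_ge_atTop k0] with k hk
    have hz := D.z_pos k hk
    have h1 : ∑ n ∈ Finset.range N, b n * z k ^ (2 * n) ≤ H k :=
      sum_le_hasSum _ (fun n _ => mul_nonneg (D.b_nonneg n) (by positivity)) (D.hasSum k hk)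
    have := D.lowH k hk
    have := D.c1_pos
    have : 0 < c1 * (1 / 2) ^ k := by positivity
    linarith
  have hsum : Summable (fun n : ℕ => b n * r ^ (2 * n)) :=
    summable_of_sum_range_le D.a_nonneg hpart
  have hle : ∑' n, b n * r ^ (2 * n) ≤ H1 := Real.tsum_le_of_sum_range_le D.a_nonneg hpart
  have hge : H1 ≤ ∑' n, b n * r ^ (2 * n) := by
    refine le_of_tendsto D.tendsto_H ?_
    filter_upwards [eventually_ge_atTop k0] with k hk
    refine hasSum_le (fun n => ?_) (D.hasSum k hk) hsum.hasSum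
    exact mul_le_mul_of_nonneg_left
      (pow_le_pow_left₀ (D.z_pos k hk).le (D.z_lt hk).le _) (D.b_nonneg n)
  have := hsum.hasSum
  rwa [le_antisymm hle hge] at this

theorem x_nonneg (_D : SData b r H1 z H c1 C1 c2 C2 k0) (k : ℕ) : 0 ≤ (z k / r) ^ 2 :=
  sq_nonneg _

theorem zr_pos (D : SData b r H1 z H c1 C1 c2 C2 k0) {k : ℕ} (hk : k0 ≤ k) : 0 < z k / r :=
  div_pos (D.z_pos k hk) D.r_pos

theorem zr_lt (D : SData b r H1 z H c1 C1 c2 C2 k0) {k : ℕ} (hk : k0 ≤ k) : z k / r < 1 := by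
  rw [div_lt_one D.r_pos]
  exact D.z_lt hk

theorem hasSum_diff (D : SData b r H1 z H c1 C1 c2 C2 k0) {k : ℕ} (hk : k0 ≤ k) :
    HasSum (fun n : ℕ => b n * r ^ (2 * n) * (1 - ((z k / r) ^ 2) ^ n)) (H1 - H k) := by
  have h := D.hasSum_a.sub (D.hasSum k hk)
  refine h.congr_fun ?_ |> fun h => h
  intro n
  have hr := D.r_pos
  rw [← pow_mul, div_pow]
  field_simp

theorem term_nonneg (D : SData b r H1 z H c1 C1 c2 C2 k0) {k : ℕ} (hk : k0 ≤ k) (n : ℕ) :
    0 ≤ b n * r ^ (2 * n) * (1 - ((z k / r) ^ 2) ^ n) := by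
  refine mul_nonneg (D.a_nonneg n) ?_
  have h1 := D.zr_pos hk
  have h2 := D.zr_lt hk
  have : ((z k / r) ^ 2) ^ n ≤ 1 := pow_le_one₀ (sq_nonneg _) (by nlinarith)
  linarith

/-- `δ = 1 - (z/r)²` from below. -/
theorem delta_ge (D : SData b r H1 z H c1 C1 c2 C2 k0) {k : ℕ} (hk : k0 ≤ k) :
    c2 / r * (k * (1 / 4) ^ k) ≤ 1 - (z k / r) ^ 2 := by
  have h1 := D.zr_pos hk
  have h2 := D.zr_lt hk
  have hr := D.r_pos
  have h3 : c2 / r * (k * (1 / 4) ^ k) ≤ 1 - z k / r := by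
    have h4 : c2 / r * (k * (1 / 4) ^ k) = (c2 * (k * (1 / 4) ^ k)) / r := by ring
    have h5 : 1 - z k / r = (r - z k) / r := by field_simp
    rw [h4, h5]
    exact div_le_div_of_nonneg_right (D.lowz k hk) hr.le
  nlinarith

theorem delta_le (D : SData b r H1 z H c1 C1 c2 C2 k0) {k : ℕ} (hk : k0 ≤ k) :
    1 - (z k / r) ^ 2 ≤ 2 * C2 / r * (k * (1 / 4) ^ k) := by
  have h1 := D.zr_pos hk
  have h2 := D.zr_lt hk
  have hr := D.r_pos
  have h3 : 1 - z k / r ≤ C2 / r * (k * (1 / 4) ^ k) := by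
    have h4 : C2 / r * (k * (1 / 4) ^ k) = (C2 * (k * (1 / 4) ^ k)) / r := by ring
    have h5 : 1 - z k / r = (r - z k) / r := by field_simp
    rw [h4, h5]
    exact div_le_div_of_nonneg_right (D.uppz k hk) hr.le
  have h6 : 2 * C2 / r * (k * (1 / 4) ^ k) = 2 * (C2 / r * (k * (1 / 4) ^ k)) := by ring
  rw [h6]
  nlinarith

theorem delta_pos (D : SData b r H1 z H c1 C1 c2 C2 k0) {k : ℕ} (hk : k0 ≤ k) :
    0 < 1 - (z k / r) ^ 2 := by
  have h1 := D.zr_pos hk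
  have h2 := D.zr_lt hk
  nlinarith

theorem tendsto_delta (D : SData b r H1 z H c1 C1 c2 C2 k0) :
    Tendsto (fun k => 1 - (z k / r) ^ 2) atTop (𝓝 0) := by
  have h : Tendsto (fun k => 1 - (z k / r) ^ 2) atTop (𝓝 (1 - (r / r) ^ 2)) :=
    tendsto_const_nhds.sub ((D.tendsto_z.div_const r).pow 2)
  rwa [div_self D.r_pos.ne', one_pow, sub_self] at h

/-- Block estimate. -/
theorem block_lower {δ : ℝ} (h0 : 0 < δ) (h1 : δ ≤ 1) {c' : ℝ} (hc' : 0 < c') {a : ℕ → ℝ} {N0 : ℕ}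
    (ha : ∀ n, 0 ≤ a n) (hN : ∀ n, N0 ≤ n → c' * (n : ℝ) ^ (-(3 / 2) : ℝ) ≤ a n)
    (hδN : (N0 : ℝ) ≤ 1 / δ) {S : ℝ} (hS : HasSum (fun n => a n * (1 - (1 - δ) ^ n)) S) :
    c' / 16 * Real.sqrt δ ≤ S := by
  set M := ⌈1 / δ⌉₊ with hM
  have hM1 : 1 / δ ≤ M := Nat.le_ceil _
  have hM2 : (M : ℝ) < 1 / δ + 1 := Nat.ceil_lt_add_one (by positivity)
  have h1δ : 1 ≤ 1 / δ := by rw [le_div_iff₀ h0]; linarith
  have hM3 : (M : ℝ) ≤ 2 / δ := by
    have : 2 / δ = 1 / δ + 1 / δ := by ring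
    linarith
  have hMpos : (0 : ℝ) < M := by linarith
  have hN0M : N0 ≤ M := by exact_mod_cast hδN.trans hM1
  have hnn : ∀ n, 0 ≤ a n * (1 - (1 - δ) ^ n) := by
    intro n
    refine mul_nonneg (ha n) ?_
    have : (1 - δ) ^ n ≤ 1 := pow_le_one₀ (by linarith) (by linarith)
    linarith
  have hle : ∑ n ∈ Finset.Ico M (2 * M), a n * (1 - (1 - δ) ^ n) ≤ S :=
    sum_le_hasSum _ (fun n _ => hnn n) hS
  refine le_trans ?_ hle
  have hterm : ∀ n ∈ Finset.Ico M (2 * M), c' * (2 * M : ℝ) ^ (-(3 / 2) : ℝ) * (1 / 2) ≤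
      a n * (1 - (1 - δ) ^ n) := by
    intro n hn
    rw [Finset.mem_Ico] at hn
    have hnM : (M : ℝ) ≤ n := by exact_mod_cast hn.1
    have hn2 : (n : ℝ) ≤ 2 * M := by exact_mod_cast hn.2.le
    have h3 : c' * (2 * M : ℝ) ^ (-(3 / 2) : ℝ) ≤ a n := by
      refine le_trans ?_ (hN n (hN0M.trans hn.1))
      refine mul_le_mul_of_nonneg_left ?_ hc'.le
      exact Real.rpow_le_rpow_of_nonpos (by linarith) hn2 (by norm_num)
    have h4 : (1 - δ) ^ n ≤ 1 / 2 := by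
      have h5 : (1 - δ) ^ n ≤ (1 - δ) ^ M := pow_le_pow_of_le_one (by linarith) (by linarith) hn.1
      have h6 : (1 - δ) ^ M ≤ Real.exp (-δ) ^ M := by
        refine pow_le_pow_left₀ (by linarith) ?_ _
        have := Real.add_one_le_exp (-δ)
        linarith
      have h7 : Real.exp (-δ) ^ M = Real.exp (-(M * δ)) := by
        rw [← Real.exp_nat_mul]; ring_nf
      have h8 : Real.exp (-(M * δ)) ≤ Real.exp (-1) := by
        apply Real.exp_le_exp.2
        have : 1 ≤ M * δ := by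
          rw [div_le_iff₀ h0] at hM1; exact hM1
        linarith
      have h9 : Real.exp (-1) ≤ 1 / 2 := by
        rw [Real.exp_neg, inv_eq_one_div]
        refine one_div_le_one_div_of_le (by norm_num) ?_
        have := Real.add_one_le_exp (1 : ℝ)
        linarith
      linarith
    exact mul_le_mul h3 (by linarith) (by norm_num) (ha n)
  have hsum := Finset.card_nsmul_le_sum _ _ _ hterm
  refine le_trans ?_ hsum
  rw [Nat.card_Ico, nsmul_eq_mul]
  have hcard : ((2 * M - M : ℕ) : ℝ) = M := by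
    have : 2 * M - M = M := by omega
    rw [this]
  rw [hcard]
  -- M * (c' * (2M)^(-3/2) / 2) ≥ c'/16 * sqrt δ
  have h2M : (0 : ℝ) < 2 * M := by linarith
  have e1 : (2 * M : ℝ) ^ (-(3 / 2) : ℝ) = (2 * M : ℝ)⁻¹ * (Real.sqrt (2 * M))⁻¹ := by
    rw [show (-(3 / 2) : ℝ) = -1 + -(1 / 2) by norm_num, Real.rpow_add h2M, Real.rpow_neg_one,
      Real.rpow_neg h2M.le, Real.sqrt_eq_rpow]
  rw [e1]
  have e2 : (M : ℝ) * (c' * ((2 * M : ℝ)⁻¹ * (Real.sqrt (2 * M))⁻¹) * (1 / 2)) =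
      c' / 4 * (Real.sqrt (2 * M))⁻¹ := by
    field_simp
    norm_num
  rw [e2]
  have e3 : Real.sqrt δ / 4 ≤ (Real.sqrt (2 * M))⁻¹ := by
    have hs : 0 < Real.sqrt (2 * M) := Real.sqrt_pos.2 h2M
    rw [le_inv_comm₀ (by positivity) hs]
    have hsδ : 0 < Real.sqrt δ := Real.sqrt_pos.2 h0
    rw [inv_div, Real.sqrt_le_left (by positivity), div_pow, Real.sq_sqrt h0.le]
    have : 2 * (M : ℝ) ≤ 4 / δ := by
      have : 4 / δ = 2 * (2 / δ) := by ring
      linarith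
    refine this.trans ?_
    exact div_le_div_of_nonneg_right (by norm_num) h0.le
  calc c' / 16 * Real.sqrt δ = c' / 4 * (Real.sqrt δ / 4) := by ring
    _ ≤ c' / 4 * (Real.sqrt (2 * M))⁻¹ := mul_le_mul_of_nonneg_left e3 (by positivity)

theorem not_lower (D : SData b r H1 z H c1 C1 c2 C2 k0) {c' : ℝ} (hc' : 0 < c')
    (h : ∀ᶠ n : ℕ in atTop, c' * (n : ℝ) ^ (-(3 / 2) : ℝ) ≤ b n * r ^ (2 * n)) : False := by
  obtain ⟨N0, hN0⟩ := eventually_atTop.1 h
  have hr := D.r_pos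
  have hc2 := D.c2_pos
  have hC1 := D.C1_pos
  have hev : ∀ᶠ k in atTop, 1 - (z k / r) ^ 2 < 1 / (N0 + 1) :=
    D.tendsto_delta.eventually (gt_mem_nhds (by positivity))
  -- bound on sqrt k
  have key : ∀ᶠ k : ℕ in atTop, (k : ℝ) ≤ (16 * C1 / c') ^ 2 * (r / c2) := by
    filter_upwards [hev, eventually_ge_atTop k0] with k hk hkk
    have hδ := D.delta_pos hkk
    have hx : (z k / r) ^ 2 = 1 - (1 - (z k / r) ^ 2) := by ring
    have hS := D.hasSum_diff hkk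
    rw [hx] at hS
    have hδ1 : 1 - (z k / r) ^ 2 ≤ 1 := by have := D.x_nonneg k; linarith
    have hδN : (N0 : ℝ) ≤ 1 / (1 - (z k / r) ^ 2) := by
      rw [le_div_iff₀ hδ]
      rw [lt_div_iff₀ (by positivity)] at hk
      nlinarith
    have hb := block_lower hδ hδ1 hc' D.a_nonneg hN0 hδN hS
    have hu := D.uppH k hkk
    have hd := D.delta_ge hkk
    have h1 : c' / 16 * Real.sqrt (1 - (z k / r) ^ 2) ≤ C1 * (1 / 2) ^ k := hb.trans hu
    have h2 : Real.sqrt (1 - (z k / r) ^ 2) ≤ 16 * C1 / c' * (1 / 2) ^ k := by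
      have : Real.sqrt (1 - (z k / r) ^ 2) = 16 / c' * (c' / 16 * Real.sqrt (1 - (z k / r) ^ 2)) := by
        field_simp
      rw [this]
      calc 16 / c' * (c' / 16 * Real.sqrt (1 - (z k / r) ^ 2)) ≤ 16 / c' * (C1 * (1 / 2) ^ k) :=
            mul_le_mul_of_nonneg_left h1 (by positivity)
        _ = _ := by ring
    have h3 : 1 - (z k / r) ^ 2 ≤ (16 * C1 / c' * (1 / 2) ^ k) ^ 2 := by
      rw [← Real.sqrt_le_left (by positivity)]
      exact h2
    have h4 : (16 * C1 / c' * (1 / 2) ^ k) ^ 2 = (16 * C1 / c') ^ 2 * (1 / 4) ^ k := by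
      rw [mul_pow, ← pow_mul, mul_comm k 2, pow_mul]
      norm_num
    rw [h4] at h3
    have h5 := hd.trans h3
    have h6 : c2 / r * (k * (1 / 4) ^ k) = (c2 / r * k) * (1 / 4) ^ k := by ring
    rw [h6] at h5
    have h7 := le_of_mul_le_mul_right h5 (by positivity)
    calc (k : ℝ) = (c2 / r * k) * (r / c2) := by field_simp
      _ ≤ (16 * C1 / c') ^ 2 * (r / c2) := mul_le_mul_of_nonneg_right h7 (by positivity)
  obtain ⟨K, hK⟩ := exists_nat_gt ((16 * C1 / c') ^ 2 * (r / c2))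
  obtain ⟨k, hk1, hk2⟩ := (key.and (eventually_ge_atTop K)).exists
  have : (K : ℝ) ≤ k := by exact_mod_cast hk2
  linarith

theorem one_sub_pow_le {δ : ℝ} (h0 : 0 < δ) (h1 : δ ≤ 1) {s : ℝ} (hs0 : 0 ≤ s) (hs1 : s ≤ 1)
    {n : ℕ} (hn : 1 ≤ n) : 1 - (1 - δ) ^ n ≤ (n : ℝ) ^ s * δ ^ s := by
  have hnR : (1 : ℝ) ≤ n := by exact_mod_cast hn
  rw [← Real.mul_rpow (by positivity) h0.le]
  have hbern : 1 - (1 - δ) ^ n ≤ n * δ := by
    have := one_add_mul_le_pow (a := -δ) (by linarith) n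
    have h2 : (1 + -δ) ^ n = (1 - δ) ^ n := by ring
    rw [h2] at this
    linarith
  have hpw : 0 ≤ (1 - δ) ^ n := pow_nonneg (by linarith) _
  rcases le_or_gt ((n : ℝ) * δ) 1 with h | h
  · refine hbern.trans ?_
    have := Real.rpow_le_rpow_of_exponent_ge (x := (n : ℝ) * δ) (by positivity) h hs1
    rwa [Real.rpow_one] at this
  · have := Real.one_le_rpow h.le hs0
    linarith

theorem not_upper (D : SData b r H1 z H c1 C1 c2 C2 k0) {η : ℝ} (hη0 : 0 < η) (hη1 : η ≤ 1 / 2)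
    {C' : ℝ} (hC' : 0 < C')
    (h : ∀ᶠ n : ℕ in atTop, b n * r ^ (2 * n) ≤ C' * (n : ℝ) ^ (-(3 / 2) - 2 * η : ℝ)) : False := by
  obtain ⟨N0, hN0⟩ := eventually_atTop.1 h
  have hr := D.r_pos
  have hc1 := D.c1_pos
  have hC2 := D.C2_pos
  -- a global bound
  obtain ⟨C3, hC3, hall⟩ : ∃ C3 : ℝ, 0 < C3 ∧ ∀ n : ℕ, 1 ≤ n →
      b n * r ^ (2 * n) ≤ C3 * (n : ℝ) ^ (-(3 / 2) - 2 * η : ℝ) := by
    refine ⟨C' + ∑ n ∈ Finset.range N0, b n * r ^ (2 * n) * (n : ℝ) ^ ((3 / 2) + 2 * η : ℝ),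
      ?_, ?_⟩
    · have : 0 ≤ ∑ n ∈ Finset.range N0, b n * r ^ (2 * n) * (n : ℝ) ^ ((3 / 2) + 2 * η : ℝ) :=
        Finset.sum_nonneg fun n _ => mul_nonneg (D.a_nonneg n) (by positivity)
      linarith
    · intro n hn
      have hnR : (0 : ℝ) < n := by exact_mod_cast hn
      have hsn : 0 ≤ ∑ n ∈ Finset.range N0, b n * r ^ (2 * n) * (n : ℝ) ^ ((3 / 2) + 2 * η : ℝ) :=
        Finset.sum_nonneg fun n _ => mul_nonneg (D.a_nonneg n) (by positivity)
      by_cases hnN : N0 ≤ n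
      · refine (hN0 n hnN).trans ?_
        exact mul_le_mul_of_nonneg_right (by linarith) (by positivity)
      · have h1 : b n * r ^ (2 * n) * (n : ℝ) ^ ((3 / 2) + 2 * η : ℝ) ≤
            ∑ n ∈ Finset.range N0, b n * r ^ (2 * n) * (n : ℝ) ^ ((3 / 2) + 2 * η : ℝ) :=
          Finset.single_le_sum
            (f := fun n : ℕ => b n * r ^ (2 * n) * (n : ℝ) ^ ((3 / 2) + 2 * η : ℝ))
            (fun n _ => mul_nonneg (D.a_nonneg n) (by positivity))
            (Finset.mem_range.2 (by omega))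
        have h2 : b n * r ^ (2 * n) = b n * r ^ (2 * n) * (n : ℝ) ^ ((3 / 2) + 2 * η : ℝ) *
            (n : ℝ) ^ (-(3 / 2) - 2 * η : ℝ) := by
          rw [mul_assoc, ← Real.rpow_add hnR]
          rw [show ((3 / 2) + 2 * η + (-(3 / 2) - 2 * η) : ℝ) = 0 by ring, Real.rpow_zero, mul_one]
        rw [h2]
        exact mul_le_mul_of_nonneg_right (by linarith) (by positivity)
  have hsumm : Summable (fun n : ℕ => (n : ℝ) ^ (-1 - η : ℝ)) :=
    Real.summable_nat_rpow.2 (by linarith)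
  set Z : ℝ := ∑' n : ℕ, (n : ℝ) ^ (-1 - η : ℝ) with hZ
  have hZ0 : 0 ≤ Z := tsum_nonneg fun n => by positivity
  -- upper bound for the sum
  have hup : ∀ k, k0 ≤ k → H1 - H k ≤ C3 * (1 - (z k / r) ^ 2) ^ (1 / 2 + η) * Z := by
    intro k hk
    have hδ := D.delta_pos hk
    have hδ1 : 1 - (z k / r) ^ 2 ≤ 1 := by have := D.x_nonneg k; linarith
    have hS := D.hasSum_diff hk
    refine hasSum_le (fun n => ?_) hS (hsumm.hasSum.mul_left
      (C3 * (1 - (z k / r) ^ 2) ^ (1 / 2 + η)))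
    rcases Nat.eq_zero_or_pos n with hn | hn
    · subst hn
      simp only [mul_zero, pow_zero, mul_one, sub_self, Nat.cast_zero]
      positivity
    · have hnR : (0 : ℝ) < n := by exact_mod_cast hn
      have hx : ((z k / r) ^ 2) ^ n = (1 - (1 - (z k / r) ^ 2)) ^ n := by ring_nf
      rw [hx]
      have h1 := one_sub_pow_le hδ hδ1 (s := 1 / 2 + η) (by linarith) (by linarith) hn
      have h2 := hall n hn
      have hnn : 0 ≤ 1 - (1 - (1 - (z k / r) ^ 2)) ^ n := by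
        have : (1 - (1 - (z k / r) ^ 2)) ^ n ≤ 1 := pow_le_one₀ (by linarith) (by linarith)
        linarith
      calc b n * r ^ (2 * n) * (1 - (1 - (1 - (z k / r) ^ 2)) ^ n)
          ≤ C3 * (n : ℝ) ^ (-(3 / 2) - 2 * η : ℝ) *
              ((n : ℝ) ^ (1 / 2 + η) * (1 - (z k / r) ^ 2) ^ (1 / 2 + η)) :=
            mul_le_mul h2 h1 hnn (by positivity)
        _ = C3 * (1 - (z k / r) ^ 2) ^ (1 / 2 + η) *
              ((n : ℝ) ^ (-(3 / 2) - 2 * η : ℝ) * (n : ℝ) ^ (1 / 2 + η)) := by ring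
        _ = C3 * (1 - (z k / r) ^ 2) ^ (1 / 2 + η) * (n : ℝ) ^ (-1 - η : ℝ) := by
            rw [← Real.rpow_add hnR]
            congr 2
            ring
  -- limit
  set B : ℝ := C3 * (2 * C2 / r) ^ (1 / 2 + η) * Z with hB
  have hfin : ∀ k, k0 ≤ k → c1 ≤ B * ((k : ℝ) ^ (1 / 2 + η) * ((1 / 4 : ℝ) ^ η) ^ k) := by
    intro k hk
    have hk1 : 1 ≤ k := D.k0_pos.trans hk
    have hkR : (0 : ℝ) < k := by exact_mod_cast hk1
    have hδ := D.delta_pos hk
    have h1 := (D.lowH k hk).trans (hup k hk)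
    have h2 : (1 - (z k / r) ^ 2) ^ (1 / 2 + η) ≤
        (2 * C2 / r * (k * (1 / 4) ^ k)) ^ (1 / 2 + η) :=
      Real.rpow_le_rpow hδ.le (D.delta_le hk) (by linarith)
    have h3 : (2 * C2 / r * (k * (1 / 4) ^ k)) ^ (1 / 2 + η) =
        (2 * C2 / r) ^ (1 / 2 + η) * ((k : ℝ) ^ (1 / 2 + η) * (((1 / 4 : ℝ) ^ η) ^ k * (1 / 2) ^ k)) := by
      rw [Real.mul_rpow (by positivity) (by positivity), Real.mul_rpow (by positivity) (by positivity)]
      congr 2
      rw [← Real.rpow_natCast, ← Real.rpow_natCast, ← Real.rpow_natCast, ← Real.rpow_mul (by norm_num),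
        ← Real.rpow_mul (by norm_num), show ((1 : ℝ) / 2) = (1 / 4) ^ ((1 : ℝ) / 2) by
          rw [← Real.sqrt_eq_rpow, show ((1 : ℝ) / 4) = (1 / 2) ^ 2 by norm_num,
            Real.sqrt_sq (by norm_num)], ← Real.rpow_mul (by norm_num),
        ← Real.rpow_add (by norm_num)]
      congr 1
      rw [← Real.sqrt_eq_rpow, show ((1 : ℝ) / 4) = (1 / 2) ^ 2 by norm_num,
            Real.sqrt_sq (by norm_num)]
      ring
    have h4 : c1 * (1 / 2) ^ k ≤ C3 * ((2 * C2 / r) ^ (1 / 2 + η) * ((k : ℝ) ^ (1 / 2 + η) *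
        (((1 / 4 : ℝ) ^ η) ^ k * (1 / 2) ^ k))) * Z := by
      rw [← h3]
      refine h1.trans ?_
      exact mul_le_mul_of_nonneg_right (mul_le_mul_of_nonneg_left h2 hC3.le) hZ0
    have h5 : C3 * ((2 * C2 / r) ^ (1 / 2 + η) * ((k : ℝ) ^ (1 / 2 + η) *
        (((1 / 4 : ℝ) ^ η) ^ k * (1 / 2) ^ k))) * Z =
        B * ((k : ℝ) ^ (1 / 2 + η) * ((1 / 4 : ℝ) ^ η) ^ k) * (1 / 2) ^ k := by
      rw [hB]; ring
    rw [h5] at h4
    exact le_of_mul_le_mul_right h4 (by positivity)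
  have hlim := (rpow_mul_pow_tendsto (1 / 2 + η) (θ := (1 / 4 : ℝ) ^ η) (by positivity)
    (Real.rpow_lt_one (by norm_num) (by norm_num) hη0)).const_mul B
  rw [mul_zero] at hlim
  obtain ⟨k, hk1, hk2⟩ := ((hlim.eventually (gt_mem_nhds hc1)).and
    (eventually_ge_atTop k0)).exists
  have := hfin k hk2
  linarith

/-- Main obstruction. -/
theorem not_isEquivalent (D : SData b r H1 z H c1 C1 c2 C2 k0) {ρ c d : ℝ} (hρ : 0 ≤ ρ)
    (hc : 0 < c)
    (h : Asymptotics.IsEquivalent atTop b (fun n : ℕ => c * (n : ℝ) ^ (-d) * ρ ^ (2 * n))) :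
    False := by
  have hr := D.r_pos
  set θ : ℝ := (ρ * r) ^ 2 with hθ
  have hθ0 : 0 ≤ θ := sq_nonneg _
  have hv : ∀ n : ℕ, 0 ≤ c * (n : ℝ) ^ (-d) * ρ ^ (2 * n) := fun n => by positivity
  have hev : ∀ᶠ n : ℕ in atTop, c / 2 * (n : ℝ) ^ (-d) * θ ^ n ≤ b n * r ^ (2 * n) ∧
      b n * r ^ (2 * n) ≤ 2 * c * (n : ℝ) ^ (-d) * θ ^ n := by
    have h1 := h.isLittleO.def (show (0 : ℝ) < 1 / 2 by norm_num)
    filter_upwards [h1] with n hn
    simp only [Pi.sub_apply, Real.norm_eq_abs] at hn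
    rw [abs_of_nonneg (hv n)] at hn
    have h2 := abs_le.1 hn
    have hθn : θ ^ n = ρ ^ (2 * n) * r ^ (2 * n) := by
      rw [hθ, ← pow_mul, mul_pow]
    have hrn : 0 < r ^ (2 * n) := by positivity
    rw [hθn]
    constructor
    · have h3 : c / 2 * (n : ℝ) ^ (-d) * ρ ^ (2 * n) ≤ b n := by linarith [h2.1]
      calc c / 2 * (n : ℝ) ^ (-d) * (ρ ^ (2 * n) * r ^ (2 * n)) =
            c / 2 * (n : ℝ) ^ (-d) * ρ ^ (2 * n) * r ^ (2 * n) := by ring
        _ ≤ _ := mul_le_mul_of_nonneg_right h3 hrn.le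
    · have h3 : b n ≤ 2 * c * (n : ℝ) ^ (-d) * ρ ^ (2 * n) := by
        have := hv n
        linarith [h2.2]
      calc b n * r ^ (2 * n) ≤ 2 * c * (n : ℝ) ^ (-d) * ρ ^ (2 * n) * r ^ (2 * n) :=
            mul_le_mul_of_nonneg_right h3 hrn.le
        _ = _ := by ring
  rcases lt_trichotomy θ 1 with h1 | h1 | h1
  · -- subexponential
    have ht := rpow_mul_pow_tendsto (2 - d) hθ0 h1
    refine D.not_upper (η := 1 / 4) (by norm_num) (by norm_num) (C' := 2 * c) (by positivity) ?_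
    filter_upwards [hev, ht.eventually (gt_mem_nhds (zero_lt_one)), eventually_ge_atTop 1]
      with n hn hn1 hn2
    have hnR : (0 : ℝ) < n := by exact_mod_cast hn2
    refine hn.2.trans ?_
    rw [mul_assoc]
    refine mul_le_mul_of_nonneg_left ?_ (by positivity)
    have e1 : (n : ℝ) ^ (-d) * θ ^ n = (n : ℝ) ^ (-(3 / 2) - 2 * (1 / 4) : ℝ) *
        ((n : ℝ) ^ (2 - d) * θ ^ n) := by
      rw [← mul_assoc, ← Real.rpow_add hnR]
      congr 2
      ring
    rw [e1]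
    exact mul_le_of_le_one_right (by positivity) hn1.le
  · rcases le_or_gt d (3 / 2) with hd | hd
    · refine D.not_lower (c' := c / 2) (by positivity) ?_
      filter_upwards [hev, eventually_ge_atTop 1] with n hn hn2
      have hnR : (1 : ℝ) ≤ n := by exact_mod_cast hn2
      rw [h1, one_pow, mul_one] at hn
      refine le_trans ?_ hn.1
      refine mul_le_mul_of_nonneg_left ?_ (by positivity)
      exact Real.rpow_le_rpow_of_exponent_le hnR (by linarith)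
    · refine D.not_upper (η := min (1 / 2) ((d - 3 / 2) / 2)) (by
          apply lt_min <;> linarith) (min_le_left _ _) (C' := 2 * c) (by positivity) ?_
      filter_upwards [hev, eventually_ge_atTop 1] with n hn hn2
      have hnR : (1 : ℝ) ≤ n := by exact_mod_cast hn2
      rw [h1, one_pow, mul_one, mul_one] at hn
      refine hn.2.trans ?_
      refine mul_le_mul_of_nonneg_left ?_ (by positivity)
      refine Real.rpow_le_rpow_of_exponent_le hnR ?_
      have := min_le_right (1 / 2 : ℝ) ((d - 3 / 2) / 2)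
      linarith
  · -- superexponential
    have hθi : θ⁻¹ < 1 := inv_lt_one_of_one_lt₀ h1
    have ht := rpow_mul_pow_tendsto (d - 3 / 2) (inv_nonneg.2 hθ0) hθi
    refine D.not_lower (c' := c / 2) (by positivity) ?_
    filter_upwards [hev, ht.eventually (gt_mem_nhds (zero_lt_one)), eventually_ge_atTop 1]
      with n hn hn1 hn2
    have hnR : (0 : ℝ) < n := by exact_mod_cast hn2
    refine le_trans ?_ hn.1
    rw [mul_assoc]
    refine mul_le_mul_of_nonneg_left ?_ (by positivity)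
    have hθn : 0 < θ ^ n := by positivity
    have e1 : (n : ℝ) ^ (-(3 / 2) : ℝ) = (n : ℝ) ^ (-d) * θ ^ n *
        ((n : ℝ) ^ (d - 3 / 2) * θ⁻¹ ^ n) := by
      have : (n : ℝ) ^ (-(3 / 2) : ℝ) = (n : ℝ) ^ (-d) * (n : ℝ) ^ (d - 3 / 2) := by
        rw [← Real.rpow_add hnR]
        congr 1
        ring
      rw [this, inv_pow]
      field_simp
    rw [e1]
    exact mul_le_of_le_one_right (by positivity) hn1.le

end SData

end V11328RD
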