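import Pool.Agent.V11328.RD.Core

/-!
# Sampled data of the Green function near the radius of convergence
-/

set_option autoImplicit false
set_option linter.unusedSectionVars false

open Monoid Monoid.CoprodI

namespace V11328RD

/-- Parity of the first coordinate. -/
noncomputable def par0 : A →* ℤˣ where
  toFun a := (-1 : ℤˣ) ^ (Multiplicative.toAdd a 0)
  map_one' := by simp
  map_mul' a b := by
    simp only [toAdd_mul, Pi.add_apply]
    exact zpow_add _ _ _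

/-- Parity on the free product. -/
noncomputable def par : Gm →* ℤˣ := CoprodI.lift fun _ : Bool => par0

theorem par_inc (i : Bool) (a : A) : par (inc i a) = par0 a := CoprodI.lift_of _ _

theorem par_ev1 (ε : Fin 6 → Bool) : par0 (ev1 ε) = -1 := by
  change (-1 : ℤˣ) ^ (sg (ε 0)) = -1
  cases ε 0 <;> simp [sg]

theorem par_ev2 (b : Bool) : par0 (ev2 b) = -1 := by
  change (-1 : ℤˣ) ^ ((Pi.single 0 (sg b) : Fin 6 → ℤ) 0) = -1
  rw [Pi.single_eq_same]
  cases b <;> simp [sg]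

theorem P_parity (α β : ℝ) {h : Gm → ℝ} {s : ℤˣ} (hh : ∀ x, par x ≠ s → h x = 0) (x : Gm)
    (hx : par x ≠ -s) : P α β h x = 0 := by
  rw [P_apply]
  have h1 : ∀ ε, h ((inc false (ev1 ε))⁻¹ * x) = 0 := by
    intro ε
    apply hh
    rw [map_mul, map_inv, par_inc, par_ev1]
    intro h
    apply hx
    rw [← h]
    simp
  have h2 : ∀ b, h ((inc true (ev2 b))⁻¹ * x) = 0 := by
    intro ε
    apply hh
    rw [map_mul, map_inv, par_inc, par_ev2]
    intro h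
    apply hx
    rw [← h]
    simp
  simp [h1, h2]

theorem Ppow_parity (α β : ℝ) (n : ℕ) (x : Gm) (hx : par x ≠ (-1) ^ n) :
    (P α β ^ n) dl x = 0 := by
  induction n generalizing x with
  | zero =>
    rw [pow_zero, Module.End.one_apply, dl_apply, if_neg]
    rintro rfl
    simp at hx
  | succ n ih =>
    rw [pow_succ', Module.End.mul_apply]
    refine P_parity α β (s := (-1) ^ n) (fun y hy => ih y hy) x ?_
    rwa [pow_succ, mul_neg, mul_one] at hx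

theorem ret_odd (α β : ℝ) (n : ℕ) : ret α β (2 * n + 1) = 0 := by
  unfold ret
  apply Ppow_parity
  rw [map_one, pow_succ, pow_mul]
  simp

theorem hasSum_even {α β z S : ℝ} (h : HasSum (fun k : ℕ => z ^ k * ret α β k) S) :
    HasSum (fun n : ℕ => ret α β (2 * n) * z ^ (2 * n)) S := by
  have hinj : Function.Injective (fun n : ℕ => 2 * n) := fun a b h => by simpa using h
  have h2 := (hinj.hasSum_iff (f := fun k : ℕ => z ^ k * ret α β k) (a := S) ?_).2 h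
  · refine h2.congr_fun ?_ |> fun h => h
    intro n
    simp only [Function.comp_apply]
    ring
  · intro n hn
    rcases Nat.even_or_odd' n with ⟨k, hk | hk⟩
    · exact absurd ⟨k, hk.symm⟩ hn
    · rw [hk, ret_odd, mul_zero]

theorem dG_ge {ε : ℝ} (h0 : 0 ≤ ε) (h1 : ε ≤ 1) : ε / 64 ≤ G1 - Gs (1 - ε) := by
  have hx0 : 0 ≤ 1 - ε := by linarith
  have hx1 : 1 - ε ≤ 1 := by linarith
  have hs : HasSum (fun n : ℕ => w n - w n * (1 - ε) ^ (2 * n)) (G1 - Gs (1 - ε)) :=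
    summable_w.hasSum.sub (summable_Gs hx0 hx1).hasSum
  have hnn : ∀ n : ℕ, 0 ≤ w n - w n * (1 - ε) ^ (2 * n) := fun n => by
    have := mul_le_of_le_one_right (w_nonneg n) (pow_le_one₀ (n := 2 * n) hx0 hx1)
    linarith
  have h2 := le_hasSum hs 1 (fun n _ => hnn n)
  rw [w_one] at h2
  refine le_trans ?_ h2
  nlinarith [mul_nonneg h0 hx0]

theorem rr_sub {ξ : ℝ} (h0 : 0 ≤ ξ) (h1 : ξ ≤ 1) :
    rr - zz ξ = (G1 * Hh ξ - Tt ξ * H1) / (al * H1 * Hh ξ) := by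
  have hal := al_pos
  have hH := one_le_Hh h0 h1
  have hH1 := H1_ge
  unfold rr zz
  field_simp

theorem data : ∃ c1 C1 c2 C2 : ℝ, 0 < c1 ∧ 0 < C1 ∧ 0 < c2 ∧ 0 < C2 ∧ ∃ k0 : ℕ, 1 ≤ k0 ∧
    ∀ k, k0 ≤ k →
      0 < zz (1 - (1 / 2) ^ k) ∧
      c1 * (1 / 2) ^ k ≤ H1 - Hh (1 - (1 / 2) ^ k) ∧
      H1 - Hh (1 - (1 / 2) ^ k) ≤ C1 * (1 / 2) ^ k ∧
      c2 * (k * (1 / 4) ^ k) ≤ rr - zz (1 - (1 / 2) ^ k) ∧
      rr - zz (1 - (1 / 2) ^ k) ≤ C2 * (k * (1 / 4) ^ k) := by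
  have hG := G1_pos
  have hD := D1_pos
  have hk := kp_pos
  have hK := Kc_pos
  have hps := ps_pos
  have hal := al_pos
  have hH1 := H1_ge
  set CL := D1 * G1 + G1 * Kc ^ 2 / 2 with hCL
  set CU := G1 * kp ^ 2 * (D1 + G1) ^ 2 with hCU
  have hCL0 : 0 < CL := by positivity
  have hCU0 : 0 < CU := by positivity
  obtain ⟨k1, hk1⟩ := exists_nat_ge (1024 * CL / ps)
  refine ⟨1 / 64, D1 + Kc, ps / (1024 * al * H1 ^ 2), (1 + CU) / (al * H1), by norm_num,
    by positivity, by positivity, by positivity, max k1 2, by omega, ?_⟩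
  intro k hkk
  have hk2 : 2 ≤ k := (le_max_right _ _).trans hkk
  have hkk1 : k1 ≤ k := (le_max_left _ _).trans hkk
  have hkR : (2 : ℝ) ≤ k := by exact_mod_cast hk2
  have hkR1 : 1024 * CL / ps ≤ k := hk1.trans (by exact_mod_cast hkk1)
  have hCLk : 1024 * CL ≤ ps * k := by
    rw [div_le_iff₀ hps] at hkR1; linarith
  set ε : ℝ := (1 / 2) ^ k with hε
  have hε0 : 0 < ε := by positivity
  have hε1 : ε ≤ 1 / 2 := by
    rw [hε]
    calc ((1 : ℝ) / 2) ^ k ≤ (1 / 2) ^ 1 := pow_le_pow_of_le_one (by norm_num) (by norm_num) (by omega)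
      _ = 1 / 2 := pow_one _
  have hε4 : ((1 : ℝ) / 4) ^ k = ε ^ 2 := by
    rw [hε, ← pow_mul, mul_comm, pow_mul]; norm_num
  have hξ0 : 0 < 1 - ε := by linarith
  have hξ1 : 1 - ε ≤ 1 := by linarith
  have cd := coreData hε0.le (by linarith : ε ≤ 1)
  have hHh := one_le_Hh hξ0.le hξ1
  have hdG := dG_ge hε0.le (by linarith : ε ≤ 1)
  have hdiff := cd.diff
  have hHle : Hh (1 - ε) ≤ H1 := by
    have := cd.dG_nonneg; have := cd.dS_nonneg; linarith
  obtain ⟨j, hj⟩ : ∃ j, k = j + 1 := ⟨k - 1, by omega⟩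
  have hRl : (k : ℝ) / 512 * ε ^ 2 ≤ Rr ε := by
    have := le_Rr j
    rw [← hj, ← hε] at this
    refine le_trans ?_ this
    have hj2 : (k : ℝ) = j + 1 := by rw [hj]; push_cast; ring
    have : (k : ℝ) / 512 ≤ j / 256 := by linarith
    exact mul_le_mul_of_nonneg_right this (sq_nonneg _)
  have hRu : Rr ε ≤ k * ε ^ 2 := by
    have := Rr_le k
    rw [← hε] at this
    refine this.trans ?_
    have : ((k : ℝ) + 2) / 4 ≤ k := by linarith
    exact mul_le_mul_of_nonneg_right this (sq_nonneg _)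
  refine ⟨zz_pos hξ0 hξ1, ?_, ?_, ?_, ?_⟩
  · rw [hdiff, cd.dG_eq]
    have := cd.dS_nonneg
    linarith
  · rw [hdiff]
    have := cd.dG_le; have := cd.dS_le
    linarith
  · rw [rr_sub hξ0.le hξ1, le_div_iff₀ (by positivity), hε4]
    refine le_trans ?_ cd.lower
    have h1 : ps / (1024 * al * H1 ^ 2) * (k * ε ^ 2) * (al * H1 * Hh (1 - ε)) ≤
        ps / (1024 * al * H1 ^ 2) * (k * ε ^ 2) * (al * H1 * H1) := by
      refine mul_le_mul_of_nonneg_left ?_ (by positivity)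
      exact mul_le_mul_of_nonneg_left hHle (by positivity)
    refine h1.trans ?_
    have h2 : ps / (1024 * al * H1 ^ 2) * (k * ε ^ 2) * (al * H1 * H1) = ps * k / 1024 * ε ^ 2 := by
      field_simp
    rw [h2]
    have h3 : ps * (k / 512 * ε ^ 2) ≤ ps * Rr ε := mul_le_mul_of_nonneg_left hRl hps.le
    have h4 : CL * ε ^ 2 ≤ ps * k / 1024 * ε ^ 2 :=
      mul_le_mul_of_nonneg_right (by linarith) (sq_nonneg _)
    nlinarith
  · rw [rr_sub hξ0.le hξ1, div_le_iff₀ (by positivity), hε4]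
    refine cd.upper.trans ?_
    have h1 : (1 + CU) / (al * H1) * (k * ε ^ 2) * (al * H1 * 1) ≤
        (1 + CU) / (al * H1) * (k * ε ^ 2) * (al * H1 * Hh (1 - ε)) := by
      refine mul_le_mul_of_nonneg_left ?_ (by positivity)
      exact mul_le_mul_of_nonneg_left hHh (by positivity)
    refine le_trans ?_ h1
    have h2 : (1 + CU) / (al * H1) * (k * ε ^ 2) * (al * H1 * 1) = (1 + CU) * k * ε ^ 2 := by
      field_simp
    rw [h2]
    have h3 : CU * ε ^ 2 ≤ CU * k * ε ^ 2 := by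
      refine mul_le_mul_of_nonneg_right ?_ (sq_nonneg _)
      nlinarith
    nlinarith

/-- The return sequence at even times. -/
noncomputable def bb (n : ℕ) : ℝ := ret al be (2 * n)

theorem bb_nonneg (n : ℕ) : 0 ≤ bb n := ret_nonneg al_pos.le be_pos.le _

theorem full_data : ∃ c1 C1 c2 C2 : ℝ, 0 < c1 ∧ 0 < C1 ∧ 0 < c2 ∧ 0 < C2 ∧ ∃ k0 : ℕ, 1 ≤ k0 ∧
    ∀ k, k0 ≤ k →
      0 < zz (1 - (1 / 2) ^ k) ∧
      c1 * (1 / 2) ^ k ≤ H1 - Hh (1 - (1 / 2) ^ k) ∧
      H1 - Hh (1 - (1 / 2) ^ k) ≤ C1 * (1 / 2) ^ k ∧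
      c2 * (k * (1 / 4) ^ k) ≤ rr - zz (1 - (1 / 2) ^ k) ∧
      rr - zz (1 - (1 / 2) ^ k) ≤ C2 * (k * (1 / 4) ^ k) ∧
      HasSum (fun n : ℕ => bb n * zz (1 - (1 / 2) ^ k) ^ (2 * n)) (Hh (1 - (1 / 2) ^ k)) := by
  obtain ⟨c1, C1, c2, C2, h1, h2, h3, h4, k0, hk0, hd⟩ := data
  refine ⟨c1, C1, c2, C2, h1, h2, h3, h4, k0, hk0, fun k hk => ?_⟩
  obtain ⟨d1, d2, d3, d4, d5⟩ := hd k hk
  refine ⟨d1, d2, d3, d4, d5, hasSum_even ?_⟩
  have hkpos : 0 < (k : ℝ) := by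
    have : 1 ≤ k := hk0.trans hk
    exact_mod_cast this
  have hlim : Filter.Tendsto (fun n : ℕ => C2 * ((n : ℝ) * (1 / 4) ^ n)) Filter.atTop
      (nhds (C2 * 0)) :=
    (tendsto_self_mul_const_pow_of_lt_one (by norm_num) (by norm_num)).const_mul C2
  rw [mul_zero] at hlim
  have hpos : 0 < c2 * (k * (1 / 4) ^ k) := by positivity
  obtain ⟨k', hk', hk'k⟩ := ((hlim.eventually (gt_mem_nhds hpos)).and
    (Filter.eventually_ge_atTop k)).exists
  obtain ⟨_, _, _, _, e5⟩ := hd k' (hk.trans hk'k)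
  have hk1 : 1 ≤ k := hk0.trans hk
  have hle : ((1 : ℝ) / 2) ^ k' ≤ (1 / 2) ^ k := pow_le_pow_of_le_one (by norm_num) (by norm_num) hk'k
  have hhalf : ((1 : ℝ) / 2) ^ k ≤ 1 / 2 := by
    calc ((1 : ℝ) / 2) ^ k ≤ (1 / 2) ^ 1 := pow_le_pow_of_le_one (by norm_num) (by norm_num) hk1
      _ = 1 / 2 := pow_one _
  have hpos' : 0 < ((1 : ℝ) / 2) ^ k' := by positivity
  refine hasSum_param (ξ' := 1 - (1 / 2) ^ k') (by linarith) (by linarith) (by linarith) ?_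
  linarith

end V11328RD
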