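import Pool.Agent.V11328.RD.Decay
import Pool.Agent.V11328.RD.Data
import Pool.Agent.V11328.RD.Asym

/-!
# The counterexample measure on `ℤ⁶ * ℤ⁶`
-/

set_option autoImplicit false
set_option linter.unusedSectionVars false

open Monoid Monoid.CoprodI Filter Topology

namespace V11328RD

/-- The measure: `al` times the uniform measure on the 64 sign vectors of the first factor plus
`be` times the uniform measure on the two steps `± e₀` of the second factor. -/
noncomputable def nu : Gm →₀ ℝ :=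
  ∑ ε : Fin 6 → Bool, Finsupp.single (inc false (ev1 ε)) (al * (1 / 64)) +
    ∑ b : Bool, Finsupp.single (inc true (ev2 b)) (be * (1 / 2))

theorem nu_sum (c : Gm → ℝ) : nu.sum (fun y a => a * c y) =
    al * ((1 / 64) * ∑ ε, c (inc false (ev1 ε))) + be * ((1 / 2) * ∑ b, c (inc true (ev2 b))) := by
  have h : nu.sum (fun y a => a * c y) = Finsupp.linearCombination ℝ c nu := by
    rw [Finsupp.linearCombination_apply]
    rfl
  rw [h, nu, map_add, map_sum, map_sum]
  simp only [Finsupp.linearCombination_single, smul_eq_mul]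
  rw [← Finset.mul_sum, ← Finset.mul_sum]
  ring

theorem nu_conv (h : Gm → ℝ) (x : Gm) : nu.sum (fun y a => a * h (y⁻¹ * x)) = P al be h x := by
  rw [nu_sum (fun y => h (y⁻¹ * x)), P_apply]

theorem nu_total : nu.sum (fun _ a => a) = 1 := by
  have h := nu_sum (fun _ => 1)
  simp only [mul_one] at h
  rw [h, Finset.sum_const, card_signs, Finset.sum_const, Finset.card_univ, Fintype.card_bool]
  have := al_add_be
  simp only [nsmul_eq_mul, mul_one]
  push_cast
  linarith

theorem nu_nonneg (x : Gm) : 0 ≤ nu x := by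
  rw [nu, Finsupp.add_apply, Finsupp.finsetSum_apply, Finsupp.finsetSum_apply]
  have h1 := al_pos
  have h2 := be_pos
  refine add_nonneg (Finset.sum_nonneg fun ε _ => ?_) (Finset.sum_nonneg fun b _ => ?_)
  · rw [Finsupp.single_apply]
    split_ifs <;> positivity
  · rw [Finsupp.single_apply]
    split_ifs <;> positivity

theorem sg_not (b : Bool) : sg (!b) = -sg b := by cases b <;> simp [sg]

theorem ev1_inv (ε : Fin 6 → Bool) : (ev1 ε)⁻¹ = ev1 (fun j => !ε j) := by
  unfold ev1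
  rw [← ofAdd_neg]
  congr 1
  funext j
  rw [Pi.neg_apply, sg_not]

theorem ev2_inv (b : Bool) : (ev2 b)⁻¹ = ev2 (!b) := by
  unfold ev2
  rw [← ofAdd_neg, sg_not, Pi.single_neg]

/-- Negation of sign vectors. -/
def negE : (Fin 6 → Bool) ≃ (Fin 6 → Bool) where
  toFun ε := fun j => !ε j
  invFun ε := fun j => !ε j
  left_inv ε := by funext j; simp
  right_inv ε := by funext j; simp

theorem nu_symm (x : Gm) : nu x⁻¹ = nu x := by
  classical
  rw [nu, Finsupp.add_apply, Finsupp.add_apply, Finsupp.finsetSum_apply, Finsupp.finsetSum_apply,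
    Finsupp.finsetSum_apply, Finsupp.finsetSum_apply]
  congr 1
  · refine Fintype.sum_equiv negE _ _ fun ε => ?_
    rw [Finsupp.single_apply, Finsupp.single_apply]
    have h : (inc false (ev1 ε) = x⁻¹) ↔ (inc false (ev1 (negE ε)) = x) := by
      change _ ↔ inc false (ev1 (fun j => !ε j)) = x
      rw [← ev1_inv, map_inv, inv_eq_iff_eq_inv]
    simp only [h]
  · refine Fintype.sum_equiv Equiv.boolNot _ _ fun b => ?_
    rw [Finsupp.single_apply, Finsupp.single_apply]
    have h : (inc true (ev2 b) = x⁻¹) ↔ (inc true (ev2 (Equiv.boolNot b)) = x) := by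
      change _ ↔ inc true (ev2 (!b)) = x
      rw [← ev2_inv, map_inv, inv_eq_iff_eq_inv]
    simp only [h]

theorem nu_iter (n : ℕ) :
    ((fun (h : Gm → ℝ) (x : Gm) => nu.sum (fun y a => a * h (y⁻¹ * x)))^[2 * n]
      (Set.indicator ({1} : Set Gm) (fun _ => (1 : ℝ)))) 1 = bb n := by
  have h : (fun (h : Gm → ℝ) (x : Gm) => nu.sum (fun y a => a * h (y⁻¹ * x))) =
      fun h => P al be h := by
    funext h x
    exact nu_conv h x
  rw [h]
  unfold bb ret dl
  rw [Module.End.pow_apply]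

/-- The set of bounds for the convolution operator. -/
def bds : Set ℝ :=
  {r : ℝ | 0 ≤ r} ∩ ⋂ (g : Gm →₀ ℝ), ⋂ (T : Finset Gm),
    {r : ℝ | ∑ x ∈ T, (nu.sum (fun y a => a * g (y⁻¹ * x))) ^ 2 ≤ r ^ 2 * g.sum (fun _ a => a ^ 2)}

theorem mem_bds (r : ℝ) : r ∈ bds ↔ 0 ≤ r ∧ ∀ (g : Gm →₀ ℝ) (T : Finset Gm),
    ∑ x ∈ T, (nu.sum (fun y a => a * g (y⁻¹ * x))) ^ 2 ≤ r ^ 2 * g.sum (fun _ a => a ^ 2) := by
  simp only [bds, Set.mem_inter_iff, Set.mem_ofPred_eq, Set.mem_iInter]

theorem isClosed_bds : IsClosed bds := by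
  refine (isClosed_le continuous_const continuous_id).inter ?_
  refine isClosed_iInter fun g => isClosed_iInter fun T => ?_
  exact isClosed_le continuous_const ((continuous_pow 2).mul continuous_const)

theorem bds_nonempty : bds.Nonempty := by
  set K : ℝ := (2 ^ 22 : ℝ) * (nu.sum (fun x a => a ^ 2 * (1 + (len x : ℝ)) ^ (2 * 12))) with hK
  have hK0 : 0 ≤ K := by
    have : 0 ≤ nu.sum (fun x a => a ^ 2 * (1 + (len x : ℝ)) ^ (2 * 12)) :=
      Finset.sum_nonneg fun x _ => by positivity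
    positivity
  refine ⟨Real.sqrt K, (mem_bds _).2 ⟨Real.sqrt_nonneg _, fun g T => ?_⟩⟩
  rw [Real.sq_sqrt hK0, hK]
  exact rapid_decay nu g T

theorem bds_bddBelow : BddBelow bds := ⟨0, fun _ hr => ((mem_bds _).1 hr).1⟩

/-- The norm of the convolution operator. -/
noncomputable def rho : ℝ := sInf bds

theorem rho_mem : rho ∈ bds := isClosed_bds.csInf_mem bds_nonempty bds_bddBelow

theorem rho_nonneg : 0 ≤ rho := ((mem_bds _).1 rho_mem).1

theorem rho_bound (g : Gm →₀ ℝ) (T : Finset Gm) :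
    ∑ x ∈ T, (nu.sum (fun y a => a * g (y⁻¹ * x))) ^ 2 ≤ rho ^ 2 * g.sum (fun _ a => a ^ 2) :=
  ((mem_bds _).1 rho_mem).2 g T

theorem rho_least (r : ℝ) (h0 : 0 ≤ r) (h1 : r < rho) : ∃ g : Gm →₀ ℝ, ∃ T : Finset Gm,
    r ^ 2 * g.sum (fun _ a => a ^ 2) < ∑ x ∈ T, (nu.sum (fun y a => a * g (y⁻¹ * x))) ^ 2 := by
  by_contra hcon
  push Not at hcon
  have hr : r ∈ bds := (mem_bds _).2 ⟨h0, hcon⟩
  exact absurd (csInf_le bds_bddBelow hr) (not_le.2 h1)

theorem no_asymp {ρ c d : ℝ} (hρ : 0 ≤ ρ) (hc : 0 < c)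
    (h : Asymptotics.IsEquivalent atTop bb (fun n : ℕ => c * (n : ℝ) ^ (-d) * ρ ^ (2 * n))) :
    False := by
  obtain ⟨c1, C1, c2, C2, h1, h2, h3, h4, k0, hk0, hd⟩ := full_data
  have D : SData bb rr H1 (fun k => zz (1 - (1 / 2) ^ k)) (fun k => Hh (1 - (1 / 2) ^ k))
      c1 C1 c2 C2 k0 :=
    { b_nonneg := bb_nonneg
      r_pos := rr_pos
      c1_pos := h1
      C1_pos := h2
      c2_pos := h3
      C2_pos := h4
      k0_pos := hk0
      z_pos := fun k hk => (hd k hk).1
      lowH := fun k hk => (hd k hk).2.1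
      uppH := fun k hk => (hd k hk).2.2.1
      lowz := fun k hk => (hd k hk).2.2.2.1
      uppz := fun k hk => (hd k hk).2.2.2.2.1
      hasSum := fun k hk => (hd k hk).2.2.2.2.2 }
  exact D.not_isEquivalent hρ hc h

end V11328RD

namespace V11328RD

theorem rd_prop : ∃ S : Finset Gm, Subgroup.closure (S : Set Gm) = ⊤ ∧
    ∃ (C : ℝ) (s : ℕ), ∀ f g : Gm →₀ ℝ, ∀ T : Finset Gm,
      ∑ x ∈ T, (f.sum (fun y a => a * g (y⁻¹ * x))) ^ 2 ≤
        C * (f.sum (fun x a => a ^ 2 *
              (1 + ((sInf {n : ℕ | ∃ l : List Gm, l.length = n ∧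
                  (∀ y ∈ l, y ∈ S ∨ y⁻¹ ∈ S) ∧ l.prod = x} : ℕ) : ℝ)) ^ (2 * s)))
          * g.sum (fun _ a => a ^ 2) := by
  refine ⟨Sg, closure_Sg, (2 ^ 22 : ℝ), 12, fun f g T => ?_⟩
  have h := rapid_decay f g T
  unfold len at h
  exact h

end V11328RD

namespace V11328RD

/-- Symmetry, stated over a general group. -/
def Sym (G : Type) [Group G] (ν : G →₀ ℝ) : Prop := ∀ x, ν x⁻¹ = ν x

/-- The inverse of the group structure. -/
def ginv (G : Type) [Group G] (x : G) : G := x⁻¹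

theorem ginv_eq (x : Gm) : ginv Gm x = x⁻¹ := rfl

theorem sym_iff (G : Type) [Group G] (ν : G →₀ ℝ) : Sym G ν ↔ ∀ x, ν (ginv G x) = ν x := Iff.rfl

theorem sym_nu : Sym Gm nu := by
  rw [sym_iff]
  intro x
  rw [ginv_eq, nu_symm]

end V11328RD
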