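import Pool.Agent.V11328.RD.Param

/-!
# The critical expansion
-/

set_option autoImplicit false
set_option linter.unusedSectionVars false

namespace V11328RD

/-- Constant for the increments of `S`. -/
noncomputable def Kc : ℝ := 2 * kp ^ 2 * G1 * (D1 + G1)

theorem Kc_pos : 0 < Kc := by
  unfold Kc
  have := kp_pos
  have := G1_pos
  have := D1_pos
  positivity

structure CoreData (ε : ℝ) where
  dG : ℝ
  dS : ℝ
  dG_eq : dG = G1 - Gs (1 - ε)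
  dS_eq : dS = S1 - si (1 - ε)
  dG_nonneg : 0 ≤ dG
  dG_le : dG ≤ D1 * ε
  dS_nonneg : 0 ≤ dS
  dS_le : dS ≤ Kc * ε
  diff : H1 - Hh (1 - ε) = dG + dS
  lower : ps * Rr ε - (D1 * G1 + G1 * Kc ^ 2 / 2) * ε ^ 2 ≤ G1 * Hh (1 - ε) - Tt (1 - ε) * H1
  upper : G1 * Hh (1 - ε) - Tt (1 - ε) * H1 ≤ Rr ε + G1 * kp ^ 2 * (D1 + G1) ^ 2 * ε ^ 2

theorem Rr_nonneg {ε : ℝ} (h0 : 0 ≤ ε) (h1 : ε ≤ 1) : 0 ≤ Rr ε := by
  rw [← (hasSum_Rr h0 h1).tsum_eq]
  exact tsum_nonneg fun n => mul_nonneg (w_nonneg n) (fr_nonneg _ h1)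

noncomputable def coreData {ε : ℝ} (h0 : 0 ≤ ε) (h1 : ε ≤ 1) : CoreData ε := by
  have hx0 : 0 ≤ 1 - ε := by linarith
  have hx1 : 1 - ε ≤ 1 := by linarith
  have hG := G1_pos
  have hD := D1_pos
  have hk := kp_pos
  have hps := ps_pos
  have hps1 := ps_lt
  have hS := S1_gt
  have hR := Rr_nonneg h0 h1
  set dG := G1 - Gs (1 - ε) with hdG
  set s := si (1 - ε) with hs
  set dS := S1 - s with hdS
  have e4 : dG = D1 * ε - Rr ε := by unfold Rr; ring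
  have hdG0 : 0 ≤ dG := by have := Gs_le hx0 hx1; linarith
  have hdGle : dG ≤ D1 * ε := by linarith
  set T := Tt (1 - ε) with hT
  set dT := G1 - T with hdT
  have e5 : dT = dG + ε * (G1 - dG) := by
    rw [hdT, hT, hdG]; unfold Tt; ring
  have hGs1 := one_le_Gs hx0 hx1
  have hGsG : G1 - dG = Gs (1 - ε) := by rw [hdG]; ring
  have hdT0 : 0 ≤ dT := by
    rw [e5, hGsG]
    have : 0 ≤ ε * Gs (1 - ε) := mul_nonneg h0 (by linarith)
    linarith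
  have hdTle : dT ≤ (D1 + G1) * ε := by
    rw [e5]
    nlinarith [mul_nonneg h0 hdG0]
  have hT0 : 0 ≤ T := by rw [hT]; unfold Tt; exact mul_nonneg hx0 (by linarith)
  have hs1 : 1 ≤ s := one_le_si _
  have hssq : s ^ 2 = 1 + kp ^ 2 * T ^ 2 := by
    rw [hs, si_sq]; unfold ta; rw [← hT]; ring
  have hkG := kp_sq
  have e6' : S1 ^ 2 - s ^ 2 = kp ^ 2 * (dT * (G1 + T)) := by
    rw [hssq]
    have : S1 ^ 2 = 1 + kp ^ 2 * G1 ^ 2 := by linarith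
    rw [this, hdT]; ring
  have hTle : T ≤ G1 := by linarith
  have hdS0 : 0 ≤ dS := by
    have h2 : 0 ≤ S1 ^ 2 - s ^ 2 := by rw [e6']; positivity
    have : s ≤ S1 := by
      by_contra hc
      push Not at hc
      nlinarith
    linarith
  have hdSle : dS ≤ Kc * ε := by
    have h2 : dS * (S1 + s) = kp ^ 2 * (dT * (G1 + T)) := by rw [← e6', hdS]; ring
    have h3 : dS ≤ dS * (S1 + s) := by nlinarith
    have h4 : kp ^ 2 * (dT * (G1 + T)) ≤ kp ^ 2 * ((D1 + G1) * ε * (2 * G1)) := by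
      refine mul_le_mul_of_nonneg_left ?_ (sq_nonneg _)
      exact mul_le_mul hdTle (by linarith) (by linarith) (by positivity)
    calc dS ≤ kp ^ 2 * ((D1 + G1) * ε * (2 * G1)) := by linarith
      _ = Kc * ε := by unfold Kc; ring
  have hHh : Hh (1 - ε) = G1 - dG + (S1 - dS) - 1 := by
    unfold Hh
    rw [hGsG, hdS]; ring
  have e6 : 2 * S1 * dS - dS ^ 2 = kp ^ 2 * (2 * G1 * dT - dT ^ 2) := by
    have h2 : 2 * S1 * dS - dS ^ 2 = S1 ^ 2 - s ^ 2 := by rw [hdS]; ring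
    rw [h2, e6', hdT]; ring
  -- the key identity
  have key : 2 * S1 * (G1 * Hh (1 - ε) - T * H1) =
      2 * S1 * (ps * Rr ε - ε * dG * (G1 - ps)) - G1 * (dS ^ 2 - kp ^ 2 * dT ^ 2) := by
    have hN : G1 * Hh (1 - ε) - T * H1 = dT * (G1 + S1 - 1) - G1 * (dG + dS) := by
      rw [hHh, hdT]; unfold H1; ring
    rw [hN]
    have a1 : 2 * S1 * (dT * (G1 + S1 - 1) - G1 * (dG + dS)) =
        2 * S1 * dT * (G1 + S1 - 1) - 2 * S1 * G1 * dG - G1 * (2 * S1 * dS - dS ^ 2)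
          - G1 * dS ^ 2 := by ring
    rw [a1, e6]
    have hSm := S1_mul
    have hpm := ps_mul
    have a2 : 2 * S1 * dT * (G1 + S1 - 1) - 2 * S1 * G1 * dG
          - G1 * (kp ^ 2 * (2 * G1 * dT - dT ^ 2)) - G1 * dS ^ 2 =
        2 * (S1 * dT * (G1 + S1 - 1) - (kp ^ 2 * G1 ^ 2) * dT - S1 * G1 * dG)
          - G1 * (dS ^ 2 - kp ^ 2 * dT ^ 2) := by ring
    rw [a2, hkG]
    have a3 : S1 * dT * (G1 + S1 - 1) - (S1 ^ 2 - 1) * dT - S1 * G1 * dG =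
        S1 * (ps * Rr ε - ε * dG * (G1 - ps)) := by
      have a4 : S1 * dT * (G1 + S1 - 1) - (S1 ^ 2 - 1) * dT - S1 * G1 * dG =
          dT * (S1 * G1 - S1 + 1) - S1 * G1 * dG := by ring
      have a5 : S1 * G1 - S1 + 1 = S1 * (G1 - ps) := by
        calc S1 * G1 - S1 + 1 = S1 * G1 - S1 + S1 * (1 - ps) := by rw [hSm]
          _ = _ := by ring
      rw [a4, a5, e5]
      have a6 : Rr ε = D1 * ε - dG := by linarith
      rw [a6]
      have a7 : (dG + ε * (G1 - dG)) * (S1 * (G1 - ps)) - S1 * G1 * dG -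
          S1 * (ps * (D1 * ε - dG) - ε * dG * (G1 - ps)) =
          S1 * ε * (G1 ^ 2 - ps * (G1 + D1)) := by ring
      have a8 : S1 * ε * (G1 ^ 2 - ps * (G1 + D1)) = 0 := by rw [hpm]; ring
      linarith
    rw [a3]; ring
  have hG1ps : 0 ≤ G1 - ps := by have := G1_gt; linarith
  have hεdG : 0 ≤ ε * dG * (G1 - ps) := mul_nonneg (mul_nonneg h0 hdG0) hG1ps
  refine ⟨dG, dS, rfl, rfl, hdG0, hdGle, hdS0, hdSle, ?_, ?_, ?_⟩
  · rw [hHh]; unfold H1; ring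
  · -- lower bound
    have b1 : ε * dG * (G1 - ps) ≤ D1 * G1 * ε ^ 2 := by
      calc ε * dG * (G1 - ps) ≤ ε * (D1 * ε) * G1 :=
            mul_le_mul (mul_le_mul_of_nonneg_left hdGle h0) (by linarith) hG1ps (by positivity)
        _ = _ := by ring
    have b2 : dS ^ 2 ≤ Kc ^ 2 * ε ^ 2 := by
      rw [← mul_pow]; exact pow_le_pow_left₀ hdS0 hdSle 2
    have b3 : 0 ≤ kp ^ 2 * dT ^ 2 := by positivity
    have b4 : 2 * S1 * (ps * Rr ε - (D1 * G1 + G1 * Kc ^ 2 / 2) * ε ^ 2) ≤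
        2 * S1 * (G1 * Hh (1 - ε) - T * H1) := by
      rw [key]
      have b5 : G1 * (dS ^ 2 - kp ^ 2 * dT ^ 2) ≤ G1 * (Kc ^ 2 * ε ^ 2) :=
        mul_le_mul_of_nonneg_left (by linarith) hG.le
      have b6 : 2 * S1 * (ε * dG * (G1 - ps)) ≤ 2 * S1 * (D1 * G1 * ε ^ 2) :=
        mul_le_mul_of_nonneg_left b1 (by linarith)
      have b7 : G1 * (Kc ^ 2 * ε ^ 2) ≤ S1 * (G1 * (Kc ^ 2 * ε ^ 2)) := by
        have : 0 ≤ G1 * (Kc ^ 2 * ε ^ 2) := by positivity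
        nlinarith
      nlinarith
    exact le_of_mul_le_mul_left b4 (by linarith)
  · have b1 : dT ^ 2 ≤ (D1 + G1) ^ 2 * ε ^ 2 := by
      rw [← mul_pow]; exact pow_le_pow_left₀ hdT0 hdTle 2
    have b4 : 2 * S1 * (G1 * Hh (1 - ε) - T * H1) ≤
        2 * S1 * (Rr ε + G1 * kp ^ 2 * (D1 + G1) ^ 2 * ε ^ 2) := by
      rw [key]
      have c1 : ps * Rr ε ≤ Rr ε := by nlinarith
      have c2 : G1 * (kp ^ 2 * dT ^ 2) ≤ G1 * (kp ^ 2 * ((D1 + G1) ^ 2 * ε ^ 2)) :=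
        mul_le_mul_of_nonneg_left (mul_le_mul_of_nonneg_left b1 (sq_nonneg _)) hG.le
      have c3 : G1 * (kp ^ 2 * ((D1 + G1) ^ 2 * ε ^ 2)) ≤
          2 * S1 * (G1 * (kp ^ 2 * ((D1 + G1) ^ 2 * ε ^ 2))) := by
        have : 0 ≤ G1 * (kp ^ 2 * ((D1 + G1) ^ 2 * ε ^ 2)) := by positivity
        nlinarith
      have c4 : 0 ≤ G1 * dS ^ 2 := by positivity
      have c5 : 2 * S1 * (ps * Rr ε) ≤ 2 * S1 * Rr ε := mul_le_mul_of_nonneg_left c1 (by linarith)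
      have c6 : 0 ≤ 2 * S1 * (ε * dG * (G1 - ps)) := mul_nonneg (by linarith) hεdG
      nlinarith
    exact le_of_mul_le_mul_left b4 (by linarith)

end V11328RD
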