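import Pool.Agent.V11328.RD.Words

/-!
# Rapid decay from a system of prefix sets
-/

set_option autoImplicit false
set_option linter.unusedSectionVars false

namespace V11328RD

variable {G : Type} [Group G] [DecidableEq G]

/-- Inner count: for a fixed point `c`, the pairs `(x, y')` inject into pairs `(z, w)`. -/
theorem inner_count (Pf : G → Finset G) (P : ℕ) (hP : ∀ x, (Pf x).card ≤ P) (g : G →₀ ℝ)
    (T Y : Finset G) (c : G) :
    ∑ x ∈ T, ∑ y ∈ Y.filter (fun y => y⁻¹ * c ∈ Pf (y⁻¹ * x)), (g (y⁻¹ * x)) ^ 2 ≤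
      P * g.sum (fun _ a => a ^ 2) := by
  classical
  have h1 : ∑ x ∈ T, ∑ y ∈ Y.filter (fun y => y⁻¹ * c ∈ Pf (y⁻¹ * x)), (g (y⁻¹ * x)) ^ 2 =
      ∑ q ∈ (T.sigma fun x => Y.filter (fun y => y⁻¹ * c ∈ Pf (y⁻¹ * x))),
        (g (q.2⁻¹ * q.1)) ^ 2 := by
    rw [Finset.sum_sigma]
  rw [h1]
  have h2 : ∑ q ∈ (T.sigma fun x => Y.filter (fun y => y⁻¹ * c ∈ Pf (y⁻¹ * x))),
        (g (q.2⁻¹ * q.1)) ^ 2 =
      ∑ q ∈ (T.sigma fun x => Y.filter (fun y => y⁻¹ * c ∈ Pf (y⁻¹ * x))).filter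
          (fun q => q.2⁻¹ * q.1 ∈ g.support), (g (q.2⁻¹ * q.1)) ^ 2 := by
    symm
    refine Finset.sum_subset (Finset.filter_subset _ _) ?_
    intro q hq hq2
    rw [Finset.mem_filter, not_and] at hq2
    have := hq2 hq
    rw [Finsupp.notMem_support_iff] at this
    rw [this]; norm_num
  rw [h2]
  set Q := (T.sigma fun x => Y.filter (fun y => y⁻¹ * c ∈ Pf (y⁻¹ * x))).filter
          (fun q => q.2⁻¹ * q.1 ∈ g.support) with hQ
  let φ : (Σ _ : G, G) → (Σ _ : G, G) := fun q => ⟨q.2⁻¹ * q.1, q.2⁻¹ * c⟩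
  have hinj : Set.InjOn φ Q := by
    rintro ⟨x, y⟩ _ ⟨x', y'⟩ _ h
    simp only [φ, Sigma.mk.injEq, heq_eq_eq] at h
    obtain ⟨ha, hb⟩ := h
    have hyy : y = y' := by
      have := mul_right_cancel hb
      exact inv_injective this
    subst hyy
    have hxx : x = x' := mul_left_cancel ha
    subst hxx
    rfl
  have h3 : ∑ q ∈ Q, (g (q.2⁻¹ * q.1)) ^ 2 = ∑ q ∈ Q.image φ, (g q.1) ^ 2 := by
    rw [Finset.sum_image hinj]
  rw [h3]
  have h4 : Q.image φ ⊆ g.support.sigma fun z => Pf z := by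
    intro r hr
    rw [Finset.mem_image] at hr
    obtain ⟨q, hq, rfl⟩ := hr
    rw [hQ, Finset.mem_filter, Finset.mem_sigma, Finset.mem_filter] at hq
    rw [Finset.mem_sigma]
    exact ⟨hq.2, hq.1.2.2⟩
  refine (Finset.sum_le_sum_of_subset_of_nonneg h4 fun _ _ _ => sq_nonneg _).trans ?_
  rw [Finset.sum_sigma]
  simp only [Finset.sum_const, nsmul_eq_mul]
  rw [Finsupp.sum, Finset.mul_sum]
  refine Finset.sum_le_sum fun z _ => ?_
  exact mul_le_mul_of_nonneg_right (by exact_mod_cast hP z) (sq_nonneg _)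

/-- **Rapid decay on a finite set, from prefix sets.** -/
theorem conv_le (Pf : G → Finset G) (P : ℕ) (hP : ∀ x, (Pf x).card ≤ P) (Y : Finset G)
    (htri : ∀ y ∈ Y, ∀ x, ∃ c, c ∈ Pf x ∧ c ∈ Pf y ∧ y⁻¹ * c ∈ Pf (y⁻¹ * x))
    (f : G → ℝ) (g : G →₀ ℝ) (T : Finset G) :
    ∑ x ∈ T, (∑ y ∈ Y, f y * g (y⁻¹ * x)) ^ 2 ≤
      (P : ℝ) ^ 3 * (∑ y ∈ Y, f y ^ 2) * g.sum (fun _ a => a ^ 2) := by
  classical
  set g2 := g.sum (fun _ a => a ^ 2) with hg2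
  have hg2n : 0 ≤ g2 := Finset.sum_nonneg fun _ _ => sq_nonneg _
  let Yx : G → G → Finset G := fun x c => Y.filter (fun y => c ∈ Pf y ∧ y⁻¹ * c ∈ Pf (y⁻¹ * x))
  -- step 1
  have h1 : ∀ x, (∑ y ∈ Y, f y * g (y⁻¹ * x)) ^ 2 ≤
      P * ∑ c ∈ Pf x, ((∑ y ∈ Yx x c, f y ^ 2) *
        (∑ y ∈ Yx x c, (g (y⁻¹ * x)) ^ 2)) := by
    intro x
    have ha : |∑ y ∈ Y, f y * g (y⁻¹ * x)| ≤
        ∑ c ∈ Pf x, ∑ y ∈ Yx x c, |f y| * |g (y⁻¹ * x)| := by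
      refine (Finset.abs_sum_le_sum_abs _ _).trans ?_
      simp_rw [abs_mul]
      have hsub : ∑ y ∈ Y, |f y| * |g (y⁻¹ * x)| ≤
          ∑ y ∈ Y, ∑ c ∈ (Pf x).filter (fun c => c ∈ Pf y ∧ y⁻¹ * c ∈ Pf (y⁻¹ * x)),
            |f y| * |g (y⁻¹ * x)| := by
        refine Finset.sum_le_sum fun y hy => ?_
        obtain ⟨c, hc1, hc2, hc3⟩ := htri y hy x
        have hmem : c ∈ (Pf x).filter (fun c => c ∈ Pf y ∧ y⁻¹ * c ∈ Pf (y⁻¹ * x)) := by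
          rw [Finset.mem_filter]; exact ⟨hc1, hc2, hc3⟩
        exact Finset.single_le_sum (f := fun _ => |f y| * |g (y⁻¹ * x)|)
          (fun _ _ => by positivity) hmem
      refine hsub.trans (le_of_eq ?_)
      rw [Finset.sum_comm' (t' := Pf x) (s' := fun c => Yx x c)]
      intro y c
      simp only [Finset.mem_filter, Yx]
      tauto
    have hb : (∑ y ∈ Y, f y * g (y⁻¹ * x)) ^ 2 ≤
        (∑ c ∈ Pf x, ∑ y ∈ Yx x c, |f y| * |g (y⁻¹ * x)|) ^ 2 := by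
      rw [← sq_abs (∑ y ∈ Y, f y * g (y⁻¹ * x))]
      exact pow_le_pow_left₀ (abs_nonneg _) ha 2
    refine hb.trans ?_
    refine (sq_sum_le_card_mul_sum_sq (s := Pf x)
      (f := fun c => ∑ y ∈ Yx x c, |f y| * |g (y⁻¹ * x)|)).trans ?_
    have hc : ∀ c ∈ Pf x, (∑ y ∈ Yx x c, |f y| * |g (y⁻¹ * x)|) ^ 2 ≤
        (∑ y ∈ Yx x c, f y ^ 2) * (∑ y ∈ Yx x c, (g (y⁻¹ * x)) ^ 2) := by
      intro c _
      have := Finset.sum_mul_sq_le_sq_mul_sq (Yx x c) (fun y => |f y|) (fun y => |g (y⁻¹ * x)|)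
      simpa [sq_abs] using this
    have hnn : 0 ≤ ∑ c ∈ Pf x, ((∑ y ∈ Yx x c, f y ^ 2) *
        (∑ y ∈ Yx x c, (g (y⁻¹ * x)) ^ 2)) :=
      Finset.sum_nonneg fun c _ => mul_nonneg (Finset.sum_nonneg fun _ _ => sq_nonneg _)
        (Finset.sum_nonneg fun _ _ => sq_nonneg _)
    calc ((Pf x).card : ℝ) * ∑ c ∈ Pf x, (∑ y ∈ Yx x c, |f y| * |g (y⁻¹ * x)|) ^ 2
        ≤ ((Pf x).card : ℝ) * ∑ c ∈ Pf x, ((∑ y ∈ Yx x c, f y ^ 2) *
            (∑ y ∈ Yx x c, (g (y⁻¹ * x)) ^ 2)) :=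
          mul_le_mul_of_nonneg_left (Finset.sum_le_sum hc) (Nat.cast_nonneg _)
      _ ≤ P * _ := mul_le_mul_of_nonneg_right (by exact_mod_cast hP x) hnn
  -- step 2 : sum over x and reorganise
  have h2 : ∑ x ∈ T, ∑ c ∈ Pf x, ((∑ y ∈ Yx x c, f y ^ 2) *
        (∑ y ∈ Yx x c, (g (y⁻¹ * x)) ^ 2)) ≤
      ∑ y ∈ Y, ∑ c ∈ Pf y, f y ^ 2 * (P * g2) := by
    have ha : ∀ x ∈ T, ∑ c ∈ Pf x, ((∑ y ∈ Yx x c, f y ^ 2) *
        (∑ y ∈ Yx x c, (g (y⁻¹ * x)) ^ 2)) ≤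
        ∑ y ∈ Y, ∑ c ∈ Pf y, f y ^ 2 *
          (∑ y' ∈ Y.filter (fun y => y⁻¹ * c ∈ Pf (y⁻¹ * x)), (g (y'⁻¹ * x)) ^ 2) := by
      intro x _
      calc ∑ c ∈ Pf x, ((∑ y ∈ Yx x c, f y ^ 2) * (∑ y ∈ Yx x c, (g (y⁻¹ * x)) ^ 2))
          ≤ ∑ c ∈ Pf x, ∑ y ∈ Y.filter (fun y => c ∈ Pf y), f y ^ 2 *
            (∑ y' ∈ Y.filter (fun y => y⁻¹ * c ∈ Pf (y⁻¹ * x)), (g (y'⁻¹ * x)) ^ 2) := by
            refine Finset.sum_le_sum fun c _ => ?_
            rw [← Finset.sum_mul]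
            refine mul_le_mul ?_ ?_ (Finset.sum_nonneg fun _ _ => sq_nonneg _)
              (Finset.sum_nonneg fun _ _ => sq_nonneg _)
            · refine Finset.sum_le_sum_of_subset_of_nonneg ?_ fun _ _ _ => sq_nonneg _
              intro y hy
              simp only [Yx, Finset.mem_filter] at hy ⊢
              exact ⟨hy.1, hy.2.1⟩
            · refine Finset.sum_le_sum_of_subset_of_nonneg ?_ fun _ _ _ => sq_nonneg _
              intro y hy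
              simp only [Yx, Finset.mem_filter] at hy ⊢
              exact ⟨hy.1, hy.2.2⟩
        _ = ∑ y ∈ Y, ∑ c ∈ (Pf x).filter (fun c => c ∈ Pf y), f y ^ 2 *
            (∑ y' ∈ Y.filter (fun y => y⁻¹ * c ∈ Pf (y⁻¹ * x)), (g (y'⁻¹ * x)) ^ 2) := by
            rw [Finset.sum_comm' (t' := Y) (s' := fun y => (Pf x).filter (fun c => c ∈ Pf y))]
            intro c y
            simp only [Finset.mem_filter]
            tauto
        _ ≤ _ := by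
            refine Finset.sum_le_sum fun y _ => ?_
            refine Finset.sum_le_sum_of_subset_of_nonneg ?_ fun _ _ _ =>
              mul_nonneg (sq_nonneg _) (Finset.sum_nonneg fun _ _ => sq_nonneg _)
            intro c hc
            rw [Finset.mem_filter] at hc
            exact hc.2
    refine (Finset.sum_le_sum ha).trans ?_
    rw [Finset.sum_comm]
    refine Finset.sum_le_sum fun y _ => ?_
    rw [Finset.sum_comm]
    refine Finset.sum_le_sum fun c _ => ?_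
    rw [← Finset.mul_sum]
    exact mul_le_mul_of_nonneg_left (inner_count Pf P hP g T Y c) (sq_nonneg _)
  calc ∑ x ∈ T, (∑ y ∈ Y, f y * g (y⁻¹ * x)) ^ 2
      ≤ ∑ x ∈ T, P * ∑ c ∈ Pf x, ((∑ y ∈ Yx x c, f y ^ 2) *
        (∑ y ∈ Yx x c, (g (y⁻¹ * x)) ^ 2)) := Finset.sum_le_sum fun x _ => h1 x
    _ = P * ∑ x ∈ T, ∑ c ∈ Pf x, ((∑ y ∈ Yx x c, f y ^ 2) *
        (∑ y ∈ Yx x c, (g (y⁻¹ * x)) ^ 2)) := by rw [Finset.mul_sum]
    _ ≤ P * ∑ y ∈ Y, ∑ c ∈ Pf y, f y ^ 2 * (P * g2) :=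
        mul_le_mul_of_nonneg_left h2 (Nat.cast_nonneg _)
    _ ≤ P * ∑ y ∈ Y, P * (f y ^ 2 * (P * g2)) := by
        refine mul_le_mul_of_nonneg_left (Finset.sum_le_sum fun y _ => ?_) (Nat.cast_nonneg _)
        rw [Finset.sum_const, nsmul_eq_mul]
        refine mul_le_mul_of_nonneg_right (by exact_mod_cast hP y) ?_
        positivity
    _ = (P : ℝ) ^ 3 * (∑ y ∈ Y, f y ^ 2) * g2 := by
        rw [Finset.mul_sum, Finset.mul_sum, Finset.sum_mul]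
        refine Finset.sum_congr rfl fun y _ => ?_
        ring

end V11328RD
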