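import Pool.Agent.V11328.RD.Count

/-!
# The free product `ℤ⁶ * ℤ⁶` has rapid decay
-/

set_option autoImplicit false
set_option linter.unusedSectionVars false

open Monoid Monoid.CoprodI

namespace V11328RD

/-- The factor group `ℤ⁶`. -/
abbrev A : Type := Multiplicative (Fin 6 → ℤ)

/-- The free product. -/
abbrev Gm : Type := Monoid.CoprodI (fun _ : Bool => A)

noncomputable instance : DecidableEq A := Classical.decEq _

/-- The inclusion of the `i`-th factor. -/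
def inc (i : Bool) : A →* Gm := of (M := fun _ : Bool => A) (i := i)

/-- The generating set. -/
noncomputable def Sg : Finset Gm :=
  (Finset.univ : Finset (Bool × Fin 6)).image
    fun p => inc p.1 (Multiplicative.ofAdd (Pi.single p.2 1))

/-- Boxes in `ℤ⁶`. -/
noncomputable def Bl (k : ℕ) : Finset A :=
  (Fintype.piFinset fun _ : Fin 6 => Finset.Icc (-(k : ℤ)) k).map
    ⟨Multiplicative.ofAdd, Multiplicative.ofAdd.injective⟩

theorem mem_Bl (k : ℕ) (a : A) : a ∈ Bl k ↔ ∀ j, |Multiplicative.toAdd a j| ≤ k := by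
  unfold Bl
  rw [Finset.mem_map]
  constructor
  · rintro ⟨v, hv, rfl⟩ j
    rw [Fintype.mem_piFinset] at hv
    have := hv j
    rw [Finset.mem_Icc] at this
    exact abs_le.2 this
  · intro h
    refine ⟨Multiplicative.toAdd a, ?_, rfl⟩
    rw [Fintype.mem_piFinset]
    intro j
    rw [Finset.mem_Icc]
    exact abs_le.1 (h j)

theorem card_Bl (k : ℕ) : (Bl k).card = (2 * k + 1) ^ 6 := by
  unfold Bl
  rw [Finset.card_map, Fintype.card_piFinset]
  simp only [Int.card_Icc, Finset.prod_const, Finset.card_univ, Fintype.card_fin]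
  congr 1
  omega

/-- The syllables of size at most `k`. -/
noncomputable def BG (k : ℕ) : Finset Gm :=
  (Finset.univ : Finset Bool).biUnion fun i => (Bl k).image fun a => inc i a

theorem card_BG (k : ℕ) : (BG k).card ≤ 2 * (2 * k + 1) ^ 6 := by
  unfold BG
  refine Finset.card_biUnion_le.trans ?_
  refine (Finset.sum_le_card_nsmul _ _ ((2 * k + 1) ^ 6) (fun i _ => ?_)).trans ?_
  · refine Finset.card_image_le.trans (card_Bl k).le
  · simp

theorem one_mem_BG (k : ℕ) : (1 : Gm) ∈ BG k := by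
  unfold BG
  rw [Finset.mem_biUnion]
  refine ⟨true, Finset.mem_univ _, ?_⟩
  rw [Finset.mem_image]
  refine ⟨1, ?_, map_one _⟩
  rw [mem_Bl]
  intro j
  simp

theorem mem_BG_of {k : ℕ} {i : Bool} {a : A} (h : a ∈ Bl k) : inc i a ∈ BG k := by
  unfold BG
  rw [Finset.mem_biUnion]
  exact ⟨i, Finset.mem_univ _, Finset.mem_image_of_mem _ h⟩

/-- The syllable bound. -/
def SB (k : ℕ) (l : List (Σ _ : Bool, A)) : Prop := l.length ≤ k ∧ ∀ s ∈ l, s.2 ∈ Bl k

theorem Bl_mono {k l : ℕ} (h : k ≤ l) : Bl k ⊆ Bl l := by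
  intro a ha
  rw [mem_Bl] at ha ⊢
  intro j
  exact (ha j).trans (by exact_mod_cast h)

theorem rcons_toList {i : Bool} (p : Word.Pair (fun _ : Bool => A) i) :
    (Word.rcons p).toList = p.tail.toList ∧ p.head = 1 ∨
      (Word.rcons p).toList = ⟨i, p.head⟩ :: p.tail.toList ∧ p.head ≠ 1 := by
  unfold Word.rcons
  by_cases h : p.head = 1
  · left; rw [dif_pos h]; exact ⟨rfl, h⟩
  · right; rw [dif_neg h]; exact ⟨rfl, h⟩

theorem sb_step {k : ℕ} (W : Word (fun _ : Bool => A)) (i : Bool) (m : A) (hm : m ∈ Bl 1)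
    (h : SB k W.toList) : SB (k + 1) (inc i m • W).toList := by
  have hW : W = Word.rcons (Word.equivPair i W) := ((Word.equivPair i).symm_apply_apply W).symm
  set p := Word.equivPair i W with hp
  let p' : Word.Pair (fun _ : Bool => A) i := ⟨m * p.head, p.tail, p.fstIdx_ne⟩
  have hsm : inc i m • W = Word.rcons p' := Word.of_smul_def i W m
  rw [hsm]
  have hprod : ∀ a ∈ Bl k, m * a ∈ Bl (k + 1) := by
    intro a ha
    rw [mem_Bl] at ha hm ⊢
    intro j
    have h1 := ha j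
    have h2 := hm j
    have h3 : Multiplicative.toAdd (m * a) j = Multiplicative.toAdd m j + Multiplicative.toAdd a j :=
      rfl
    rw [h3]
    refine (abs_add_le _ _).trans ?_
    push_cast at h2 ⊢
    linarith
  have h1k : (1 : A) ∈ Bl k := by rw [mem_Bl]; intro j; simp
  rcases rcons_toList p with ⟨h1, h1'⟩ | ⟨h1, h1'⟩
  · rw [hW, h1] at h
    rcases rcons_toList p' with ⟨h2, _⟩ | ⟨h2, _⟩
    · rw [h2]
      exact ⟨h.1.trans (Nat.le_succ k), fun s hs => Bl_mono (Nat.le_succ k) (h.2 s hs)⟩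
    · rw [h2]
      refine ⟨by simpa using h.1, ?_⟩
      intro s hs
      rw [List.mem_cons] at hs
      rcases hs with rfl | hs
      · have := hprod 1 h1k
        rw [← h1'] at this
        exact this
      · exact Bl_mono (Nat.le_succ k) (h.2 s hs)
  · rw [hW, h1] at h
    have hlen : p.tail.toList.length + 1 ≤ k := by simpa using h.1
    have hhead : p.head ∈ Bl k := h.2 ⟨i, p.head⟩ (by simp)
    rcases rcons_toList p' with ⟨h2, _⟩ | ⟨h2, _⟩
    · rw [h2]
      exact ⟨(by omega : p.tail.toList.length ≤ k + 1),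
        fun s hs => Bl_mono (Nat.le_succ k) (h.2 s (List.mem_cons_of_mem _ hs))⟩
    · rw [h2]
      refine ⟨(by omega : p.tail.toList.length + 1 ≤ k + 1), ?_⟩
      intro s hs
      rw [List.mem_cons] at hs
      rcases hs with rfl | hs
      · exact hprod _ hhead
      · exact Bl_mono (Nat.le_succ k) (h.2 s (List.mem_cons_of_mem _ hs))

theorem sb_list (l : List Gm) (hl : ∀ y ∈ l, y ∈ Sg ∨ y⁻¹ ∈ Sg) : SB l.length (wl l.prod) := by
  induction l with
  | nil =>
    have h : wl (1 : Gm) = [] := by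
      unfold wl
      rw [one_smul]
      rfl
    rw [List.prod_nil, h]
    exact ⟨le_rfl, by simp⟩
  | cons y l ih =>
    have h1 := ih fun z hz => hl z (List.mem_cons_of_mem _ hz)
    have hy : ∃ i m, m ∈ Bl 1 ∧ y = inc i m := by
      rcases hl y (by simp) with h | h
      · unfold Sg at h
        rw [Finset.mem_image] at h
        obtain ⟨⟨i, j⟩, _, h⟩ := h
        refine ⟨i, _, ?_, h.symm⟩
        rw [mem_Bl]
        intro j'
        simp only [toAdd_ofAdd]
        by_cases hj : j' = j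
        · subst hj; simp
        · rw [Pi.single_eq_of_ne hj]; simp
      · unfold Sg at h
        rw [Finset.mem_image] at h
        obtain ⟨⟨i, j⟩, _, h⟩ := h
        refine ⟨i, (Multiplicative.ofAdd (Pi.single j 1))⁻¹, ?_, ?_⟩
        · rw [mem_Bl]
          intro j'
          simp only [toAdd_inv, toAdd_ofAdd, Pi.neg_apply, abs_neg]
          by_cases hj : j' = j
          · subst hj; simp
          · rw [Pi.single_eq_of_ne hj]; simp
        · rw [map_inv]
          simp only at h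
          rw [h, inv_inv]
    obtain ⟨i, m, hm, rfl⟩ := hy
    rw [List.prod_cons, List.length_cons]
    have h2 := sb_step (l.prod • (Word.empty : Word (fun _ : Bool => A))) i m hm h1
    rw [← mul_smul] at h2
    exact h2

theorem closure_Sg : Subgroup.closure (Sg : Set Gm) = ⊤ := by
  rw [Subgroup.eq_top_iff']
  intro x
  induction x using CoprodI.induction_on with
  | one => exact one_mem _
  | of i a =>
    have hall : (Subgroup.closure (Sg : Set Gm)).comap (inc i) = ⊤ := by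
      rw [Subgroup.eq_top_iff']
      intro a
      have ha : a = ∏ j : Fin 6,
          (Multiplicative.ofAdd (Pi.single j (1 : ℤ) : Fin 6 → ℤ)) ^ (Multiplicative.toAdd a j) := by
        apply Multiplicative.toAdd.injective
        rw [toAdd_prod]
        simp only [toAdd_zpow, toAdd_ofAdd]
        funext j
        rw [Finset.sum_apply]
        rw [Finset.sum_eq_single j]
        · simp
        · intro b _ hb
          simp [Pi.single_eq_of_ne (Ne.symm hb)]
        · simp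
      rw [ha]
      refine Subgroup.prod_mem _ fun j _ => Subgroup.zpow_mem _ ?_ _
      rw [Subgroup.mem_comap]
      refine Subgroup.subset_closure ?_
      rw [Finset.mem_coe]
      unfold Sg
      rw [Finset.mem_image]
      exact ⟨(i, j), Finset.mem_univ _, rfl⟩
    have : a ∈ (Subgroup.closure (Sg : Set Gm)).comap (inc i) := by rw [hall]; trivial
    exact this
  | mul x y hx hy => exact mul_mem hx hy

/-- Word length. -/
noncomputable def len (x : Gm) : ℕ :=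
  sInf {n : ℕ | ∃ l : List Gm, l.length = n ∧ (∀ y ∈ l, y ∈ Sg ∨ y⁻¹ ∈ Sg) ∧ l.prod = x}

theorem sb_len (x : Gm) : SB (len x) (wl x) := by
  have hne : {n : ℕ | ∃ l : List Gm, l.length = n ∧ (∀ y ∈ l, y ∈ Sg ∨ y⁻¹ ∈ Sg) ∧
      l.prod = x}.Nonempty := by
    have hx : x ∈ Subgroup.closure (Sg : Set Gm) := by rw [closure_Sg]; trivial
    rw [← Subgroup.mem_toSubmonoid, Subgroup.closure_toSubmonoid] at hx
    obtain ⟨l, hl, hp⟩ := Submonoid.exists_list_of_mem_closure hx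
    have hl : ∀ y ∈ l, y ∈ Sg ∨ y⁻¹ ∈ Sg := fun y hy => by
      rcases hl y hy with h | h
      · exact Or.inl h
      · exact Or.inr (by simpa using h)
    exact ⟨l.length, l, rfl, hl, hp⟩
  obtain ⟨l, h1, h2, h3⟩ := Nat.sInf_mem hne
  have h4 := sb_list l h2
  rw [h1, h3] at h4
  exact h4

theorem sum_inv_sq (N : ℕ) (hN : 1 ≤ N) :
    ∑ k ∈ Finset.range N, (1 / (1 + (k : ℝ))) ^ 2 ≤ (2 : ℝ) - 1 / (N : ℝ) := by
  induction N, hN using Nat.le_induction with
  | base => norm_num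
  | succ n hn ih =>
    rw [Finset.sum_range_succ]
    have hn0 : (0 : ℝ) < n := by exact_mod_cast hn
    push_cast
    have h : (1 / (1 + (n : ℝ))) ^ 2 ≤ 1 / n - 1 / (n + 1) := by
      rw [div_sub_div _ _ hn0.ne' (by positivity), div_pow, div_le_div_iff₀ (by positivity) (by positivity)]
      nlinarith
    linarith

/-- **Rapid decay for `ℤ⁶ * ℤ⁶`.** -/
theorem rapid_decay (f g : Gm →₀ ℝ) (T : Finset Gm) :
    ∑ x ∈ T, (f.sum (fun y a => a * g (y⁻¹ * x))) ^ 2 ≤
      (2 ^ 22 : ℝ) * (f.sum (fun x a => a ^ 2 * (1 + (len x : ℝ)) ^ (2 * 12)))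
        * g.sum (fun _ a => a ^ 2) := by
  classical
  set g2 := g.sum (fun _ a => a ^ 2) with hg2
  have hg2n : 0 ≤ g2 := Finset.sum_nonneg fun _ _ => sq_nonneg _
  set K := f.support.image len with hK
  let Y : ℕ → Finset Gm := fun k => f.support.filter fun y => len y = k
  have hdec : ∀ x, f.sum (fun y a => a * g (y⁻¹ * x)) = ∑ k ∈ K, ∑ y ∈ Y k, f y * g (y⁻¹ * x) := by
    intro x
    rw [Finsupp.sum, Finset.sum_fiberwise_of_maps_to (t := K)]
    intro y hy
    exact Finset.mem_image_of_mem _ hy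
  have hK2 : ∑ k ∈ K, (1 / (1 + (k : ℝ))) ^ 2 ≤ 2 := by
    obtain ⟨N, hN⟩ := K.exists_nat_subset_range
    have h1 : K ⊆ Finset.range (N + 1) := hN.trans (Finset.range_subset_range.2 (Nat.le_succ N))
    refine (Finset.sum_le_sum_of_subset_of_nonneg h1 fun _ _ _ => sq_nonneg _).trans ?_
    refine (sum_inv_sq (N + 1) (by omega)).trans ?_
    have : (0 : ℝ) ≤ 1 / ((N + 1 : ℕ) : ℝ) := by positivity
    linarith
  have hx : ∀ x, (f.sum (fun y a => a * g (y⁻¹ * x))) ^ 2 ≤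
      2 * ∑ k ∈ K, (1 + (k : ℝ)) ^ 2 * (∑ y ∈ Y k, f y * g (y⁻¹ * x)) ^ 2 := by
    intro x
    rw [hdec x]
    have h1 := Finset.sum_mul_sq_le_sq_mul_sq K (fun k : ℕ => 1 / (1 + (k : ℝ)))
      (fun k : ℕ => (1 + (k : ℝ)) * ∑ y ∈ Y k, f y * g (y⁻¹ * x))
    have h2 : ∀ k ∈ K, 1 / (1 + (k : ℝ)) * ((1 + (k : ℝ)) * ∑ y ∈ Y k, f y * g (y⁻¹ * x)) =
        ∑ y ∈ Y k, f y * g (y⁻¹ * x) := by
      intro k _
      have : (1 + (k : ℝ)) ≠ 0 := by positivity
      field_simp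
    rw [Finset.sum_congr rfl h2] at h1
    refine h1.trans ?_
    have h3 : ∑ k ∈ K, ((1 + (k : ℝ)) * ∑ y ∈ Y k, f y * g (y⁻¹ * x)) ^ 2 =
        ∑ k ∈ K, (1 + (k : ℝ)) ^ 2 * (∑ y ∈ Y k, f y * g (y⁻¹ * x)) ^ 2 :=
      Finset.sum_congr rfl fun k _ => by rw [mul_pow]
    rw [h3]
    exact mul_le_mul_of_nonneg_right hK2 (Finset.sum_nonneg fun _ _ => by positivity)
  have hk : ∀ k, ∑ x ∈ T, (∑ y ∈ Y k, f y * g (y⁻¹ * x)) ^ 2 ≤
      (((k + 1) * (2 * (2 * k + 1) ^ 6) : ℕ) : ℝ) ^ 3 * (∑ y ∈ Y k, f y ^ 2) * g2 := by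
    intro k
    refine conv_le (Pf k (BG k)) ((k + 1) * (2 * (2 * k + 1) ^ 6)) ?_ (Y k) ?_ f g T
    · intro x
      exact (card_Pf k (BG k) x).trans (Nat.mul_le_mul_left _ (card_BG k))
    · intro y hy x
      have hy2 : len y = k := (Finset.mem_filter.1 hy).2
      have hsb := sb_len y
      rw [hy2] at hsb
      exact tripod (one_mem_BG k) hsb.1 (fun s hs => mem_BG_of (hsb.2 s hs)) x
  have hpoly : ∀ k : ℕ, (1 + (k : ℝ)) ^ 2 * (((k + 1) * (2 * (2 * k + 1) ^ 6) : ℕ) : ℝ) ^ 3 ≤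
      2 ^ 21 * (1 + (k : ℝ)) ^ (2 * 12) := by
    intro k
    push_cast
    have hk0 : (0 : ℝ) ≤ k := Nat.cast_nonneg k
    have h1 : (2 * (k : ℝ) + 1) ^ 18 ≤ (2 * (1 + (k : ℝ))) ^ 18 :=
      pow_le_pow_left₀ (by positivity) (by linarith) 18
    have h2 : (1 + (k : ℝ)) ^ 23 ≤ (1 + (k : ℝ)) ^ 24 :=
      pow_le_pow_right₀ (by linarith) (by norm_num)
    calc (1 + (k : ℝ)) ^ 2 * (((k : ℝ) + 1) * (2 * (2 * (k : ℝ) + 1) ^ 6)) ^ 3
        = 8 * (1 + (k : ℝ)) ^ 5 * (2 * (k : ℝ) + 1) ^ 18 := by ring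
      _ ≤ 8 * (1 + (k : ℝ)) ^ 5 * (2 * (1 + (k : ℝ))) ^ 18 :=
          mul_le_mul_of_nonneg_left h1 (by positivity)
      _ = 2 ^ 21 * (1 + (k : ℝ)) ^ 23 := by ring
      _ ≤ 2 ^ 21 * (1 + (k : ℝ)) ^ 24 := mul_le_mul_of_nonneg_left h2 (by positivity)
      _ = 2 ^ 21 * (1 + (k : ℝ)) ^ (2 * 12) := by norm_num
  calc ∑ x ∈ T, (f.sum (fun y a => a * g (y⁻¹ * x))) ^ 2
      ≤ ∑ x ∈ T, 2 * ∑ k ∈ K, (1 + (k : ℝ)) ^ 2 * (∑ y ∈ Y k, f y * g (y⁻¹ * x)) ^ 2 :=
        Finset.sum_le_sum fun x _ => hx x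
    _ = 2 * ∑ k ∈ K, (1 + (k : ℝ)) ^ 2 * ∑ x ∈ T, (∑ y ∈ Y k, f y * g (y⁻¹ * x)) ^ 2 := by
        rw [← Finset.mul_sum, Finset.sum_comm]
        congr 1
        exact Finset.sum_congr rfl fun k _ => by rw [Finset.mul_sum]
    _ ≤ 2 * ∑ k ∈ K, (2 ^ 21 * (1 + (k : ℝ)) ^ (2 * 12)) * ((∑ y ∈ Y k, f y ^ 2) * g2) := by
        refine mul_le_mul_of_nonneg_left (Finset.sum_le_sum fun k _ => ?_) (by norm_num)
        have hnn : 0 ≤ (∑ y ∈ Y k, f y ^ 2) * g2 :=
          mul_nonneg (Finset.sum_nonneg fun _ _ => sq_nonneg _) hg2n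
        calc (1 + (k : ℝ)) ^ 2 * ∑ x ∈ T, (∑ y ∈ Y k, f y * g (y⁻¹ * x)) ^ 2
            ≤ (1 + (k : ℝ)) ^ 2 * ((((k + 1) * (2 * (2 * k + 1) ^ 6) : ℕ) : ℝ) ^ 3 *
                (∑ y ∈ Y k, f y ^ 2) * g2) := mul_le_mul_of_nonneg_left (hk k) (by positivity)
          _ = ((1 + (k : ℝ)) ^ 2 * (((k + 1) * (2 * (2 * k + 1) ^ 6) : ℕ) : ℝ) ^ 3) *
                ((∑ y ∈ Y k, f y ^ 2) * g2) := by ring
          _ ≤ _ := mul_le_mul_of_nonneg_right (hpoly k) hnn
    _ = (2 ^ 22 : ℝ) * (∑ k ∈ K, ∑ y ∈ Y k, f y ^ 2 * (1 + (len y : ℝ)) ^ (2 * 12)) * g2 := by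
        rw [Finset.mul_sum, Finset.mul_sum, Finset.sum_mul]
        refine Finset.sum_congr rfl fun k _ => ?_
        have : ∑ y ∈ Y k, f y ^ 2 * (1 + (len y : ℝ)) ^ (2 * 12) =
            (∑ y ∈ Y k, f y ^ 2) * (1 + (k : ℝ)) ^ (2 * 12) := by
          rw [Finset.sum_mul]
          refine Finset.sum_congr rfl fun y hy => ?_
          rw [(Finset.mem_filter.1 hy).2]
        rw [this]
        ring
    _ = (2 ^ 22 : ℝ) * (f.sum (fun x a => a ^ 2 * (1 + (len x : ℝ)) ^ (2 * 12))) * g2 := by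
        congr 2
        rw [Finsupp.sum, Finset.sum_fiberwise_of_maps_to (t := K)]
        intro y hy
        exact Finset.mem_image_of_mem _ hy

end V11328RD
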