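import Mathlib

/-!
# The simple walk on `ℤ`: return probabilities
-/

set_option autoImplicit false
set_option linter.unusedSectionVars false

namespace V11328RD

/-- Transition probabilities of simple random walk on `ℤ`. -/
noncomputable def q : ℕ → ℤ → ℝ
  | 0, m => if m = 0 then 1 else 0
  | n + 1, m => (q n (m - 1) + q n (m + 1)) / 2

theorem q_nonneg (n : ℕ) (m : ℤ) : 0 ≤ q n m := by
  induction n generalizing m with
  | zero => unfold q; split_ifs <;> norm_num
  | succ n ih =>
    unfold q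
    have h1 := ih (m - 1)
    have h2 := ih (m + 1)
    linarith

theorem q_le_one (n : ℕ) (m : ℤ) : q n m ≤ 1 := by
  induction n generalizing m with
  | zero => unfold q; split_ifs <;> norm_num
  | succ n ih =>
    unfold q
    have h1 := ih (m - 1)
    have h2 := ih (m + 1)
    linarith

theorem q_out (n : ℕ) (m : ℤ) (h : (n : ℤ) < |m|) : q n m = 0 := by
  induction n generalizing m with
  | zero =>
    unfold q
    rw [if_neg]
    rintro rfl
    simp at h
  | succ n ih =>
    unfold q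
    push_cast at h
    rw [ih (m - 1), ih (m + 1)]
    · norm_num
    · rcases le_total 0 m with hm | hm
      · rw [abs_of_nonneg hm] at h
        rw [abs_of_nonneg (by omega)]; omega
      · rw [abs_of_nonpos hm] at h
        have := neg_abs_le (m + 1)
        have h2 := neg_le_abs (m + 1)
        omega
    · rcases le_total 0 m with hm | hm
      · rw [abs_of_nonneg hm] at h
        have h2 := le_abs_self (m - 1)
        omega
      · rw [abs_of_nonpos hm] at h
        have h2 := neg_le_abs (m - 1)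
        omega

theorem q_odd (n : ℕ) (m : ℤ) (h : (n + m) % 2 = 1) : q n m = 0 := by
  induction n generalizing m with
  | zero =>
    unfold q
    rw [if_neg]
    rintro rfl
    simp at h
  | succ n ih =>
    unfold q
    push_cast at h
    rw [ih (m - 1) (by omega), ih (m + 1) (by omega)]
    norm_num

theorem q_eq (n k : ℕ) : q n (2 * k - n) = (n.choose k : ℝ) / 2 ^ n := by
  induction n generalizing k with
  | zero =>
    unfold q
    cases k with
    | zero => simp
    | succ k =>
      rw [if_neg (by push_cast; omega)]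
      simp
  | succ n ih =>
    unfold q
    cases k with
    | zero =>
      have h1 : q n (2 * (0 : ℕ) - ((n + 1 : ℕ) : ℤ) - 1) = 0 := by
        apply q_out
        have : (2 * ((0 : ℕ) : ℤ) - ((n + 1 : ℕ) : ℤ) - 1) = -(n + 2 : ℤ) := by push_cast; ring
        rw [this, abs_neg, abs_of_nonneg (by positivity)]
        omega
      have h2 : (2 * ((0 : ℕ) : ℤ) - ((n + 1 : ℕ) : ℤ) + 1) = 2 * ((0 : ℕ) : ℤ) - n := by
        push_cast; ring
      rw [h1, h2, ih 0]
      simp only [Nat.choose_zero_right, Nat.cast_one]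
      rw [pow_succ]
      field_simp
      ring
    | succ k =>
      have h1 : (2 * ((k + 1 : ℕ) : ℤ) - ((n + 1 : ℕ) : ℤ) - 1) = 2 * (k : ℤ) - n := by
        push_cast; ring
      have h2 : (2 * ((k + 1 : ℕ) : ℤ) - ((n + 1 : ℕ) : ℤ) + 1) = 2 * ((k + 1 : ℕ) : ℤ) - n := by
        push_cast; ring
      rw [h1, h2, ih k, ih (k + 1), Nat.choose_succ_succ, pow_succ]
      push_cast
      field_simp

/-- Return probability at time `2n`. -/
noncomputable def u (n : ℕ) : ℝ := q (2 * n) 0

theorem u_eq (n : ℕ) : u n = (n.centralBinom : ℝ) / 4 ^ n := by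
  unfold u
  have h := q_eq (2 * n) n
  have h1 : (2 * (n : ℤ) - ((2 * n : ℕ) : ℤ)) = 0 := by push_cast; ring
  rw [h1] at h
  rw [h, Nat.centralBinom, pow_mul]
  norm_num

theorem u_zero : u 0 = 1 := by rw [u_eq]; simp

theorem u_pos (n : ℕ) : 0 < u n := by
  rw [u_eq]
  have := Nat.centralBinom_pos n
  positivity

theorem u_succ (n : ℕ) : u (n + 1) * (2 * n + 2) = u n * (2 * n + 1) := by
  rw [u_eq, u_eq]
  have h := Nat.succ_mul_centralBinom_succ n
  have h2 : ((n : ℝ) + 1) * (n + 1).centralBinom = 2 * (2 * n + 1) * n.centralBinom := by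
    exact_mod_cast h
  rw [pow_succ]
  field_simp
  nlinarith [h2]

theorem u_sq_le (n : ℕ) : u n ^ 2 * (2 * (n : ℝ) + 1) ≤ 1 := by
  induction n with
  | zero => rw [u_zero]; norm_num
  | succ n ih =>
    have h := u_succ n
    have hn : (0 : ℝ) ≤ n := Nat.cast_nonneg n
    have h2 : u (n + 1) = u n * (2 * n + 1) / (2 * n + 2) := by
      rw [eq_div_iff (by positivity)]; exact h
    push_cast
    have h3 : u (n + 1) ^ 2 * (2 * ((n : ℝ) + 1) + 1) =
        (u n ^ 2 * (2 * n + 1)) * ((2 * n + 1) * (2 * n + 3) / (2 * n + 2) ^ 2) := by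
      rw [h2]; field_simp; ring
    rw [h3]
    have h4 : (2 * (n : ℝ) + 1) * (2 * n + 3) / (2 * n + 2) ^ 2 ≤ 1 := by
      rw [div_le_one (by positivity)]; nlinarith
    calc (u n ^ 2 * (2 * n + 1)) * ((2 * n + 1) * (2 * n + 3) / (2 * n + 2) ^ 2)
        ≤ 1 * 1 := mul_le_mul ih h4 (by positivity) (by norm_num)
      _ = 1 := one_mul 1

theorem le_u_sq (n : ℕ) (hn : 1 ≤ n) : 1 ≤ u n ^ 2 * (4 * (n : ℝ)) := by
  induction n, hn using Nat.le_induction with
  | base =>
    have h := u_succ 0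
    rw [u_zero] at h
    have h1 : u 1 = 1 / 2 := by
      norm_num at h ⊢; linarith
    rw [h1]; norm_num
  | succ n hn ih =>
    have h := u_succ n
    have hn0 : (0 : ℝ) < n := by exact_mod_cast hn
    have h2 : u (n + 1) = u n * (2 * n + 1) / (2 * n + 2) := by
      rw [eq_div_iff (by positivity)]; exact h
    push_cast
    have h3 : u (n + 1) ^ 2 * (4 * ((n : ℝ) + 1)) =
        (u n ^ 2 * (4 * n)) * ((2 * n + 1) ^ 2 / (4 * n * (n + 1))) := by
      rw [h2]; field_simp; ring
    rw [h3]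
    have h4 : 1 ≤ (2 * (n : ℝ) + 1) ^ 2 / (4 * n * (n + 1)) := by
      rw [one_le_div (by positivity)]; nlinarith
    calc (1 : ℝ) = 1 * 1 := (one_mul 1).symm
      _ ≤ _ := mul_le_mul ih h4 (by norm_num) (by positivity)

/-- The six-dimensional return probability. -/
noncomputable def w (n : ℕ) : ℝ := u n ^ 6

theorem w_zero : w 0 = 1 := by unfold w; rw [u_zero]; norm_num

theorem w_nonneg (n : ℕ) : 0 ≤ w n := pow_nonneg (u_pos n).le 6

theorem w_le (n : ℕ) : w n ≤ 1 / (2 * (n : ℝ) + 1) ^ 3 := by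
  have h := u_sq_le n
  have hn : (0 : ℝ) ≤ n := Nat.cast_nonneg n
  have h1 : u n ^ 2 ≤ 1 / (2 * n + 1) := by rw [le_div_iff₀ (by positivity)]; exact h
  unfold w
  calc u n ^ 6 = (u n ^ 2) ^ 3 := by ring
    _ ≤ (1 / (2 * (n : ℝ) + 1)) ^ 3 := pow_le_pow_left₀ (sq_nonneg _) h1 3
    _ = 1 / (2 * (n : ℝ) + 1) ^ 3 := by rw [div_pow, one_pow]

theorem le_w (n : ℕ) (hn : 1 ≤ n) : 1 / (4 * (n : ℝ)) ^ 3 ≤ w n := by
  have h := le_u_sq n hn
  have hn0 : (0 : ℝ) < n := by exact_mod_cast hn
  have h1 : 1 / (4 * (n : ℝ)) ≤ u n ^ 2 := by rw [div_le_iff₀ (by positivity)]; exact h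
  unfold w
  calc (1 : ℝ) / (4 * (n : ℝ)) ^ 3 = (1 / (4 * (n : ℝ))) ^ 3 := by rw [div_pow, one_pow]
    _ ≤ (u n ^ 2) ^ 3 := pow_le_pow_left₀ (by positivity) h1 3
    _ = u n ^ 6 := by ring

end V11328RD
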