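import Pool.Agent.V11328.RD.Decay
import Pool.Agent.V11328.RD.Walk1

/-!
# The two walks on the factor `ℤ⁶` and their normalised Green functions
-/

set_option autoImplicit false
set_option linter.unusedSectionVars false

namespace V11328RD

/-- Signs. -/
def sg (b : Bool) : ℤ := if b then 1 else -1

/-- Steps of the first walk: all six coordinates move. -/
def ev1 (ε : Fin 6 → Bool) : A := Multiplicative.ofAdd fun j => sg (ε j)

/-- Steps of the second walk: only the first coordinate moves. -/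
def ev2 (b : Bool) : A := Multiplicative.ofAdd (Pi.single 0 (sg b))

/-- Averaging operator of the first walk. -/
noncomputable def avg1 (φ : A → ℝ) (m : A) : ℝ := (1 / 64) * ∑ ε, φ ((ev1 ε)⁻¹ * m)

/-- Averaging operator of the second walk. -/
noncomputable def avg2 (φ : A → ℝ) (m : A) : ℝ := (1 / 2) * ∑ b, φ ((ev2 b)⁻¹ * m)

theorem card_signs : (Finset.univ : Finset (Fin 6 → Bool)).card = 64 := by
  rw [Finset.card_univ, Fintype.card_fun]
  simp

theorem avg1_mono {φ ψ : A → ℝ} (h : ∀ a, φ a ≤ ψ a) (m : A) : avg1 φ m ≤ avg1 ψ m := by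
  unfold avg1
  exact mul_le_mul_of_nonneg_left (Finset.sum_le_sum fun ε _ => h _) (by norm_num)

theorem avg1_const (c : ℝ) (m : A) : avg1 (fun _ => c) m = c := by
  unfold avg1
  rw [Finset.sum_const, card_signs, nsmul_eq_mul]
  push_cast
  ring

theorem avg1_le {φ : A → ℝ} {c : ℝ} (h : ∀ a, φ a ≤ c) (m : A) : avg1 φ m ≤ c := by
  rw [← avg1_const c m]
  exact avg1_mono h m

theorem avg1_nonneg {φ : A → ℝ} (h : ∀ a, 0 ≤ φ a) (m : A) : 0 ≤ avg1 φ m := by
  rw [← avg1_const 0 m]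
  exact avg1_mono h m

theorem avg1_sub (φ ψ : A → ℝ) (m : A) :
    avg1 (fun a => φ a - ψ a) m = avg1 φ m - avg1 ψ m := by
  unfold avg1
  rw [Finset.sum_sub_distrib, mul_sub]

/-- **Maximum principle.** -/
theorem max_principle {D : A → ℝ} {B ξ : ℝ} (hξ0 : 0 ≤ ξ) (hξ1 : ξ < 1) (hB0 : 0 ≤ B)
    (hB : ∀ a, D a ≤ B) (h1 : D 1 ≤ 0) (h : ∀ a, a ≠ 1 → D a ≤ ξ * avg1 D a) (a : A) :
    D a ≤ 0 := by
  have hn : ∀ n : ℕ, ∀ a, D a ≤ ξ ^ n * B := by
    intro n
    induction n with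
    | zero => intro a; simpa using hB a
    | succ n ih =>
      intro a
      by_cases ha : a = 1
      · rw [ha]; exact h1.trans (by positivity)
      · refine (h a ha).trans ?_
        have := mul_le_mul_of_nonneg_left (avg1_le ih a) hξ0
        rw [pow_succ']
        linarith
  have hlim : Filter.Tendsto (fun n : ℕ => ξ ^ n * B) Filter.atTop (nhds (0 * B)) :=
    (tendsto_pow_atTop_nhds_zero_of_lt_one hξ0 hξ1).mul_const B
  rw [zero_mul] at hlim
  exact ge_of_tendsto' hlim fun n => hn n a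

/-- Transition probabilities of the first walk. -/
noncomputable def p (n : ℕ) (a : A) : ℝ := ∏ j, q n (Multiplicative.toAdd a j)

theorem p_nonneg (n : ℕ) (a : A) : 0 ≤ p n a := Finset.prod_nonneg fun _ _ => q_nonneg _ _

theorem p_le_one (n : ℕ) (a : A) : p n a ≤ 1 :=
  Finset.prod_le_one (fun _ _ => q_nonneg _ _) fun _ _ => q_le_one _ _

theorem p_zero (a : A) : p 0 a = if a = 1 then 1 else 0 := by
  unfold p
  split_ifs with h
  · subst h
    simp [q]
  · have : ∃ j, Multiplicative.toAdd a j ≠ 0 := by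
      by_contra hc
      push Not at hc
      apply h
      apply Multiplicative.toAdd.injective
      funext j
      exact hc j
    obtain ⟨j, hj⟩ := this
    apply Finset.prod_eq_zero (Finset.mem_univ j)
    unfold q
    rw [if_neg hj]

theorem p_succ (n : ℕ) (a : A) : p (n + 1) a = avg1 (p n) a := by
  unfold p avg1
  have h1 : ∀ j : Fin 6, q (n + 1) (Multiplicative.toAdd a j) =
      ∑ b : Bool, (1 / 2) * q n (Multiplicative.toAdd a j - sg b) := by
    intro j
    rw [Fintype.sum_bool]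
    unfold sg
    simp only [if_true, Bool.false_eq_true, if_false]
    rw [q]
    rw [sub_neg_eq_add]
    ring
  simp_rw [h1]
  rw [Finset.prod_univ_sum, Fintype.piFinset_univ, Finset.mul_sum]
  refine Finset.sum_congr rfl fun ε _ => ?_
  rw [Finset.prod_mul_distrib]
  congr 1
  · simp; norm_num
  · refine Finset.prod_congr rfl fun j _ => ?_
    congr 1
    unfold ev1
    simp only [toAdd_mul, toAdd_inv, toAdd_ofAdd, Pi.add_apply, Pi.neg_apply]
    ring

theorem p_one_even (n : ℕ) : p (2 * n) 1 = w n := by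
  unfold p w u
  simp

theorem p_one_odd (n : ℕ) : p (2 * n + 1) 1 = 0 := by
  unfold p
  apply Finset.prod_eq_zero (Finset.mem_univ 0)
  apply q_odd
  simp only [toAdd_one, Pi.zero_apply]
  omega

/-- The Green function of the first walk. -/
noncomputable def GA (ξ : ℝ) (a : A) : ℝ := ∑' n : ℕ, ξ ^ n * p n a

theorem summable_GA {ξ : ℝ} (h0 : 0 ≤ ξ) (h1 : ξ < 1) (a : A) :
    Summable fun n : ℕ => ξ ^ n * p n a := by
  refine Summable.of_nonneg_of_le (fun n => mul_nonneg (pow_nonneg h0 n) (p_nonneg n a))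
    (fun n => ?_) (summable_geometric_of_lt_one h0 h1)
  exact mul_le_of_le_one_right (pow_nonneg h0 n) (p_le_one n a)

theorem GA_nonneg {ξ : ℝ} (h0 : 0 ≤ ξ) (a : A) : 0 ≤ GA ξ a :=
  tsum_nonneg fun n => mul_nonneg (pow_nonneg h0 n) (p_nonneg n a)

theorem GA_le {ξ : ℝ} (h0 : 0 ≤ ξ) (h1 : ξ < 1) (a : A) : GA ξ a ≤ (1 - ξ)⁻¹ := by
  rw [← tsum_geometric_of_lt_one h0 h1]
  exact (summable_GA h0 h1 a).tsum_le_tsum
    (fun n => mul_le_of_le_one_right (pow_nonneg h0 n) (p_le_one n a))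
    (summable_geometric_of_lt_one h0 h1)

theorem GA_eq {ξ : ℝ} (h0 : 0 ≤ ξ) (h1 : ξ < 1) (a : A) :
    GA ξ a = (if a = 1 then 1 else 0) + ξ * avg1 (GA ξ) a := by
  unfold GA
  rw [(summable_GA h0 h1 a).tsum_eq_zero_add]
  congr 1
  · rw [p_zero]; simp
  · unfold avg1
    rw [← Summable.tsum_finsetSum (fun ε _ => summable_GA h0 h1 _), ← tsum_mul_left,
      ← tsum_mul_left]
    refine tsum_congr fun n => ?_
    rw [p_succ]
    unfold avg1
    rw [pow_succ', Finset.mul_sum, Finset.mul_sum, Finset.mul_sum, Finset.mul_sum]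
    refine Finset.sum_congr rfl fun ε _ => ?_
    ring

/-- The diagonal Green function. -/
noncomputable def Gs (ξ : ℝ) : ℝ := ∑' n : ℕ, w n * ξ ^ (2 * n)

theorem GA_one {ξ : ℝ} (h0 : 0 ≤ ξ) (h1 : ξ < 1) : GA ξ 1 = Gs ξ := by
  unfold GA Gs
  have hinj : Function.Injective (fun n : ℕ => 2 * n) := fun a b h => by
    simpa using h
  have h2 : ∑' n : ℕ, ξ ^ (2 * n) * p (2 * n) 1 = ∑' n : ℕ, ξ ^ n * p n 1 := by
    refine hinj.tsum_eq (f := fun n => ξ ^ n * p n 1) ?_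
    intro n hn
    rw [Function.mem_support] at hn
    rcases Nat.even_or_odd' n with ⟨k, hk | hk⟩
    · exact ⟨k, hk.symm⟩
    · exfalso
      apply hn
      rw [hk, p_one_odd, mul_zero]
  rw [← h2]
  refine tsum_congr fun n => ?_
  rw [p_one_even, mul_comm]

theorem one_le_GA {ξ : ℝ} (h0 : 0 ≤ ξ) (h1 : ξ < 1) : 1 ≤ GA ξ 1 := by
  rw [GA_eq h0 h1 1, if_pos rfl]
  have := mul_nonneg h0 (avg1_nonneg (GA_nonneg h0) 1)
  linarith

/-- The normalised Green function of the first walk. -/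
noncomputable def F0 (ξ : ℝ) (a : A) : ℝ := GA ξ a / GA ξ 1

theorem F0_one {ξ : ℝ} (h0 : 0 ≤ ξ) (h1 : ξ < 1) : F0 ξ 1 = 1 := by
  unfold F0
  exact div_self (by have := one_le_GA h0 h1; linarith)

theorem F0_nonneg {ξ : ℝ} (h0 : 0 ≤ ξ) (a : A) : 0 ≤ F0 ξ a :=
  div_nonneg (GA_nonneg h0 a) (GA_nonneg h0 1)

theorem avg1_F0 (ξ : ℝ) (a : A) : avg1 (F0 ξ) a = avg1 (GA ξ) a / GA ξ 1 := by
  unfold avg1 F0
  rw [← Finset.sum_div]
  ring

theorem F0_off {ξ : ℝ} (h0 : 0 ≤ ξ) (h1 : ξ < 1) {a : A} (ha : a ≠ 1) :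
    F0 ξ a = ξ * avg1 (F0 ξ) a := by
  rw [avg1_F0]
  unfold F0
  rw [GA_eq h0 h1 a, if_neg ha]
  ring

theorem F0_at {ξ : ℝ} (h0 : 0 ≤ ξ) (h1 : ξ < 1) :
    ξ * avg1 (F0 ξ) 1 = 1 - 1 / GA ξ 1 := by
  rw [avg1_F0]
  have h := GA_eq h0 h1 1
  rw [if_pos rfl] at h
  have hp : GA ξ 1 ≠ 0 := by have := one_le_GA h0 h1; linarith
  field_simp
  linarith

theorem F0_le_bd {ξ : ℝ} (h0 : 0 ≤ ξ) (h1 : ξ < 1) (a : A) : F0 ξ a ≤ (1 - ξ)⁻¹ := by
  unfold F0
  have h2 := one_le_GA h0 h1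
  rw [div_le_iff₀ (by linarith)]
  have h3 := GA_le h0 h1 a
  have h4 : 0 ≤ (1 - ξ)⁻¹ := inv_nonneg.2 (by linarith)
  nlinarith

theorem F0_le_one {ξ : ℝ} (h0 : 0 ≤ ξ) (h1 : ξ < 1) (a : A) : F0 ξ a ≤ 1 := by
  have h := max_principle (D := fun a => F0 ξ a - 1) (B := (1 - ξ)⁻¹) h0 h1
    (inv_nonneg.2 (by linarith)) (fun a => by have := F0_le_bd h0 h1 a; linarith)
    (by rw [F0_one h0 h1]; norm_num) (fun a ha => by
      rw [avg1_sub, avg1_const, F0_off h0 h1 ha]
      nlinarith) a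
  linarith

theorem F0_mono {ξ ξ' : ℝ} (h0 : 0 ≤ ξ) (hle : ξ ≤ ξ') (h1 : ξ' < 1) (a : A) :
    F0 ξ a ≤ F0 ξ' a := by
  have h0' : 0 ≤ ξ' := h0.trans hle
  have h1' : ξ < 1 := hle.trans_lt h1
  have h := max_principle (D := fun a => F0 ξ a - F0 ξ' a) (B := 1) h0 h1'
    zero_le_one (fun a => by
      have := F0_le_one h0 h1' a
      have := F0_nonneg h0' a
      linarith)
    (by rw [F0_one h0 h1', F0_one h0' h1]; norm_num) (fun a ha => by
      rw [avg1_sub, F0_off h0 h1' ha, F0_off h0' h1 ha]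
      have := avg1_nonneg (F0_nonneg h0') a
      nlinarith) a
  linarith

/-- The normalised Green function of the second walk. -/
noncomputable def F1 (l : ℝ) (a : A) : ℝ :=
  if ∀ j : Fin 6, j ≠ 0 → Multiplicative.toAdd a j = 0 then l ^ (Multiplicative.toAdd a 0).natAbs
  else 0

theorem F1_one (l : ℝ) : F1 l 1 = 1 := by
  unfold F1
  rw [if_pos (by intro j _; simp)]
  simp

theorem F1_nonneg {l : ℝ} (h : 0 ≤ l) (a : A) : 0 ≤ F1 l a := by
  unfold F1
  split_ifs
  · positivity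
  · exact le_rfl

theorem F1_mono {l l' : ℝ} (h : 0 ≤ l) (hl : l ≤ l') (a : A) : F1 l a ≤ F1 l' a := by
  unfold F1
  split_ifs
  · exact pow_le_pow_left₀ h hl _
  · exact le_rfl

theorem F1_shift (l : ℝ) (b : Bool) (a : A) : F1 l ((ev2 b)⁻¹ * a) =
    if ∀ j : Fin 6, j ≠ 0 → Multiplicative.toAdd a j = 0 then
      l ^ (Multiplicative.toAdd a 0 - sg b).natAbs else 0 := by
  unfold F1 ev2
  have h : ∀ j : Fin 6, j ≠ 0 →
      Multiplicative.toAdd ((Multiplicative.ofAdd (Pi.single 0 (sg b) : Fin 6 → ℤ))⁻¹ * a) j =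
        Multiplicative.toAdd a j := by
    intro j hj
    simp only [toAdd_mul, toAdd_inv, toAdd_ofAdd, Pi.add_apply, Pi.neg_apply,
      Pi.single_eq_of_ne hj]
    ring
  have h0 : Multiplicative.toAdd ((Multiplicative.ofAdd (Pi.single 0 (sg b) : Fin 6 → ℤ))⁻¹ * a) 0 =
        Multiplicative.toAdd a 0 - sg b := by
    simp only [toAdd_mul, toAdd_inv, toAdd_ofAdd, Pi.add_apply, Pi.neg_apply, Pi.single_eq_same]
    ring
  have hiff : (∀ j : Fin 6, j ≠ 0 →
      Multiplicative.toAdd ((Multiplicative.ofAdd (Pi.single 0 (sg b) : Fin 6 → ℤ))⁻¹ * a) j = 0) ↔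
      ∀ j : Fin 6, j ≠ 0 → Multiplicative.toAdd a j = 0 :=
    forall_congr' fun j => forall_congr' fun hj => by rw [h j hj]
  by_cases hc : ∀ j : Fin 6, j ≠ 0 → Multiplicative.toAdd a j = 0
  · rw [if_pos hc, if_pos (hiff.2 hc), h0]
  · rw [if_neg hc, if_neg (fun h' => hc (hiff.1 h'))]

theorem avg2_F1_one (l : ℝ) : avg2 (F1 l) 1 = l := by
  unfold avg2
  rw [Fintype.sum_bool, F1_shift, F1_shift, if_pos (by intro j _; simp), if_pos (by intro j _; simp)]
  simp [sg]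
  ring

theorem avg2_F1_off {l c : ℝ} (hl : 1 + l ^ 2 = 2 * l * c) {a : A} (ha : a ≠ 1) :
    avg2 (F1 l) a = c * F1 l a := by
  unfold avg2
  rw [Fintype.sum_bool, F1_shift, F1_shift]
  unfold F1
  by_cases hc : ∀ j : Fin 6, j ≠ 0 → Multiplicative.toAdd a j = 0
  · rw [if_pos hc, if_pos hc, if_pos hc]
    have h0 : Multiplicative.toAdd a 0 ≠ 0 := by
      intro h
      apply ha
      apply Multiplicative.toAdd.injective
      funext j
      by_cases hj : j = 0
      · rw [hj]; exact h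
      · exact hc j hj
    set k := Multiplicative.toAdd a 0
    have hsg1 : sg true = 1 := rfl
    have hsg2 : sg false = -1 := rfl
    rw [hsg1, hsg2]
    rcases lt_or_gt_of_ne h0 with hk | hk
    · obtain ⟨n, hn⟩ : ∃ n : ℕ, k = -((n : ℤ) + 1) := ⟨(-k - 1).toNat, by omega⟩
      have e1 : (k - 1).natAbs = n + 2 := by omega
      have e2 : (k - -1).natAbs = n := by omega
      have e3 : k.natAbs = n + 1 := by omega
      rw [e1, e2, e3]
      have : l ^ (n + 2) + l ^ n = l ^ n * (1 + l ^ 2) := by ring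
      rw [this, hl]
      ring
    · obtain ⟨n, hn⟩ : ∃ n : ℕ, k = (n : ℤ) + 1 := ⟨(k - 1).toNat, by omega⟩
      have e1 : (k - 1).natAbs = n := by omega
      have e2 : (k - -1).natAbs = n + 2 := by omega
      have e3 : k.natAbs = n + 1 := by omega
      rw [e1, e2, e3]
      have : l ^ n + l ^ (n + 2) = l ^ n * (1 + l ^ 2) := by ring
      rw [this, hl]
      ring
  · rw [if_neg hc, if_neg hc, if_neg hc]
    ring

end V11328RD
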