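import Pool.Agent.V11328.RD.Factor

/-!
# The Green function of the mixture on the free product
-/

set_option autoImplicit false
set_option linter.unusedSectionVars false

open Monoid Monoid.CoprodI

namespace V11328RD

/-- Product of a function over the syllables. -/
noncomputable def Ph (F : Bool → A → ℝ) (l : List (Σ _ : Bool, A)) : ℝ :=
  (l.map fun s => F s.1 s.2).prod

/-- The multiplicative function on the free product. -/
noncomputable def gw (F : Bool → A → ℝ) (x : Gm) : ℝ := Ph F (wl x)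

/-- The word of `x`. -/
noncomputable def wd (x : Gm) : Word (fun _ : Bool => A) := x • Word.empty

/-- The leading syllable in the factor `i`. -/
noncomputable def hd (i : Bool) (x : Gm) : A := (Word.equivPair i (wd x)).head

/-- The remainder after removing the leading syllable in the factor `i`. -/
noncomputable def tl (i : Bool) (x : Gm) : Word (fun _ : Bool => A) :=
  (Word.equivPair i (wd x)).tail

theorem gw_inc (F : Bool → A → ℝ) (hF : ∀ i, F i 1 = 1) (i : Bool) (m : A) (x : Gm) :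
    gw F (inc i m * x) = F i (m * hd i x) * Ph F (tl i x).toList := by
  have h1 : wl (inc i m * x) = (Word.rcons (⟨m * hd i x, tl i x, (Word.equivPair i (wd x)).fstIdx_ne⟩ :
      Word.Pair (fun _ : Bool => A) i)).toList := by
    unfold wl
    rw [mul_smul]
    exact congrArg Word.toList (Word.of_smul_def i (wd x) m)
  unfold gw
  rw [h1]
  rcases rcons_toList (⟨m * hd i x, tl i x, (Word.equivPair i (wd x)).fstIdx_ne⟩ :
      Word.Pair (fun _ : Bool => A) i) with ⟨h2, h3⟩ | ⟨h2, h3⟩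
  · rw [h2]
    simp only at h3 ⊢
    rw [h3, hF, one_mul]
  · rw [h2]
    simp [Ph]

theorem gw_self (F : Bool → A → ℝ) (hF : ∀ i, F i 1 = 1) (i : Bool) (x : Gm) :
    gw F x = F i (hd i x) * Ph F (tl i x).toList := by
  have h := gw_inc F hF i 1 x
  rwa [map_one, one_mul, one_mul] at h

theorem gw_one (F : Bool → A → ℝ) : gw F 1 = 1 := by
  unfold gw wl
  rw [one_smul]
  simp [Ph]

theorem hd_one (i : Bool) : hd i 1 = 1 := by
  unfold hd wd
  rw [one_smul, Word.equivPair_eq_of_fstIdx_ne (by simp [Word.fstIdx])]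

/-- For `x ≠ 1`, exactly one factor carries the leading syllable. -/
theorem hd_cases {x : Gm} (hx : x ≠ 1) : ∃ j, hd j x ≠ 1 ∧ hd (!j) x = 1 := by
  have hne : wd x ≠ Word.empty := by
    intro h
    apply hx
    have h2 := Word.prod_smul x (Word.empty : Word (fun _ : Bool => A))
    rw [Word.prod_empty, mul_one] at h2
    unfold wd at h
    rw [h, Word.prod_empty] at h2
    exact h2.symm
  obtain ⟨j, hj⟩ : ∃ j, (wd x).fstIdx = some j := by
    unfold Word.fstIdx
    cases hl : (wd x).toList with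
    | nil => exact absurd (Word.ext hl) hne
    | cons s l => exact ⟨s.1, by simp⟩
  refine ⟨j, ?_, ?_⟩
  · intro h
    have hW : wd x = Word.rcons (Word.equivPair j (wd x)) :=
      ((Word.equivPair j).symm_apply_apply (wd x)).symm
    rcases rcons_toList (Word.equivPair j (wd x)) with ⟨h2, _⟩ | ⟨_, h3⟩
    · have h4 : wd x = (Word.equivPair j (wd x)).tail := by
        rw [← hW] at h2
        exact Word.ext h2
      have h5 := (Word.equivPair j (wd x)).fstIdx_ne
      rw [← h4] at h5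
      exact h5 hj
    · exact h3 h
  · unfold hd
    rw [Word.equivPair_eq_of_fstIdx_ne]
    rw [hj]
    intro h
    have := Option.some.inj h
    cases j <;> simp at this

/-- The convolution operator of the mixture. -/
noncomputable def P (α β : ℝ) : (Gm → ℝ) →ₗ[ℝ] (Gm → ℝ) where
  toFun h x := α * ((1 / 64) * ∑ ε, h ((inc false (ev1 ε))⁻¹ * x)) +
    β * ((1 / 2) * ∑ b, h ((inc true (ev2 b))⁻¹ * x))
  map_add' h h' := by
    funext x
    simp only [Pi.add_apply, Finset.sum_add_distrib]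
    ring
  map_smul' c h := by
    funext x
    simp only [Pi.smul_apply, smul_eq_mul, RingHom.id_apply, ← Finset.mul_sum]
    ring

theorem P_apply (α β : ℝ) (h : Gm → ℝ) (x : Gm) :
    P α β h x = α * ((1 / 64) * ∑ ε, h ((inc false (ev1 ε))⁻¹ * x)) +
      β * ((1 / 2) * ∑ b, h ((inc true (ev2 b))⁻¹ * x)) := rfl

theorem P_gw (α β : ℝ) (F : Bool → A → ℝ) (hF : ∀ i, F i 1 = 1) (x : Gm) :
    P α β (gw F) x = α * (avg1 (F false) (hd false x) * Ph F (tl false x).toList) +
      β * (avg2 (F true) (hd true x) * Ph F (tl true x).toList) := by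
  rw [P_apply]
  unfold avg1 avg2
  simp_rw [← map_inv, gw_inc F hF]
  rw [← Finset.sum_mul, ← Finset.sum_mul]
  ring

theorem green_eq (α β z a0 b0 a1 b1 : ℝ) (F : Bool → A → ℝ) (hF : ∀ i, F i 1 = 1)
    (h0 : ∀ m, m ≠ 1 → z * α * avg1 (F false) m = a0 * F false m)
    (h0' : z * α * avg1 (F false) 1 = b0)
    (h1 : ∀ m, m ≠ 1 → z * β * avg2 (F true) m = a1 * F true m)
    (h1' : z * β * avg2 (F true) 1 = b1) (e1 : a0 + b1 = 1) (e2 : a1 + b0 = 1) (x : Gm) :
    gw F x = (if x = 1 then 1 - b0 - b1 else 0) + z * P α β (gw F) x := by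
  rw [P_gw α β F hF]
  have s0 := gw_self F hF false x
  have s1 := gw_self F hF true x
  by_cases hx : x = 1
  · subst hx
    rw [if_pos rfl]
    rw [hd_one] at s0 s1 ⊢
    rw [hd_one, gw_one]
    rw [hF, one_mul, gw_one] at s0 s1
    rw [← s0, ← s1, mul_one, mul_one]
    linarith
  · rw [if_neg hx]
    obtain ⟨j, hj, hj'⟩ := hd_cases hx
    cases j with
    | false =>
      simp only [Bool.not_false] at hj'
      rw [hj'] at s1 ⊢
      rw [hF, one_mul] at s1
      rw [← s1]
      have e := h0 _ hj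
      calc gw F x = (a0 + b1) * gw F x := by rw [e1, one_mul]
        _ = a0 * gw F x + b1 * gw F x := by ring
        _ = (a0 * F false (hd false x)) * Ph F (tl false x).toList + b1 * gw F x := by
            rw [s0]; ring
        _ = _ := by rw [← e, ← h1']; ring
    | true =>
      simp only [Bool.not_true] at hj'
      rw [hj'] at s0 ⊢
      rw [hF, one_mul] at s0
      rw [← s0]
      have e := h1 _ hj
      calc gw F x = (a1 + b0) * gw F x := by rw [e2, one_mul]
        _ = a1 * gw F x + b0 * gw F x := by ring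
        _ = (a1 * F true (hd true x)) * Ph F (tl true x).toList + b0 * gw F x := by
            rw [s1]; ring
        _ = _ := by rw [← e, ← h0']; ring

theorem Ph_nonneg {F : Bool → A → ℝ} (h : ∀ i a, 0 ≤ F i a) (l : List (Σ _ : Bool, A)) :
    0 ≤ Ph F l := by
  induction l with
  | nil => simp [Ph]
  | cons s l ih =>
    have : Ph F (s :: l) = F s.1 s.2 * Ph F l := by simp [Ph]
    rw [this]
    exact mul_nonneg (h _ _) ih

theorem Ph_mono {F F' : Bool → A → ℝ} (h : ∀ i a, 0 ≤ F i a) (h' : ∀ i a, F i a ≤ F' i a)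
    (l : List (Σ _ : Bool, A)) : Ph F l ≤ Ph F' l := by
  induction l with
  | nil => simp [Ph]
  | cons s l ih =>
    have e1 : Ph F (s :: l) = F s.1 s.2 * Ph F l := by simp [Ph]
    have e2 : Ph F' (s :: l) = F' s.1 s.2 * Ph F' l := by simp [Ph]
    rw [e1, e2]
    exact mul_le_mul (h' _ _) ih (Ph_nonneg h l) ((h _ _).trans (h' _ _))

theorem P_mono {α β : ℝ} (hα : 0 ≤ α) (hβ : 0 ≤ β) {h h' : Gm → ℝ} (hh : ∀ x, h x ≤ h' x)
    (x : Gm) : P α β h x ≤ P α β h' x := by
  rw [P_apply, P_apply]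
  refine add_le_add (mul_le_mul_of_nonneg_left (mul_le_mul_of_nonneg_left
    (Finset.sum_le_sum fun ε _ => hh _) (by norm_num)) hα) (mul_le_mul_of_nonneg_left
    (mul_le_mul_of_nonneg_left (Finset.sum_le_sum fun ε _ => hh _) (by norm_num)) hβ)

theorem Ppow_mono {α β : ℝ} (hα : 0 ≤ α) (hβ : 0 ≤ β) (n : ℕ) {h h' : Gm → ℝ}
    (hh : ∀ x, h x ≤ h' x) (x : Gm) : (P α β ^ n) h x ≤ (P α β ^ n) h' x := by
  induction n generalizing x with
  | zero => simpa using hh x
  | succ n ih =>
    rw [pow_succ', Module.End.mul_apply, Module.End.mul_apply]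
    exact P_mono hα hβ ih x

theorem Ppow_nonneg {α β : ℝ} (hα : 0 ≤ α) (hβ : 0 ≤ β) (n : ℕ) {h : Gm → ℝ}
    (hh : ∀ x, 0 ≤ h x) (x : Gm) : 0 ≤ (P α β ^ n) h x := by
  have h1 := Ppow_mono hα hβ n (h := fun _ => 0) (h' := h) hh x
  have h2 : (P α β ^ n) (fun _ => 0) = 0 := map_zero _
  rw [h2] at h1
  simpa using h1

/-- The point mass at the identity. -/
noncomputable def dl : Gm → ℝ := Set.indicator ({1} : Set Gm) (fun _ => (1 : ℝ))

theorem dl_nonneg (x : Gm) : 0 ≤ dl x := by
  unfold dl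
  exact Set.indicator_nonneg (fun _ _ => zero_le_one) x

theorem dl_apply (x : Gm) : dl x = if x = 1 then 1 else 0 := by
  unfold dl
  rw [Set.indicator_apply]
  simp

/-- Return sequence. -/
noncomputable def ret (α β : ℝ) (n : ℕ) : ℝ := (P α β ^ n) dl 1

theorem ret_nonneg {α β : ℝ} (hα : 0 ≤ α) (hβ : 0 ≤ β) (n : ℕ) : 0 ≤ ret α β n :=
  Ppow_nonneg hα hβ n dl_nonneg 1

theorem iterate_eq {α β z c : ℝ} {φ : Gm → ℝ} (h : φ = c • dl + z • P α β φ) (n : ℕ) :
    φ = c • (∑ k ∈ Finset.range n, z ^ k • (P α β ^ k) dl) + z ^ n • (P α β ^ n) φ := by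
  induction n with
  | zero => simp
  | succ n ih =>
    have h2 : (P α β ^ n) φ = c • (P α β ^ n) dl + z • (P α β ^ (n + 1)) φ := by
      conv_lhs => rw [h]
      rw [map_add, map_smul, map_smul, pow_succ, Module.End.mul_apply]
    conv_lhs => rw [ih]
    rw [h2, Finset.sum_range_succ, smul_add, smul_add, smul_smul, smul_smul, smul_smul, pow_succ,
      mul_comm (z ^ n) c]
    abel

/-- **Comparison**: the Green function at `z` is the multiplicative function. -/
theorem hasSum_ret {α β z z' c c' : ℝ} (hα : 0 ≤ α) (hβ : 0 ≤ β) (hz : 0 < z) (hzz : z < z')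
    (hc : 0 < c) (hc' : 0 ≤ c') {φ φ' : Gm → ℝ} (h : φ = c • dl + z • P α β φ)
    (h' : φ' = c' • dl + z' • P α β φ') (hφ : ∀ x, 0 ≤ φ x) (hle : ∀ x, φ x ≤ φ' x) :
    HasSum (fun k : ℕ => z ^ k * ret α β k) (φ 1 / c) := by
  have hz' : 0 < z' := hz.trans hzz
  rw [hasSum_iff_tendsto_nat_of_nonneg
    (fun k => mul_nonneg (pow_nonneg hz.le k) (ret_nonneg hα hβ k))]
  have hpart : ∀ n : ℕ, ∑ k ∈ Finset.range n, z ^ k * ret α β k =
      (φ 1 - z ^ n * (P α β ^ n) φ 1) / c := by
    intro n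
    have e := congrFun (iterate_eq h n) 1
    simp only [Pi.add_apply, Pi.smul_apply, smul_eq_mul, Finset.sum_apply] at e
    rw [eq_div_iff hc.ne']
    unfold ret
    linarith
  have hbd : ∀ n : ℕ, z ^ n * (P α β ^ n) φ 1 ≤ (z / z') ^ n * φ' 1 := by
    intro n
    have e := congrFun (iterate_eq h' n) 1
    simp only [Pi.add_apply, Pi.smul_apply, smul_eq_mul, Finset.sum_apply] at e
    have h1 : 0 ≤ ∑ k ∈ Finset.range n, z' ^ k * (P α β ^ k) dl 1 :=
      Finset.sum_nonneg fun k _ => mul_nonneg (pow_nonneg hz'.le k)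
        (Ppow_nonneg hα hβ k dl_nonneg 1)
    have h2 : z' ^ n * (P α β ^ n) φ' 1 ≤ φ' 1 := by
      have := mul_nonneg hc' h1
      linarith
    have h3 : (P α β ^ n) φ 1 ≤ (P α β ^ n) φ' 1 := Ppow_mono hα hβ n hle 1
    calc z ^ n * (P α β ^ n) φ 1 ≤ z ^ n * (P α β ^ n) φ' 1 :=
          mul_le_mul_of_nonneg_left h3 (pow_nonneg hz.le n)
      _ = (z / z') ^ n * (z' ^ n * (P α β ^ n) φ' 1) := by
          rw [div_pow]; field_simp
      _ ≤ _ := mul_le_mul_of_nonneg_left h2 (by positivity)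
  have hnn : ∀ n : ℕ, 0 ≤ z ^ n * (P α β ^ n) φ 1 := fun n =>
    mul_nonneg (pow_nonneg hz.le n) (Ppow_nonneg hα hβ n hφ 1)
  have hlim : Filter.Tendsto (fun n : ℕ => (z / z') ^ n * φ' 1) Filter.atTop (nhds 0) := by
    have := (tendsto_pow_atTop_nhds_zero_of_lt_one (r := z / z') (by positivity)
      ((div_lt_one hz').2 hzz)).mul_const (φ' 1)
    rwa [zero_mul] at this
  have hr : Filter.Tendsto (fun n : ℕ => z ^ n * (P α β ^ n) φ 1) Filter.atTop (nhds 0) :=
    squeeze_zero hnn hbd hlim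
  have hfin : Filter.Tendsto (fun n : ℕ => (φ 1 - z ^ n * (P α β ^ n) φ 1) / c) Filter.atTop
      (nhds ((φ 1 - 0) / c)) := (tendsto_const_nhds.sub hr).div_const c
  rw [sub_zero] at hfin
  exact hfin.congr fun n => (hpart n).symm

end V11328RD
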