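import Pool.Agent.V11328.RD.Factor

/-!
# The Green function of the walk on `ℤ⁶` near its singularity
-/

set_option autoImplicit false
set_option linter.unusedSectionVars false

namespace V11328RD

theorem w_le' (n : ℕ) : w n ≤ 1 / ((n : ℝ) + 1) ^ 2 := by
  refine (w_le n).trans ?_
  have hn : (0 : ℝ) ≤ n := Nat.cast_nonneg n
  refine one_div_le_one_div_of_le (by positivity) ?_
  nlinarith [sq_nonneg (n : ℝ), mul_nonneg hn hn, mul_nonneg (mul_nonneg hn hn) hn]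

theorem summable_inv_sq : Summable fun n : ℕ => 1 / ((n : ℝ) + 1) ^ 2 := by
  have h := (summable_nat_add_iff 1).2 (Real.summable_one_div_nat_pow.2 (by norm_num : 1 < 2))
  refine h.congr fun n => ?_
  push_cast
  rfl

theorem summable_w : Summable w :=
  Summable.of_nonneg_of_le w_nonneg w_le' summable_inv_sq

theorem summable_nw : Summable fun n : ℕ => 2 * (n : ℝ) * w n := by
  refine Summable.of_nonneg_of_le (fun n => by have := w_nonneg n; positivity) (fun n => ?_)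
    summable_inv_sq
  have hn : (0 : ℝ) ≤ n := Nat.cast_nonneg n
  calc 2 * (n : ℝ) * w n ≤ 2 * (n : ℝ) * (1 / (2 * (n : ℝ) + 1) ^ 3) :=
        mul_le_mul_of_nonneg_left (w_le n) (by positivity)
    _ ≤ 1 / ((n : ℝ) + 1) ^ 2 := by
        rw [mul_one_div, div_le_div_iff₀ (by positivity) (by positivity)]
        nlinarith [sq_nonneg (n : ℝ), mul_nonneg hn hn, mul_nonneg (mul_nonneg hn hn) hn]

/-- Value and derivative at the singularity. -/
noncomputable def G1 : ℝ := ∑' n : ℕ, w n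

noncomputable def D1 : ℝ := ∑' n : ℕ, 2 * (n : ℝ) * w n

theorem summable_Gs {ξ : ℝ} (h0 : 0 ≤ ξ) (h1 : ξ ≤ 1) :
    Summable fun n : ℕ => w n * ξ ^ (2 * n) :=
  Summable.of_nonneg_of_le (fun n => mul_nonneg (w_nonneg n) (pow_nonneg h0 _))
    (fun n => mul_le_of_le_one_right (w_nonneg n) (pow_le_one₀ h0 h1)) summable_w

theorem Gs_le {ξ : ℝ} (h0 : 0 ≤ ξ) (h1 : ξ ≤ 1) : Gs ξ ≤ G1 :=
  (summable_Gs h0 h1).tsum_le_tsum
    (fun n => mul_le_of_le_one_right (w_nonneg n) (pow_le_one₀ h0 h1)) summable_w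

theorem Gs_mono {ξ ξ' : ℝ} (h0 : 0 ≤ ξ) (h : ξ ≤ ξ') (h1 : ξ' ≤ 1) : Gs ξ ≤ Gs ξ' :=
  (summable_Gs h0 (h.trans h1)).tsum_le_tsum
    (fun n => mul_le_mul_of_nonneg_left (pow_le_pow_left₀ h0 h _) (w_nonneg n))
    (summable_Gs (h0.trans h) h1)

theorem one_le_Gs {ξ : ℝ} (h0 : 0 ≤ ξ) (h1 : ξ ≤ 1) : 1 ≤ Gs ξ := by
  have h := (summable_Gs h0 h1).le_tsum 0
    (fun n _ => mul_nonneg (w_nonneg n) (pow_nonneg h0 _))
  unfold Gs
  simpa [w_zero] using h

theorem w_one : w 1 = 1 / 64 := by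
  unfold w
  have h := u_succ 0
  rw [u_zero] at h
  have h1 : u 1 = 1 / 2 := by norm_num at h ⊢; linarith
  rw [h1]; norm_num

theorem G1_gt : 1 + 1 / 64 ≤ G1 := by
  have h := summable_w.sum_le_tsum (Finset.range 2) (fun n _ => w_nonneg n)
  rw [Finset.sum_range_succ, Finset.sum_range_succ, Finset.sum_range_zero, w_zero, w_one] at h
  unfold G1
  linarith

theorem G1_le : G1 ≤ 5 / 4 := by
  unfold G1
  refine Real.tsum_le_of_sum_range_le w_nonneg fun n => ?_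
  have h : ∀ n : ℕ, ∑ i ∈ Finset.range (n + 1), w i ≤ 5 / 4 - 1 / (4 * ((n : ℝ) + 1)) := by
    intro n
    induction n with
    | zero => simp [w_zero]; norm_num
    | succ n ih =>
      rw [Finset.sum_range_succ]
      have hn : (0 : ℝ) ≤ n := Nat.cast_nonneg n
      have h2 : w (n + 1) ≤ 1 / (4 * ((n : ℝ) + 1)) - 1 / (4 * (((n + 1 : ℕ) : ℝ) + 1)) := by
        refine (w_le (n + 1)).trans ?_
        push_cast
        rw [div_sub_div _ _ (by positivity) (by positivity), div_le_div_iff₀ (by positivity) (by positivity)]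
        nlinarith [mul_nonneg hn hn, mul_nonneg (mul_nonneg hn hn) hn]
      linarith
  cases n with
  | zero => simp; norm_num
  | succ n =>
    refine (h n).trans ?_
    have : (0 : ℝ) ≤ 1 / (4 * ((n : ℝ) + 1)) := by positivity
    linarith

theorem D1_ge : 2 * (G1 - 1) ≤ D1 := by
  have h1 : G1 - 1 = ∑' n : ℕ, w (n + 1) := by
    unfold G1
    rw [summable_w.tsum_eq_zero_add, w_zero]
    ring
  have h2 : D1 = ∑' n : ℕ, 2 * ((n + 1 : ℕ) : ℝ) * w (n + 1) := by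
    unfold D1
    rw [summable_nw.tsum_eq_zero_add]
    simp
  rw [h1, h2, ← tsum_mul_left]
  refine Summable.tsum_le_tsum (fun n => ?_) ?_ ?_
  · have hw := w_nonneg (n + 1)
    have hn : (0 : ℝ) ≤ n := Nat.cast_nonneg n
    push_cast
    nlinarith [mul_nonneg hn hw]
  · exact ((summable_nat_add_iff 1).2 summable_w).mul_left 2
  · exact (summable_nat_add_iff 1).2 summable_nw

/-- Second order remainder. -/
noncomputable def fr (n : ℕ) (ε : ℝ) : ℝ := (1 - ε) ^ n - 1 + n * ε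

theorem fr_nonneg (n : ℕ) {ε : ℝ} (h1 : ε ≤ 1) : 0 ≤ fr n ε := by
  unfold fr
  have := one_add_mul_le_pow (a := -ε) (by linarith) n
  have h2 : (1 + -ε) = 1 - ε := by ring
  rw [h2] at this
  linarith

theorem fr_le (n : ℕ) {ε : ℝ} (h0 : 0 ≤ ε) (h1 : ε ≤ 1) : fr n ε ≤ n * ε := by
  unfold fr
  have := pow_le_one₀ (n := n) (by linarith : 0 ≤ 1 - ε) (by linarith)
  linarith

theorem fr_le_sq (n : ℕ) {ε : ℝ} (h0 : 0 ≤ ε) (h1 : ε ≤ 1) : fr n ε ≤ (n : ℝ) ^ 2 * ε ^ 2 / 2 := by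
  induction n with
  | zero => unfold fr; simp
  | succ n ih =>
    unfold fr at ih ⊢
    push_cast
    have h2 : (1 - ε) ^ (n + 1) = (1 - ε) ^ n * (1 - ε) := pow_succ _ _
    have h3 : (1 - ε) ^ n ≤ 1 - n * ε + (n : ℝ) ^ 2 * ε ^ 2 / 2 := by linarith
    have h4 : (1 - ε) ^ n * (1 - ε) ≤ (1 - n * ε + (n : ℝ) ^ 2 * ε ^ 2 / 2) * (1 - ε) :=
      mul_le_mul_of_nonneg_right h3 (by linarith)
    rw [h2]
    have hn : (0 : ℝ) ≤ n := Nat.cast_nonneg n
    nlinarith [mul_nonneg (mul_nonneg hn hn) (mul_nonneg h0 (mul_nonneg h0 h0)), sq_nonneg ε]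

theorem fr_ge (n : ℕ) {ε : ℝ} (h0 : 0 ≤ ε) (h1 : ε ≤ 1) :
    (n : ℝ) * (n - 1) / 2 * ε ^ 2 - (n : ℝ) * (n - 1) * (n - 2) / 6 * ε ^ 3 ≤ fr n ε := by
  induction n with
  | zero => unfold fr; simp
  | succ n ih =>
    have hC : 0 ≤ (n : ℝ) * (n - 1) * (n - 2) := by
      rcases n with _ | _ | n
      · simp
      · simp
      · push_cast
        have : (0 : ℝ) ≤ n := Nat.cast_nonneg n
        have h5 : ((n : ℝ) + 1 + 1) * (n + 1 + 1 - 1) * (n + 1 + 1 - 2) = (n + 2) * (n + 1) * n := by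
          ring
        rw [h5]; positivity
    unfold fr at ih ⊢
    push_cast
    have h2 : (1 - ε) ^ (n + 1) = (1 - ε) ^ n * (1 - ε) := pow_succ _ _
    have h3 : 1 - n * ε + (n : ℝ) * (n - 1) / 2 * ε ^ 2 - (n : ℝ) * (n - 1) * (n - 2) / 6 * ε ^ 3 ≤
        (1 - ε) ^ n := by linarith
    have h4 : (1 - n * ε + (n : ℝ) * (n - 1) / 2 * ε ^ 2 - (n : ℝ) * (n - 1) * (n - 2) / 6 * ε ^ 3)
        * (1 - ε) ≤ (1 - ε) ^ n * (1 - ε) := mul_le_mul_of_nonneg_right h3 (by linarith)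
    rw [h2]
    have h5 : 0 ≤ (n : ℝ) * (n - 1) * (n - 2) * ε ^ 4 := mul_nonneg hC (by positivity)
    nlinarith [h4, h5]

/-- The remainder of the Green function. -/
noncomputable def Rr (ε : ℝ) : ℝ := D1 * ε - (G1 - Gs (1 - ε))

theorem hasSum_Rr {ε : ℝ} (h0 : 0 ≤ ε) (h1 : ε ≤ 1) :
    HasSum (fun n : ℕ => w n * fr (2 * n) ε) (Rr ε) := by
  have e1 : HasSum (fun n : ℕ => 2 * (n : ℝ) * w n * ε) (D1 * ε) :=
    summable_nw.hasSum.mul_right ε
  have e2 : HasSum w G1 := summable_w.hasSum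
  have e3 : HasSum (fun n : ℕ => w n * (1 - ε) ^ (2 * n)) (Gs (1 - ε)) :=
    (summable_Gs (by linarith) (by linarith)).hasSum
  have := e1.sub (e2.sub e3)
  unfold Rr
  refine this.congr_fun ?_ |> fun h => h
  intro n
  unfold fr
  push_cast
  ring


theorem harm_le (k : ℕ) : ∑ i ∈ Finset.range (2 ^ k), 1 / ((i : ℝ) + 1) ≤ 1 + k := by
  induction k with
  | zero => simp
  | succ k ih =>
    rw [pow_succ, mul_two, Finset.sum_range_add]
    have h : ∑ i ∈ Finset.range (2 ^ k), 1 / (((2 ^ k + i : ℕ) : ℝ) + 1) ≤ 1 := by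
      calc ∑ i ∈ Finset.range (2 ^ k), 1 / (((2 ^ k + i : ℕ) : ℝ) + 1)
          ≤ ∑ i ∈ Finset.range (2 ^ k), 1 / (2 : ℝ) ^ k := by
            refine Finset.sum_le_sum fun i _ => one_div_le_one_div_of_le (by positivity) ?_
            push_cast
            have : (0 : ℝ) ≤ i := Nat.cast_nonneg i
            linarith
        _ = 1 := by
            rw [Finset.sum_const, Finset.card_range, nsmul_eq_mul]
            push_cast
            field_simp
    push_cast at h ⊢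
    linarith

theorem le_harm (k : ℕ) : (k : ℝ) / 2 ≤ ∑ i ∈ Finset.range (2 ^ k), 1 / ((i : ℝ) + 1) := by
  induction k with
  | zero => simp
  | succ k ih =>
    rw [pow_succ, mul_two, Finset.sum_range_add]
    have h : 1 / 2 ≤ ∑ i ∈ Finset.range (2 ^ k), 1 / (((2 ^ k + i : ℕ) : ℝ) + 1) := by
      calc (1 : ℝ) / 2 = ∑ i ∈ Finset.range (2 ^ k), 1 / ((2 : ℝ) * 2 ^ k) := by
            rw [Finset.sum_const, Finset.card_range, nsmul_eq_mul]
            push_cast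
            field_simp
        _ ≤ ∑ i ∈ Finset.range (2 ^ k), 1 / (((2 ^ k + i : ℕ) : ℝ) + 1) := by
            refine Finset.sum_le_sum fun i hi => one_div_le_one_div_of_le (by positivity) ?_
            have h1 : i + 1 ≤ 2 ^ k := Finset.mem_range.1 hi
            have h2 : ((i : ℝ) + 1) ≤ 2 ^ k := by exact_mod_cast h1
            push_cast
            linarith
    push_cast at h ⊢
    linarith

theorem Rr_le (k : ℕ) : Rr ((1 / 2) ^ k) ≤ (k + 2) / 4 * ((1 / 2 : ℝ) ^ k) ^ 2 := by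
  set ε : ℝ := (1 / 2) ^ k with hε
  have h0 : 0 ≤ ε := by positivity
  have hp : 0 < ε := by positivity
  have h1 : ε ≤ 1 := pow_le_one₀ (by norm_num) (by norm_num)
  have hN : ε * (2 : ℝ) ^ k = 1 := by rw [hε, ← mul_pow]; norm_num
  rw [← (hasSum_Rr h0 h1).tsum_eq]
  have hnn : ∀ n, 0 ≤ w n * fr (2 * n) ε := fun n => mul_nonneg (w_nonneg n) (fr_nonneg _ h1)
  have hfr0 : w 0 * fr (2 * 0) ε = 0 := by unfold fr; simp
  -- small n
  have hsmall : ∀ i : ℕ, w (i + 1) * fr (2 * (i + 1)) ε ≤ ε ^ 2 / 4 * (1 / ((i : ℝ) + 1)) := by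
    intro i
    have hi : (0 : ℝ) ≤ i := Nat.cast_nonneg i
    calc w (i + 1) * fr (2 * (i + 1)) ε
        ≤ (1 / (2 * ((i + 1 : ℕ) : ℝ) + 1) ^ 3) * (((2 * (i + 1) : ℕ) : ℝ) ^ 2 * ε ^ 2 / 2) :=
          mul_le_mul (w_le _) (fr_le_sq _ h0 h1) (fr_nonneg _ h1) (by positivity)
      _ ≤ ε ^ 2 / 4 * (1 / ((i : ℝ) + 1)) := by
          push_cast
          rw [div_mul_div_comm, div_mul_div_comm, div_le_div_iff₀ (by positivity) (by positivity)]
          have h3 : 8 * ((i : ℝ) + 1) ^ 3 ≤ (2 * ((i : ℝ) + 1) + 1) ^ 3 := by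
            calc 8 * ((i : ℝ) + 1) ^ 3 = (2 * ((i : ℝ) + 1)) ^ 3 := by ring
              _ ≤ _ := pow_le_pow_left₀ (by positivity) (by linarith) 3
          have h4 := mul_le_mul_of_nonneg_left h3 (by positivity : (0 : ℝ) ≤ 2 * ε ^ 2)
          nlinarith [h4]
  -- large n
  have hlarge : ∀ i : ℕ, w (i + 1) * fr (2 * (i + 1)) ε ≤ ε / 4 * (1 / ((i : ℝ) + 1) ^ 2) := by
    intro i
    have hi : (0 : ℝ) ≤ i := Nat.cast_nonneg i
    calc w (i + 1) * fr (2 * (i + 1)) ε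
        ≤ (1 / (2 * ((i + 1 : ℕ) : ℝ) + 1) ^ 3) * (((2 * (i + 1) : ℕ) : ℝ) * ε) :=
          mul_le_mul (w_le _) (fr_le _ h0 h1) (fr_nonneg _ h1) (by positivity)
      _ ≤ ε / 4 * (1 / ((i : ℝ) + 1) ^ 2) := by
          push_cast
          rw [div_mul_div_comm, div_mul_eq_mul_div, div_le_div_iff₀ (by positivity) (by positivity)]
          have h3 : 8 * ((i : ℝ) + 1) ^ 3 ≤ (2 * ((i : ℝ) + 1) + 1) ^ 3 := by
            calc 8 * ((i : ℝ) + 1) ^ 3 = (2 * ((i : ℝ) + 1)) ^ 3 := by ring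
              _ ≤ _ := pow_le_pow_left₀ (by positivity) (by linarith) 3
          have h4 := mul_le_mul_of_nonneg_left h3 h0
          nlinarith [h4]
  have htail : ∀ m : ℕ, ∑ i ∈ Finset.range m, w (2 ^ k + i + 1) * fr (2 * (2 ^ k + i + 1)) ε ≤
      ε / 4 * (1 / (2 : ℝ) ^ k - 1 / ((2 : ℝ) ^ k + m)) := by
    intro m
    induction m with
    | zero => simp
    | succ m ih =>
      rw [Finset.sum_range_succ]
      have h3 := hlarge (2 ^ k + m)
      push_cast at h3 ⊢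
      have hm : (0 : ℝ) ≤ m := Nat.cast_nonneg m
      have h2k : (0 : ℝ) < 2 ^ k := by positivity
      have h4 : 1 / ((2 : ℝ) ^ k + m + 1) ^ 2 ≤ 1 / ((2 : ℝ) ^ k + m) - 1 / ((2 : ℝ) ^ k + (m + 1)) := by
        rw [div_sub_div _ _ (by positivity) (by positivity),
          div_le_div_iff₀ (by positivity) (by positivity)]
        nlinarith
      have h5 := mul_le_mul_of_nonneg_left h4 (by positivity : 0 ≤ ε / 4)
      linarith
  refine Real.tsum_le_of_sum_range_le hnn fun m => ?_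
  have hle : ∑ i ∈ Finset.range m, w i * fr (2 * i) ε ≤
      ∑ i ∈ Finset.range (2 ^ k + m + 1), w i * fr (2 * i) ε :=
    Finset.sum_le_sum_of_subset_of_nonneg (Finset.range_subset_range.2
      ((Nat.le_add_left m _).trans (Nat.le_succ _))) fun i _ _ => hnn i
  refine hle.trans ?_
  rw [Finset.sum_range_succ', hfr0, add_zero, Finset.sum_range_add]
  have hA : ∑ i ∈ Finset.range (2 ^ k), w (i + 1) * fr (2 * (i + 1)) ε ≤ ε ^ 2 / 4 * (1 + k) := by
    refine (Finset.sum_le_sum fun i _ => hsmall i).trans ?_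
    rw [← Finset.mul_sum]
    exact mul_le_mul_of_nonneg_left (harm_le k) (by positivity)
  have hB := htail m
  have hC : ε / 4 * (1 / (2 : ℝ) ^ k - 1 / ((2 : ℝ) ^ k + m)) ≤ ε ^ 2 / 4 := by
    have h2 : 1 / (2 : ℝ) ^ k = ε := by
      rw [eq_comm, eq_div_iff (by positivity)]; exact hN
    have h3 : (0 : ℝ) ≤ 1 / ((2 : ℝ) ^ k + m) := by positivity
    rw [h2]
    nlinarith
  nlinarith

theorem le_Rr (k : ℕ) : (k : ℝ) / 256 * ((1 / 2 : ℝ) ^ (k + 1)) ^ 2 ≤ Rr ((1 / 2) ^ (k + 1)) := by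
  set ε : ℝ := (1 / 2) ^ (k + 1) with hε
  have h0 : 0 ≤ ε := by positivity
  have h1 : ε ≤ 1 := pow_le_one₀ (by norm_num) (by norm_num)
  have hN : ε * (2 : ℝ) ^ (k + 1) = 1 := by rw [hε, ← mul_pow]; norm_num
  have hnn : ∀ n, 0 ≤ w n * fr (2 * n) ε := fun n => mul_nonneg (w_nonneg n) (fr_nonneg _ h1)
  have hs := (hasSum_Rr h0 h1).summable.sum_le_tsum (Finset.range (2 ^ k + 1)) (fun n _ => hnn n)
  rw [(hasSum_Rr h0 h1).tsum_eq, Finset.sum_range_succ'] at hs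
  have hfr0 : w 0 * fr (2 * 0) ε = 0 := by unfold fr; simp
  rw [hfr0, add_zero] at hs
  refine le_trans ?_ hs
  have hterm : ∀ i ∈ Finset.range (2 ^ k), ε ^ 2 / 128 * (1 / ((i : ℝ) + 1)) ≤
      w (i + 1) * fr (2 * (i + 1)) ε := by
    intro i hi
    have hi0 : (0 : ℝ) ≤ i := Nat.cast_nonneg i
    have hi1 : (i : ℝ) + 1 ≤ 2 ^ k := by
      have := Finset.mem_range.1 hi
      have h2 : i + 1 ≤ 2 ^ k := this
      exact_mod_cast h2
    have hm : 2 * ((i : ℝ) + 1) * ε ≤ 1 := by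
      calc 2 * ((i : ℝ) + 1) * ε ≤ 2 * 2 ^ k * ε := by
            refine mul_le_mul_of_nonneg_right ?_ h0
            linarith
        _ = 1 := by rw [← hN]; ring
    have hfr := fr_ge (2 * (i + 1)) h0 h1
    push_cast at hfr
    have hfr2 : ((i : ℝ) + 1) ^ 2 / 2 * ε ^ 2 ≤ fr (2 * (i + 1)) ε := by
      refine le_trans ?_ hfr
      set m : ℝ := 2 * ((i : ℝ) + 1) with hmdef
      have hm2 : 2 ≤ m := by rw [hmdef]; linarith
      have e : ((i : ℝ) + 1) = m / 2 := by rw [hmdef]; ring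
      rw [e]
      have h5 : (m / 2) ^ 2 / 2 * ε ^ 2 ≤ m * (m - 1) / 2 * ε ^ 2 * (2 / 3) := by
        have : (m / 2) ^ 2 / 2 ≤ m * (m - 1) / 2 * (2 / 3) := by nlinarith
        nlinarith [sq_nonneg ε]
      have h6 : m * (m - 1) * (m - 2) / 6 * ε ^ 3 ≤ m * (m - 1) / 2 * ε ^ 2 * (1 / 3) := by
        have h7 : (m - 2) * ε ≤ 1 := by nlinarith
        have h8 : 0 ≤ m * (m - 1) / 6 * ε ^ 2 := by
          have : 0 ≤ m * (m - 1) := mul_nonneg (by linarith) (by linarith)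
          positivity
        have h9 := mul_le_mul_of_nonneg_left h7 h8
        calc m * (m - 1) * (m - 2) / 6 * ε ^ 3 = m * (m - 1) / 6 * ε ^ 2 * ((m - 2) * ε) := by ring
          _ ≤ m * (m - 1) / 6 * ε ^ 2 * 1 := h9
          _ = _ := by ring
      linarith
    have hw := le_w (i + 1) (by omega)
    push_cast at hw
    calc ε ^ 2 / 128 * (1 / ((i : ℝ) + 1))
        = 1 / (4 * ((i : ℝ) + 1)) ^ 3 * (((i : ℝ) + 1) ^ 2 / 2 * ε ^ 2) := by
          field_simp; ring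
      _ ≤ _ := mul_le_mul hw hfr2 (by positivity) (w_nonneg _)
  refine le_trans ?_ (Finset.sum_le_sum hterm)
  rw [← Finset.mul_sum]
  have := le_harm k
  nlinarith [sq_nonneg ε]

end V11328RD
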