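import Pool.Agent.V11328.RD.Green
import Pool.Agent.V11328.RD.Series

/-!
# The critical mixture
-/

set_option autoImplicit false
set_option linter.unusedSectionVars false

namespace V11328RD

noncomputable def ps : ℝ := G1 ^ 2 / (G1 + D1)
noncomputable def S1 : ℝ := 1 / (1 - ps)
noncomputable def kp : ℝ := Real.sqrt (S1 ^ 2 - 1) / G1
noncomputable def al : ℝ := 1 / (1 + kp)
noncomputable def be : ℝ := kp / (1 + kp)

theorem G1_pos : 0 < G1 := by have := G1_gt; linarith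
theorem D1_pos : 0 < D1 := by have := D1_ge; have := G1_gt; linarith

theorem ps_mul : ps * (G1 + D1) = G1 ^ 2 := by
  unfold ps
  have := G1_pos
  have := D1_pos
  field_simp

theorem ps_pos : 0 < ps := by
  unfold ps
  have := G1_pos
  have := D1_pos
  positivity

theorem ps_lt : ps < 1 := by
  unfold ps
  have h1 := G1_gt
  have h2 := D1_pos
  have h3 := G1_le
  have h4 := D1_ge
  rw [div_lt_one (by linarith)]
  nlinarith

theorem S1_mul : S1 * (1 - ps) = 1 := by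
  unfold S1
  have := ps_lt
  rw [one_div, inv_mul_cancel₀ (by linarith)]

theorem S1_gt : 1 < S1 := by
  unfold S1
  have h1 := ps_lt
  have h2 := ps_pos
  rw [lt_div_iff₀ (by linarith)]
  linarith

theorem kp_pos : 0 < kp := by
  unfold kp
  have h := S1_gt
  have := G1_pos
  have : 0 < Real.sqrt (S1 ^ 2 - 1) := Real.sqrt_pos.2 (by nlinarith)
  positivity

theorem kp_sq : kp ^ 2 * G1 ^ 2 = S1 ^ 2 - 1 := by
  unfold kp
  have h := S1_gt
  have hG := G1_pos
  rw [div_pow, Real.sq_sqrt (by nlinarith)]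
  field_simp

theorem al_pos : 0 < al := by unfold al; have := kp_pos; positivity
theorem be_pos : 0 < be := by unfold be; have := kp_pos; positivity
theorem al_add_be : al + be = 1 := by
  unfold al be
  have := kp_pos
  field_simp
theorem be_eq : be = al * kp := by
  unfold al be
  ring

noncomputable def Tt (ξ : ℝ) : ℝ := ξ * Gs ξ
noncomputable def ta (ξ : ℝ) : ℝ := kp * Tt ξ
noncomputable def si (ξ : ℝ) : ℝ := Real.sqrt (1 + ta ξ ^ 2)
noncomputable def Hh (ξ : ℝ) : ℝ := Gs ξ + si ξ - 1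
noncomputable def zz (ξ : ℝ) : ℝ := Tt ξ / (al * Hh ξ)
noncomputable def la (ξ : ℝ) : ℝ := ta ξ / (si ξ + 1)
noncomputable def H1 : ℝ := G1 + S1 - 1
noncomputable def rr : ℝ := G1 / (al * H1)

theorem si_sq (ξ : ℝ) : si ξ ^ 2 = 1 + ta ξ ^ 2 := Real.sq_sqrt (by positivity)

theorem one_le_si (ξ : ℝ) : 1 ≤ si ξ := by
  unfold si
  rw [Real.one_le_sqrt]
  nlinarith [sq_nonneg (ta ξ)]

theorem one_le_Hh {ξ : ℝ} (h0 : 0 ≤ ξ) (h1 : ξ ≤ 1) : 1 ≤ Hh ξ := by
  unfold Hh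
  have := one_le_Gs h0 h1
  have := one_le_si ξ
  linarith

theorem H1_ge : 1 ≤ H1 := by unfold H1; have := G1_gt; have := S1_gt; linarith

theorem rr_pos : 0 < rr := by
  unfold rr
  have := G1_pos
  have := al_pos
  have := H1_ge
  positivity

theorem Tt_pos {ξ : ℝ} (h0 : 0 < ξ) (h1 : ξ ≤ 1) : 0 < Tt ξ :=
  mul_pos h0 (by have := one_le_Gs h0.le h1; linarith)

theorem zz_pos {ξ : ℝ} (h0 : 0 < ξ) (h1 : ξ ≤ 1) : 0 < zz ξ :=
  div_pos (Tt_pos h0 h1) (mul_pos al_pos (by have := one_le_Hh h0.le h1; linarith))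

/-- The normalised Green functions of the two factors. -/
noncomputable def FF (ξ : ℝ) (b : Bool) : A → ℝ := if b then F1 (la ξ) else F0 ξ

theorem la_nonneg {ξ : ℝ} (h0 : 0 < ξ) (h1 : ξ ≤ 1) : 0 ≤ la ξ := by
  unfold la ta
  have := Tt_pos h0 h1
  have := kp_pos
  have := one_le_si ξ
  positivity

theorem FF_one {ξ : ℝ} (h0 : 0 < ξ) (h1 : ξ < 1) (b : Bool) : FF ξ b 1 = 1 := by
  cases b with
  | false => exact F0_one h0.le h1
  | true => exact F1_one _

theorem FF_nonneg {ξ : ℝ} (h0 : 0 < ξ) (h1 : ξ < 1) (b : Bool) (a : A) : 0 ≤ FF ξ b a := by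
  cases b with
  | false => exact F0_nonneg h0.le a
  | true => exact F1_nonneg (la_nonneg h0 h1.le) a

theorem ta_mono {ξ ξ' : ℝ} (h0 : 0 < ξ) (h : ξ ≤ ξ') (h1 : ξ' ≤ 1) : ta ξ ≤ ta ξ' := by
  unfold ta Tt
  have hk := kp_pos
  have h2 := Gs_mono h0.le h h1
  have h3 := one_le_Gs h0.le (h.trans h1)
  refine mul_le_mul_of_nonneg_left ?_ hk.le
  exact mul_le_mul h h2 (by linarith) (by linarith)

theorem la_mono {ξ ξ' : ℝ} (h0 : 0 < ξ) (h : ξ ≤ ξ') (h1 : ξ' ≤ 1) : la ξ ≤ la ξ' := by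
  have ht := ta_mono h0 h h1
  have ht0 : 0 ≤ ta ξ := by
    unfold ta
    exact mul_nonneg kp_pos.le (Tt_pos h0 (h.trans h1)).le
  have ht1 : 0 ≤ ta ξ' := ht0.trans ht
  unfold la
  have s1 := one_le_si ξ
  have s2 := one_le_si ξ'
  rw [div_le_div_iff₀ (by linarith) (by linarith)]
  have h3 : ta ξ * si ξ' ≤ ta ξ' * si ξ := by
    have h4 : (ta ξ * si ξ') ^ 2 ≤ (ta ξ' * si ξ) ^ 2 := by
      rw [mul_pow, mul_pow, si_sq, si_sq]
      nlinarith [mul_le_mul ht ht ht0 ht1]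
    exact (pow_le_pow_iff_left₀ (by positivity) (by positivity) (by norm_num)).1 h4
  nlinarith

theorem FF_mono {ξ ξ' : ℝ} (h0 : 0 < ξ) (h : ξ ≤ ξ') (h1 : ξ' < 1) (b : Bool) (a : A) :
    FF ξ b a ≤ FF ξ' b a := by
  cases b with
  | false => exact F0_mono h0.le h h1 a
  | true => exact F1_mono (la_nonneg h0 (h.trans h1.le)) (la_mono h0 h h1.le) a

theorem gw_eq {ξ : ℝ} (h0 : 0 < ξ) (h1 : ξ < 1) :
    gw (FF ξ) = (1 / Hh ξ) • dl + zz ξ • P al be (gw (FF ξ)) := by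
  have hH := one_le_Hh h0.le h1.le
  have hG := one_le_Gs h0.le h1.le
  have hs := one_le_si ξ
  have hT := Tt_pos h0 h1.le
  have hal := al_pos
  have hk := kp_pos
  have hta : 0 < ta ξ := by unfold ta; positivity
  have hza : zz ξ * al = ξ * Gs ξ / Hh ξ := by
    unfold zz Tt
    field_simp
  have hzb : zz ξ * be = ta ξ / Hh ξ := by
    rw [be_eq]
    unfold zz ta
    field_simp
  have hla : ta ξ * la ξ = si ξ - 1 := by
    unfold la
    have := si_sq ξ
    field_simp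
    nlinarith
  have hla2 : 1 + la ξ ^ 2 = 2 * la ξ * (si ξ / ta ξ) := by
    have h2 : la ξ = (si ξ - 1) / ta ξ := by
      rw [eq_div_iff hta.ne', mul_comm]; exact hla
    rw [h2]
    have := si_sq ξ
    field_simp
    nlinarith
  funext x
  simp only [Pi.add_apply, Pi.smul_apply, smul_eq_mul]
  have key := green_eq al be (zz ξ) (Gs ξ / Hh ξ) ((Gs ξ - 1) / Hh ξ) (si ξ / Hh ξ)
    ((si ξ - 1) / Hh ξ) (FF ξ) (FF_one h0 h1) ?_ ?_ ?_ ?_ ?_ ?_ x
  · rw [key, dl_apply]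
    congr 1
    by_cases hx : x = 1
    · rw [if_pos hx, if_pos hx]
      field_simp
      unfold Hh
      ring
    · rw [if_neg hx, if_neg hx, mul_zero]
  · intro m hm
    change zz ξ * al * avg1 (F0 ξ) m = Gs ξ / Hh ξ * F0 ξ m
    rw [hza, F0_off h0.le h1 hm]
    ring
  · change zz ξ * al * avg1 (F0 ξ) 1 = (Gs ξ - 1) / Hh ξ
    have h2 := F0_at h0.le h1
    rw [GA_one h0.le h1] at h2
    have h3 : ξ * Gs ξ / Hh ξ * avg1 (F0 ξ) 1 = Gs ξ / Hh ξ * (ξ * avg1 (F0 ξ) 1) := by ring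
    rw [hza, h3, h2]
    field_simp
  · intro m hm
    change zz ξ * be * avg2 (F1 (la ξ)) m = si ξ / Hh ξ * F1 (la ξ) m
    rw [avg2_F1_off hla2 hm, hzb]
    field_simp
  · change zz ξ * be * avg2 (F1 (la ξ)) 1 = (si ξ - 1) / Hh ξ
    rw [avg2_F1_one, hzb, ← hla]
    ring
  · unfold Hh at hH ⊢
    field_simp
    ring
  · unfold Hh at hH ⊢
    field_simp
    ring

/-- The Green function of the mixture. -/
theorem hasSum_param {ξ ξ' : ℝ} (h0 : 0 < ξ) (h : ξ ≤ ξ') (h1 : ξ' < 1) (hz : zz ξ < zz ξ') :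
    HasSum (fun k : ℕ => zz ξ ^ k * ret al be k) (Hh ξ) := by
  have h0' : 0 < ξ' := h0.trans_le h
  have h1' : ξ < 1 := h.trans_lt h1
  have hH := one_le_Hh h0.le h1'.le
  have hH' := one_le_Hh h0'.le h1.le
  have key := hasSum_ret al_pos.le be_pos.le (zz_pos h0 h1'.le) hz
    (c := 1 / Hh ξ) (c' := 1 / Hh ξ') (by positivity) (by positivity) (gw_eq h0 h1')
    (gw_eq h0' h1) (fun x => Ph_nonneg (FF_nonneg h0 h1') _)
    (fun x => Ph_mono (FF_nonneg h0 h1') (FF_mono h0 h h1) _)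
  rw [gw_one] at key
  simpa using key

end V11328RD
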