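import Mathlib

/-!
# Reduced words in free products: prefixes and the tripod lemma

For a free product `Γ` of groups, every element has a reduced word `wl x`.  For `y, x ∈ Γ` there
is a point `c` which, up to one factor, lies on the geodesics `1 → x`, `1 → y`, `y → x`.
-/

set_option autoImplicit false
set_option linter.unusedSectionVars false

open Monoid Monoid.CoprodI

namespace V11328RD

variable {ι : Type} {M : ι → Type} [∀ i, Group (M i)] [DecidableEq ι] [∀ i, DecidableEq (M i)]

/-- The reduced word of an element of the free product. -/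
noncomputable def wl (x : CoprodI M) : List (Σ i, M i) := (x • (Word.empty : Word M)).toList

/-- The product of a list of syllables. -/
def pr (l : List (Σ i, M i)) : CoprodI M := (l.map fun s => of s.2).prod

/-- Reducedness of a list of syllables. -/
def Red (l : List (Σ i, M i)) : Prop :=
  (∀ s ∈ l, s.2 ≠ 1) ∧ l.IsChain (fun a b => a.1 ≠ b.1)

/-- The inverse list. -/
def invL (l : List (Σ i, M i)) : List (Σ i, M i) :=
  (l.map fun s => (⟨s.1, s.2⁻¹⟩ : Σ i, M i)).reverse

@[simp] theorem pr_nil : pr ([] : List (Σ i, M i)) = 1 := rfl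

@[simp] theorem pr_cons (s : Σ i, M i) (l : List (Σ i, M i)) : pr (s :: l) = of s.2 * pr l := by
  simp [pr]

@[simp] theorem pr_append (l l' : List (Σ i, M i)) : pr (l ++ l') = pr l * pr l' := by
  simp [pr]

theorem red_wl (x : CoprodI M) : Red (wl x) :=
  ⟨fun s hs => (x • (Word.empty : Word M)).ne_one s hs, (x • (Word.empty : Word M)).chain_ne⟩

theorem pr_wl (x : CoprodI M) : pr (wl x) = x := by
  have h := Word.prod_smul x (Word.empty : Word M)
  rw [Word.prod_empty, mul_one] at h
  exact h

theorem wl_pr {l : List (Σ i, M i)} (hl : Red l) : wl (pr l) = l := by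
  have h := (Word.equiv (M := M)).apply_symm_apply ⟨l, hl.1, hl.2⟩
  have h2 := congrArg Word.toList h
  exact h2

theorem pr_invL (l : List (Σ i, M i)) : pr (invL l) = (pr l)⁻¹ := by
  induction l with
  | nil => simp [invL]
  | cons a l ih =>
    have : invL (a :: l) = invL l ++ [⟨a.1, a.2⁻¹⟩] := by simp [invL]
    rw [this, pr_append, ih, pr_cons]
    simp

theorem length_invL (l : List (Σ i, M i)) : (invL l).length = l.length := by simp [invL]

theorem Red.append_left {l l' : List (Σ i, M i)} (h : Red (l ++ l')) : Red l :=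
  ⟨fun s hs => h.1 s (List.mem_append_left _ hs), h.2.left_of_append⟩

theorem Red.append_right {l l' : List (Σ i, M i)} (h : Red (l ++ l')) : Red l' :=
  ⟨fun s hs => h.1 s (List.mem_append_right _ hs), h.2.right_of_append⟩

theorem Red.tail {a : Σ i, M i} {l : List (Σ i, M i)} (h : Red (a :: l)) : Red l :=
  Red.append_right (l := [a]) h

theorem red_invL {l : List (Σ i, M i)} (h : Red l) : Red (invL l) := by
  refine ⟨?_, ?_⟩
  · intro s hs
    simp only [invL, List.mem_reverse, List.mem_map] at hs
    obtain ⟨t, ht, rfl⟩ := hs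
    simpa using h.1 t ht
  · unfold invL
    rw [List.isChain_reverse]
    rw [List.isChain_map]
    refine h.2.imp ?_
    intro a b hab
    exact fun h => hab h.symm


theorem common_prefix {α : Type} [DecidableEq α] (l1 l2 : List α) :
    ∃ u p q, l1 = u ++ p ∧ l2 = u ++ q ∧
      (p = [] ∨ q = [] ∨ ∃ a p' b q', p = a :: p' ∧ q = b :: q' ∧ a ≠ b) := by
  induction l1 generalizing l2 with
  | nil => exact ⟨[], [], l2, by simp, by simp, Or.inl rfl⟩
  | cons a l1 ih =>
    cases l2 with
    | nil => exact ⟨[], a :: l1, [], by simp, by simp, Or.inr (Or.inl rfl)⟩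
    | cons b l2 =>
      by_cases hab : a = b
      · subst hab
        obtain ⟨u, p, q, h1, h2, h3⟩ := ih l2
        exact ⟨a :: u, p, q, by simp [h1], by simp [h2], h3⟩
      · exact ⟨[], a :: l1, b :: l2, by simp, by simp,
          Or.inr (Or.inr ⟨a, l1, b, l2, rfl, rfl, hab⟩)⟩

/-- The points near the geodesic from `1` to `x`, within syllable distance `k`. -/
noncomputable def Pf (k : ℕ) (B : Finset (CoprodI M)) (x : CoprodI M) : Finset (CoprodI M) :=
  (Finset.range (k + 1)).biUnion fun j => B.image (fun b => pr ((wl x).take j) * b)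

theorem card_Pf (k : ℕ) (B : Finset (CoprodI M)) (x : CoprodI M) :
    (Pf k B x).card ≤ (k + 1) * B.card := by
  unfold Pf
  refine Finset.card_biUnion_le.trans ?_
  refine (Finset.sum_le_card_nsmul _ _ B.card (fun j _ => Finset.card_image_le)).trans ?_
  simp

theorem mem_Pf {k : ℕ} {B : Finset (CoprodI M)} {x c : CoprodI M} {u : List (Σ i, M i)}
    {b : CoprodI M} (hu : u.length ≤ k) (hb : b ∈ B) {v : List (Σ i, M i)} (hx : wl x = u ++ v)
    (hc : c = pr u * b) : c ∈ Pf k B x := by
  unfold Pf
  rw [Finset.mem_biUnion]
  refine ⟨u.length, Finset.mem_range.2 (by omega), ?_⟩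
  rw [Finset.mem_image]
  refine ⟨b, hb, ?_⟩
  rw [hx, hc]
  simp

theorem chain_append_of {l l' : List (Σ i, M i)} (h : l.IsChain (fun a b => a.1 ≠ b.1))
    (h' : l'.IsChain (fun a b => a.1 ≠ b.1))
    (hh : ∀ a ∈ l.getLast?, ∀ b ∈ l'.head?, a.1 ≠ b.1) :
    (l ++ l').IsChain (fun a b => a.1 ≠ b.1) := by
  rw [List.isChain_append]
  exact ⟨h, h', hh⟩

/-- **Tripod lemma.** -/
theorem tripod {k : ℕ} {B : Finset (CoprodI M)} (h1 : (1 : CoprodI M) ∈ B) {y : CoprodI M}
    (hy : (wl y).length ≤ k) (hB : ∀ s ∈ wl y, of s.2 ∈ B) (x : CoprodI M) :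
    ∃ c, c ∈ Pf k B x ∧ c ∈ Pf k B y ∧ y⁻¹ * c ∈ Pf k B (y⁻¹ * x) := by
  obtain ⟨u, p, q, hp, hq, hcase⟩ := common_prefix (wl y) (wl x)
  have hyu : y = pr u * pr p := by rw [← pr_append, ← hp, pr_wl]
  have hxu : x = pr u * pr q := by rw [← pr_append, ← hq, pr_wl]
  have hlen : u.length + p.length ≤ k := by
    have := congrArg List.length hp
    rw [List.length_append] at this
    omega
  have hRy : Red (u ++ p) := hp ▸ red_wl y
  have hRx : Red (u ++ q) := hq ▸ red_wl x
  have hz : y⁻¹ * x = (pr p)⁻¹ * pr q := by rw [hyu, hxu]; group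
  rcases hcase with h | h | ⟨a, p', b, q', hpa, hqb, hab⟩
  · subst h
    refine ⟨pr u, mem_Pf (u := u) (b := 1) (by omega) h1 hq (by simp),
      mem_Pf (u := u) (b := 1) (by omega) h1 hp (by simp), ?_⟩
    refine mem_Pf (u := []) (b := 1) (by simp) h1 (v := wl (y⁻¹ * x)) (by simp) ?_
    rw [hyu]; simp
  · subst h
    refine ⟨pr u, mem_Pf (u := u) (b := 1) (by omega) h1 hq (by simp),
      mem_Pf (u := u) (b := 1) (by omega) h1 hp (by simp), ?_⟩
    refine mem_Pf (u := invL p) (b := 1) (by rw [length_invL]; omega) h1 (v := []) ?_ ?_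
    · rw [hz, pr_nil, mul_one, ← pr_invL, wl_pr (red_invL hRy.append_right)]; simp
    · rw [hyu, pr_invL]; group
  · subst hpa hqb
    have hRp' : Red p' := hRy.append_right.tail
    have hRq' : Red q' := hRx.append_right.tail
    by_cases hi : a.1 = b.1
    · obtain ⟨i, s⟩ := a
      obtain ⟨j, t⟩ := b
      simp only at hi
      subst hi
      have hst : s⁻¹ * t ≠ 1 := by
        intro h
        apply hab
        have : s = t := by rwa [inv_mul_eq_one] at h
        rw [this]
      refine ⟨pr u * of s, ?_, ?_, ?_⟩
      · refine mem_Pf (u := u) (b := of s) (by omega) ?_ hq rfl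
        exact hB ⟨i, s⟩ (by rw [hp]; simp)
      · refine mem_Pf (u := u ++ [⟨i, s⟩]) (b := 1) ?_ h1 (v := p') ?_ ?_
        · simp at hlen ⊢; omega
        · rw [hp]; simp
        · simp
      · have hred : Red (invL p' ++ (⟨i, s⁻¹ * t⟩ :: q')) := by
          refine ⟨?_, ?_⟩
          · intro r hr
            rw [List.mem_append, List.mem_cons] at hr
            rcases hr with hr | hr | hr
            · exact (red_invL hRp').1 r hr
            · rw [hr]; exact hst
            · exact hRq'.1 r hr
          · have hc1 := hRy.append_right.2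
            have hc2 := hRx.append_right.2
            rw [List.isChain_cons] at hc1 hc2
            refine chain_append_of (red_invL hRp').2 ?_ ?_
            · rw [List.isChain_cons]
              exact ⟨fun r hr => hc2.1 r hr, hc2.2⟩
            · intro r hr r' hr'
              simp only [List.head?_cons, Option.mem_def, Option.some.injEq] at hr'
              subst hr'
              unfold invL at hr
              rw [List.getLast?_reverse, List.head?_map] at hr
              simp only [Option.mem_def, Option.map_eq_some_iff] at hr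
              obtain ⟨w, hw, rfl⟩ := hr
              exact fun h => hc1.1 w hw h.symm
        have hwl : wl (y⁻¹ * x) = invL p' ++ (⟨i, s⁻¹ * t⟩ :: q') := by
          rw [← wl_pr hred, hz]
          congr 1
          simp [pr_invL, mul_assoc]
        refine mem_Pf (u := invL p') (b := 1) ?_ h1 hwl ?_
        · rw [length_invL]; simp at hlen; omega
        · rw [hyu, pr_invL, pr_cons]; simp
    · refine ⟨pr u, mem_Pf (u := u) (b := 1) (by omega) h1 hq (by simp),
        mem_Pf (u := u) (b := 1) (by omega) h1 hp (by simp), ?_⟩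
      have hred : Red (invL (a :: p') ++ (b :: q')) := by
        refine ⟨?_, ?_⟩
        · intro r hr
          rw [List.mem_append] at hr
          rcases hr with hr | hr
          · exact (red_invL hRy.append_right).1 r hr
          · exact hRx.append_right.1 r hr
        · refine chain_append_of (red_invL hRy.append_right).2 hRx.append_right.2 ?_
          intro r hr r' hr'
          simp only [List.head?_cons, Option.mem_def, Option.some.injEq] at hr'
          subst hr'
          unfold invL at hr
          rw [List.getLast?_reverse, List.head?_map] at hr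
          simp only [List.head?_cons, Option.map_some, Option.mem_def, Option.some.injEq] at hr
          subst hr
          exact hi
      have hwl : wl (y⁻¹ * x) = invL (a :: p') ++ (b :: q') := by
        rw [← wl_pr hred, hz]
        congr 1
        rw [pr_append, pr_invL]
      refine mem_Pf (u := invL (a :: p')) (b := 1) ?_ h1 hwl ?_
      · rw [length_invL]; omega
      · rw [hyu, pr_invL]; simp

end V11328RD
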